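import Mathlib
import Pool.Agent.TH881.RG.In
import Pool.Agent.TH881.RG.Mix

/-! Mixing for reflected sets of primes. -/

set_option autoImplicit false

namespace Pool.Agent.K9h13.RD
open Finset
open Pool.Agent.TH881
open Pool.Agent.TH881.RG
open Pool.Agent.H373R2.T7
open Pool.Agent.H807R2.Dav

/-- distances are preserved under reflection -/
lemma gam_refl (w z R : ℕ) (B : Finset ℕ) (hR : ∀ b ∈ B, b ≤ R) (b : ℕ) (hb : b ∈ B) :
    ∑ c ∈ (B.image (fun b => R - b)).erase (R - b), gw w z (Nat.dist (R - b) c) =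
      ∑ b' ∈ B.erase b, gw w z (Nat.dist b b') := by
  classical
  have hinj : Set.InjOn (fun b => R - b) (B : Set ℕ) := by
    intro x hx y hy hxy
    have h1 := hR x hx
    have h2 := hR y hy
    simp only at hxy
    omega
  have h1 : (B.image (fun b => R - b)).erase (R - b) = (B.erase b).image (fun b => R - b) := by
    ext c
    rw [mem_erase, mem_image, mem_image]
    constructor
    · rintro ⟨h1, x, hx, rfl⟩
      refine ⟨x, mem_erase.2 ⟨?_, hx⟩, rfl⟩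
      rintro rfl
      exact h1 rfl
    · rintro ⟨x, hx, rfl⟩
      rw [mem_erase] at hx
      refine ⟨?_, x, hx.2, rfl⟩
      intro h
      have h2 := hR x hx.2
      have h3 := hR b hb
      omega
  rw [h1, sum_image (hinj.mono (by
    intro x hx
    exact (mem_erase.1 (mem_coe.1 hx)).2))]
  apply sum_congr rfl
  intro x hx
  rw [mem_erase] at hx
  have h2 := hR x hx.2
  have h3 := hR b hb
  congr 1
  simp only [Nat.dist]
  omega

open Classical in
/-- **Mixing** for a reflected set of primes. -/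
theorem mixR (κ ε ρ : ℝ) (hκ : 0 < κ) (hκ1 : κ ≤ 1) (hε : 0 < ε) (hε1 : ε < 1) (hρ : 0 < ρ) :
    ∃ w0 : ℕ, ∀ w : ℕ, w0 ≤ w → ∃ N0 : ℕ, ∀ N : ℕ, N0 ≤ N → ∀ M H t : ℕ, M < t → t ≤ M + Wp w →
    M + H ≤ N → ρ * N ≤ H → ∀ P R : ℕ, P ≤ N → ρ * N ≤ P →
    ∀ A : Finset ℕ, (∀ b ∈ A, b ≤ P) → (∀ b ∈ A, b.Prime) → (∀ b ∈ A, √(N : ℝ) < b) →
    (∀ b ∈ A, ∀ b' ∈ A, b ≡ b' [MOD Wp w]) → (∀ b ∈ A, b ≤ R) → (∀ b ∈ A, R - b ≤ M) →
    (∀ b ∈ A, (t - (R - b)).Coprime (Wp w)) →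
    κ * ((P : ℝ) / (Nat.totient (Wp w) * Real.log P)) ≤ A.card →
    ∀ E ⊆ It w M H t,
      |∑ n ∈ E, cv (fun k => ArithmeticFunction.vonMangoldt k) (A.image (fun b => R - b)) n -
          E.card * ((Vz w)⁻¹ * A.card)| ≤
        ε * (((H : ℝ) / Wp w) * ((Vz w)⁻¹ * A.card)) := by
  obtain ⟨ε1, hε1d⟩ : ∃ e : ℝ, e = ε ^ 2 / 100 := ⟨_, rfl⟩
  have hε2 : ε ^ 2 ≤ ε := by nlinarith
  have he0 : 0 < ε1 := by rw [hε1d]; positivity
  have he1 : ε1 < 1 / 16 := by rw [hε1d]; linarith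
  obtain ⟨J, hJ, hJ2⟩ := root_close (100 / κ) ε1 (by positivity) he0
  obtain ⟨B0, hsup⟩ := sup_diff (2 * 2 + 2)
  obtain ⟨m1, hsup⟩ := hsup (B0 + 2)
  obtain ⟨m2, hsec⟩ := second_momentG (B0 + 2) (2 + 2)
  obtain ⟨m3, hfir⟩ := first_moment (B0 + 2) (2 + 2)
  obtain ⟨w0, havg⟩ := avg_prime stPM J (B0 + 2) hJ
  refine ⟨w0, fun w hw => ?_⟩
  obtain ⟨m5, havg⟩ := havg w hw
  obtain ⟨m4, hnum⟩ := numeric 2 (2 * (B0 + 2)) w (Wp w) (Wp_pos w) ε1 he0 (by linarith)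
  -- extra largeness
  obtain ⟨m6, hm6⟩ : ∃ m6 : ℕ, ∀ N : ℕ, m6 ≤ N → (Wp w : ℝ) / (κ * ρ) ≤ Real.log N ∧ 1 / ρ ≤ √(N : ℝ) := by
    have hlim : Filter.Tendsto (fun N : ℕ => Real.log (N : ℝ)) Filter.atTop Filter.atTop :=
      Real.tendsto_log_atTop.comp (tendsto_natCast_atTop_atTop (R := ℝ))
    have hlim2 : Filter.Tendsto (fun N : ℕ => √(N : ℝ)) Filter.atTop Filter.atTop :=
      Real.tendsto_sqrt_atTop.comp (tendsto_natCast_atTop_atTop (R := ℝ))
    exact Filter.eventually_atTop.1 ((hlim.eventually_ge_atTop _).and (hlim2.eventually_ge_atTop _))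
  refine ⟨max (max m1 m2) (max (max m3 m5) (max (max m4 m6) 3)), ?_⟩
  intro N hN M H t hMt htM hMH hH P R hPN hM A hA hBp hBz hcls hAR hARM hcopA hcardA E hE
  simp only [max_le_iff] at hN
  obtain ⟨⟨hm1, hm2⟩, ⟨hm3, hm5⟩, ⟨hm4, hm6'⟩, hN3⟩ := hN
  have a := hnum N hm4
  have b1 := hsup N hm1
  have b2 := hsec N hm2
  have b3 := hfir N hm3
  have b5 := havg N hm5
  obtain ⟨a7, a8⟩ := hm6 N hm6'
  clear hnum hsup hsec hfir havg hm1 hm2 hm3 hm4 hm5 hm6 hm6'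
  have htot := totient_Wp w
  have hWpos := Wp_pos w
  generalize hWd : Wp w = W at *
  have hN1 : 1 ≤ N := by omega
  have hNr : (3 : ℝ) ≤ N := by exact_mod_cast hN3
  have hN0 : (0 : ℝ) < N := by linarith
  have hW1 : (1 : ℝ) ≤ W := by exact_mod_cast hWpos
  have hWr : (0 : ℝ) < W := by linarith
  have hsN : √(N : ℝ) * √(N : ℝ) = N := Real.mul_self_sqrt hN0.le
  have hsN0 : 0 < √(N : ℝ) := Real.sqrt_pos.2 hN0
  have hsN1 : 1 ≤ √(N : ℝ) := by
    rw [Real.one_le_sqrt]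
    linarith
  generalize hLd : Real.log (N : ℝ) = L at *
  obtain ⟨hL4, hLW, hLw, a1, a2, a3, a4, a5, a6⟩ := a
  have hL0 : 0 < L := by linarith
  have hL1' : 1 ≤ L := by linarith
  -- sizes of M and B
  have hMs : √(N : ℝ) ≤ P := by
    refine le_trans ?_ hM
    rw [div_le_iff₀ hρ] at a8
    calc √(N : ℝ) ≤ (√(N : ℝ) * ρ) * √(N : ℝ) := le_mul_of_one_le_left hsN0.le a8
      _ = ρ * (√(N : ℝ) * √(N : ℝ)) := by ring
      _ = ρ * N := by rw [hsN]
  have hM0 : (0 : ℝ) < P := lt_of_lt_of_le hsN0 hMs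
  have hMN : (P : ℝ) ≤ N := by
    have : P ≤ N := hPN
    exact_mod_cast this
  have hM1 : (1 : ℝ) < P := by
    have h3 : (1 : ℝ) < √(N : ℝ) := by
      rw [Real.lt_sqrt (by norm_num)]
      linarith
    linarith
  have hlM : Real.log P ≤ L := by rw [← hLd]; exact Real.log_le_log hM0 hMN
  have hlM0 : 0 < Real.log P := Real.log_pos hM1
  have hφ0 : (0 : ℝ) < Nat.totient W := by
    rw [htot]
    exact mul_pos hWr (Vz_pos w)
  have hφW : (Nat.totient W : ℝ) ≤ W := by exact_mod_cast Nat.totient_le W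
  obtain ⟨B, hBdef⟩ : ∃ B : Finset ℕ, B = A.image (fun b => R - b) := ⟨_, rfl⟩
  have hinj : Set.InjOn (fun b => R - b) (A : Set ℕ) := by
    intro x hx y hy hxy
    have h1 := hAR x hx
    have h2 := hAR y hy
    simp only at hxy
    omega
  have hBcard : B.card = A.card := by
    rw [hBdef]
    exact card_image_of_injOn hinj
  have hcard : κ * ((P : ℝ) / (Nat.totient W * Real.log P)) ≤ B.card := by
    rw [hBcard]
    exact hcardA
  have hB : ∀ b ∈ B, b ≤ M := by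
    intro b hb
    rw [hBdef, mem_image] at hb
    obtain ⟨x, hx, rfl⟩ := hb
    exact hARM x hx
  have hcop : ∀ b ∈ B, (t - b).Coprime W := by
    intro b hb
    rw [hBdef, mem_image] at hb
    obtain ⟨x, hx, rfl⟩ := hb
    exact hcopA x hx
  rw [← hBcard, ← hBdef]
  have hBc : (N : ℝ) / L ^ 2 ≤ B.card := by
    refine le_trans ?_ hcard
    rw [← mul_div_assoc, div_le_div_iff₀ (by positivity) (by positivity)]
    have h1 : (Nat.totient W : ℝ) * Real.log P ≤ W * L := mul_le_mul hφW hlM hlM0.le hWr.le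
    have h2 : (W : ℝ) ≤ κ * ρ * L := by
      rw [div_le_iff₀ (by positivity)] at a7
      linarith
    calc (N : ℝ) * (Nat.totient W * Real.log P) ≤ N * (W * L) := mul_le_mul_of_nonneg_left h1 hN0.le
      _ ≤ N * ((κ * ρ * L) * L) := by
          apply mul_le_mul_of_nonneg_left _ hN0.le
          exact mul_le_mul_of_nonneg_right h2 hL0.le
      _ = (κ * (ρ * N)) * L ^ 2 := by ring
      _ ≤ (κ * P) * L ^ 2 := by
          apply mul_le_mul_of_nonneg_right _ (by positivity)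
          exact mul_le_mul_of_nonneg_left hM hκ.le
  have hHb : (N : ℝ) / L ^ 2 ≤ H := by
    refine le_trans ?_ hH
    rw [div_le_iff₀ (by positivity)]
    have h2 : 1 ≤ κ * ρ * L := by
      rw [div_le_iff₀ (by positivity)] at a7
      linarith
    have h3 : 1 ≤ ρ * L := by
      have : κ * ρ * L ≤ 1 * (ρ * L) := by
        rw [mul_assoc]
        exact mul_le_mul_of_nonneg_right hκ1 (by positivity)
      linarith
    have h4 : 1 ≤ ρ * L ^ 2 := by
      calc (1 : ℝ) ≤ ρ * L := h3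
        _ ≤ (ρ * L) * L := le_mul_of_one_le_right (by positivity) hL1'
        _ = _ := by ring
    calc (N : ℝ) ≤ N * (ρ * L ^ 2) := le_mul_of_one_le_right hN0.le h4
      _ = _ := by ring
  -- the level
  obtain ⟨z, hz⟩ : ∃ z : ℕ, z = ⌈L ^ (B0 + 1)⌉₊ := ⟨_, rfl⟩
  have hLB : L ≤ L ^ (B0 + 1) := by
    calc L = L ^ 1 := (pow_one L).symm
      _ ≤ L ^ (B0 + 1) := pow_le_pow_right₀ hL1' (by omega)
  have hz1 : L ^ (B0 + 1) ≤ z := by rw [hz]; exact Nat.le_ceil _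
  have hz2 : (z : ℝ) ≤ L ^ (B0 + 2) := by
    have h1 : (z : ℝ) ≤ L ^ (B0 + 1) + 1 := by
      rw [hz]
      exact (Nat.ceil_lt_add_one (by positivity)).le
    have h2 : L ^ (B0 + 2) = L ^ (B0 + 1) * L := pow_succ _ _
    have h3 : L ^ (B0 + 1) * 4 ≤ L ^ (B0 + 1) * L := mul_le_mul_of_nonneg_left hL4 (by positivity)
    rw [h2]
    linarith
  have hz0 : L ^ B0 ≤ z := (pow_le_pow_right₀ hL1' (by omega)).trans hz1
  have hz1' : 1 ≤ z := by
    have : (1 : ℝ) ≤ z := by linarith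
    exact_mod_cast this
  have hWz : W ≤ z := by
    have : (W : ℝ) ≤ z := by linarith
    exact_mod_cast this
  have hwz : w ≤ z := by
    have : (w : ℝ) ≤ z := by linarith
    exact_mod_cast this
  have hzs : (z : ℝ) ≤ √(N : ℝ) := by
    refine hz2.trans ?_
    have h1 : L ^ (B0 + 2) ≤ (2 * L ^ (2 * (B0 + 2))) * L ^ 2 := by
      have h2 : L ^ (B0 + 2) ≤ L ^ (2 * (B0 + 2)) := pow_le_pow_right₀ hL1' (by omega)
      have h3 : (1 : ℝ) ≤ L ^ 2 := one_le_pow₀ hL1'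
      have h4 : 0 ≤ L ^ (2 * (B0 + 2)) := by positivity
      have h5 : L ^ (2 * (B0 + 2)) ≤ L ^ (2 * (B0 + 2)) * L ^ 2 := le_mul_of_one_le_right h4 h3
      have h6 : (2 * L ^ (2 * (B0 + 2))) * L ^ 2 = 2 * (L ^ (2 * (B0 + 2)) * L ^ 2) := by ring
      rw [h6]
      linarith
    have h5 : ε1 * √(N : ℝ) ≤ 1 * √(N : ℝ) := mul_le_mul_of_nonneg_right (by linarith) hsN0.le
    linarith
  have hBz' : ∀ b ∈ A, z < b := by
    intro b hb
    have := hBz b hb
    have h2 : (z : ℝ) < b := by linarith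
    exact_mod_cast h2
  have b1 := b1 z hz0 hz2
  have b5 := b5 z hz2 P hPN hMs A hA hBp hBz' hcls κ hκ hcardA
  have hΓ : ∀ b ∈ B, ∑ b' ∈ B.erase b, gw w z (Nat.dist b b') ≤ B.card * (1 + ε1) := by
    intro b hb
    rw [hBdef, mem_image] at hb
    obtain ⟨x, hx, rfl⟩ := hb
    rw [hBcard, hBdef, gam_refl w z R A hAR x hx]
    exact (b5 x hx).trans (mul_le_mul_of_nonneg_left hJ2 (Nat.cast_nonneg _))
  have b2 := b2 z hz1' hz2 w hwz M H t hMt (by rw [hWd]; exact htM) B hB (1 + ε1) (by linarith) hΓ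
  have b3 := b3 z hz1' hz2 w (by rw [hWd]; exact hWz) M H t hMt hMH B hB (by rw [hWd]; exact hcop)
  rw [hWd] at b2 b3
  have hs0 := card_It_le w M H t hMt (by rw [hWd]; exact htM)
  rw [hWd] at hs0
  have hLU : 0 < L ^ 2 := by positivity
  have hLU1 : 1 ≤ L ^ 2 := one_le_pow₀ hL1'
  have hC0 : (0 : ℝ) < B.card := lt_of_lt_of_le (by positivity) hBc
  have hv1 : 1 ≤ (Vz w)⁻¹ := (one_le_inv₀ (Vz_pos w)).2 (Vz_le_one w)
  have hv0 : 0 < (Vz w)⁻¹ := inv_pos.2 (Vz_pos w)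
  have hh0 : (N : ℝ) / (W * L ^ 2) ≤ (H : ℝ) / W := by
    rw [le_div_iff₀ hWr]
    calc (N : ℝ) / (W * L ^ 2) * W = (N : ℝ) / L ^ 2 := by field_simp
      _ ≤ (H : ℝ) := hHb
  have hhpos : 0 < (H : ℝ) / W := lt_of_lt_of_le (by positivity) hh0
  have c1 := al_c1 hsN0 hsN hLU hWr he0 a4 hh0
  have c2 : 1 ≤ ε1 * ((H : ℝ) / W) := hsN1.trans c1
  have hh1 : 1 ≤ (H : ℝ) / W := by
    have : ε1 * ((H : ℝ) / W) ≤ 1 * ((H : ℝ) / W) := mul_le_mul_of_nonneg_right (by linarith) hhpos.le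
    linarith
  have c3 := al_c3 hsN1 hsN hLU he0 a5 hBc
  have hS1 : (1 - ε1) * ((Vz w)⁻¹ * B.card * ((H : ℝ) / W)) ≤ ∑ n ∈ It w M H t, cv (lamz z) B n := by
    apply al_S1 (n := (N : ℝ)) hL1' hLU hWr he0 hC0 hv1 hhpos a2 hh0
    rw [← pow_add]
    exact b3
  have hS2 := al_S2 (L := L) (X := L ^ (2 + 2)) (Q := L ^ (2 * (B0 + 2))) he0 hC0 hv1 hh1
    (show 1 ≤ 1 + ε1 by linarith) hsN0.le c1 c2
    (by positivity) a3 (by
      calc L = L ^ 1 := (pow_one L).symm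
        _ ≤ L ^ (2 + 2) := pow_le_pow_right₀ hL1' (by omega))
    (by
      calc (z : ℝ) ^ 2 ≤ (L ^ (B0 + 2)) ^ 2 := pow_le_pow_left₀ (Nat.cast_nonneg z) hz2 2
        _ = _ := by rw [← pow_mul]; congr 1; ring) (by positivity) c3 b2
  -- the variance
  set m := (Vz w)⁻¹ * (B.card : ℝ) with hm
  have hm0 : 0 < m := by positivity
  set h := (H : ℝ) / W with hh
  have hvar : ∑ n ∈ It w M H t, (cv (lamz z) B n - m) ^ 2 ≤ 10 * ε1 * (m ^ 2 * h) := by
    have e1 : ∑ n ∈ It w M H t, (cv (lamz z) B n - m) ^ 2 =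
        ∑ n ∈ It w M H t, cv (lamz z) B n ^ 2 - 2 * m * ∑ n ∈ It w M H t, cv (lamz z) B n +
          (It w M H t).card * m ^ 2 := by
      rw [mul_sum, ← nsmul_eq_mul, ← sum_const, ← sum_sub_distrib, ← sum_add_distrib]
      apply sum_congr rfl
      intro n _
      ring
    rw [e1]
    have e2 : ((It w M H t).card : ℝ) * m ^ 2 ≤ (1 + ε1) * (m ^ 2 * h) := by
      calc ((It w M H t).card : ℝ) * m ^ 2 ≤ (h + 1) * m ^ 2 := mul_le_mul_of_nonneg_right hs0 (by positivity)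
        _ ≤ ((1 + ε1) * h) * m ^ 2 := by
            apply mul_le_mul_of_nonneg_right _ (by positivity)
            linarith
        _ = _ := by ring
    have e3 : 2 * m * ((1 - ε1) * (m * h)) ≤ 2 * m * ∑ n ∈ It w M H t, cv (lamz z) B n :=
      mul_le_mul_of_nonneg_left hS1 (by positivity)
    have e4 : 2 * m * ((1 - ε1) * (m * h)) = (2 - 2 * ε1) * (m ^ 2 * h) := by ring
    have e5 : (1 + 5 * ε1) * (m ^ 2 * (1 + ε1) * h) = (1 + 5 * ε1) * (1 + ε1) * (m ^ 2 * h) := by ring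
    have e6 : (1 + 5 * ε1) * (1 + ε1) ≤ 1 + 7 * ε1 := by
      have h7 : ε1 * ε1 ≤ (1 / 16) * ε1 := mul_le_mul_of_nonneg_right he1.le he0.le
      calc (1 + 5 * ε1) * (1 + ε1) = 1 + 6 * ε1 + 5 * (ε1 * ε1) := by ring
        _ ≤ _ := by linarith
    have e7 : (1 + 5 * ε1) * (1 + ε1) * (m ^ 2 * h) ≤ (1 + 7 * ε1) * (m ^ 2 * h) :=
      mul_le_mul_of_nonneg_right e6 (by positivity)
    rw [e5] at hS2
    rw [e4] at e3
    have e8 : (1 + 7 * ε1) * (m ^ 2 * h) - (2 - 2 * ε1) * (m ^ 2 * h) + (1 + ε1) * (m ^ 2 * h) =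
        10 * ε1 * (m ^ 2 * h) := by ring
    linarith
  have hEc : (E.card : ℝ) ≤ 2 * h := by
    have h2 : (E.card : ℝ) ≤ ((It w M H t).card : ℝ) := by exact_mod_cast card_le_card hE
    linarith
  -- first part
  have hd1 : |∑ n ∈ E, cv (lamz z) B n - E.card * m| ≤ (ε / 2) * (h * m) := by
    have e1 : ∑ n ∈ E, cv (lamz z) B n - E.card * m = ∑ n ∈ E, (cv (lamz z) B n - m) := by
      rw [sum_sub_distrib, sum_const, nsmul_eq_mul]
    rw [e1]
    apply abs_le_of_sq_le_sq _ (by positivity)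
    calc (∑ n ∈ E, (cv (lamz z) B n - m)) ^ 2 ≤ E.card * ∑ n ∈ E, (cv (lamz z) B n - m) ^ 2 :=
          sq_sum_le_card_mul_sum_sq
      _ ≤ (2 * h) * (10 * ε1 * (m ^ 2 * h)) := by
          apply mul_le_mul hEc _ (sum_nonneg fun _ _ => sq_nonneg _) (by positivity)
          refine le_trans ?_ hvar
          exact sum_le_sum_of_subset_of_nonneg hE fun _ _ _ => sq_nonneg _
      _ = (20 * ε1) * (h * m) ^ 2 := by ring
      _ ≤ (ε / 2) ^ 2 * (h * m) ^ 2 := by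
          apply mul_le_mul_of_nonneg_right _ (by positivity)
          rw [hε1d]
          have : 0 ≤ ε ^ 2 := sq_nonneg ε
          linarith
      _ = _ := by ring
  -- second part
  have hEsub : E ⊆ Icc 1 N := by
    intro n hn
    have h1 := hE hn
    unfold It at h1
    rw [mem_filter, mem_Ioc] at h1
    rw [mem_Icc]
    omega
  have hl2 := l2conv (fun k => ArithmeticFunction.vonMangoldt k - lamz z k) N B
    (fun b hb => (hB b hb).trans (by omega)) (N / L ^ (2 * 2 + 2)) b1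
  have hd2 : |∑ n ∈ E, cv (fun k => ArithmeticFunction.vonMangoldt k - lamz z k) B n| ≤ (ε / 2) * (h * m) := by
    obtain ⟨T, hTd⟩ : ∃ T, T = |∑ n ∈ E, cv (fun k => ArithmeticFunction.vonMangoldt k - lamz z k) B n| := ⟨_, rfl⟩
    have hT0 : 0 ≤ T := by rw [hTd]; exact abs_nonneg _
    have hT1 : T ^ 2 ≤ E.card * ((N / L ^ (2 * 2 + 2)) ^ 2 * B.card) := by
      rw [hTd, sq_abs]
      calc (∑ n ∈ E, cv (fun k => ArithmeticFunction.vonMangoldt k - lamz z k) B n) ^ 2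
          ≤ E.card * ∑ n ∈ E, cv (fun k => ArithmeticFunction.vonMangoldt k - lamz z k) B n ^ 2 :=
            sq_sum_le_card_mul_sum_sq
        _ ≤ _ := by
            apply mul_le_mul_of_nonneg_left _ (Nat.cast_nonneg _)
            refine le_trans ?_ hl2
            exact sum_le_sum_of_subset_of_nonneg hEsub fun _ _ _ => sq_nonneg _
    have hTb := al_bad (n := (N : ℝ)) (L := L) (X := L ^ 2) (W := W) (ε := ε1) (h := h) (C := B.card)
      (D := (E.card : ℝ)) (T := T) hL1' hLU1 hWr he0 hC0 hhpos hN0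
      hT0 a1 hh0 hBc hEc (by
        have e : (L ^ 2) ^ 2 * L ^ 2 = L ^ (2 * 2 + 2) := by rw [← pow_mul, ← pow_add]
        rw [e]
        exact hT1)
    rw [← hTd]
    refine hTb.trans ?_
    have e1 : (B.card : ℝ) * h ≤ h * m := by
      rw [hm, mul_comm]
      apply mul_le_mul_of_nonneg_left _ hhpos.le
      exact le_mul_of_one_le_left hC0.le hv1
    apply mul_le_mul _ e1 (by positivity) (by positivity)
    rw [hε1d]
    linarith
  have e9 : ∑ n ∈ E, cv (fun k => ArithmeticFunction.vonMangoldt k) B n - E.card * m =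
      (∑ n ∈ E, cv (lamz z) B n - E.card * m) + ∑ n ∈ E, cv (fun k => ArithmeticFunction.vonMangoldt k - lamz z k) B n := by
    have : ∀ n ∈ E, cv (fun k => ArithmeticFunction.vonMangoldt k - lamz z k) B n =
        cv (fun k => ArithmeticFunction.vonMangoldt k) B n - cv (lamz z) B n := fun n _ => cv_sub _ _ B n
    rw [sum_congr rfl this, sum_sub_distrib]
    ring
  rw [e9]
  refine (abs_add_le _ _).trans ?_
  linarith

end Pool.Agent.K9h13.RD
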