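import Mathlib
import Pool.Agent.K9h13.RD.MixR
import Pool.Agent.TH698.J1510
import Pool.Agent.TH881.RG.Cl

/-! The bilinear estimate for reflected sets of primes. -/

set_option autoImplicit false

namespace Pool.Agent.K9h13.RD

open Finset Filter Topology
open Pool.Agent.TH881
open Pool.Agent.TH881.RG
open Pool.Agent.H373R2.T7
open Pool.Agent.TH698.RGE (split alg bad_one large sum_units)

/-- the primes in `(Q, P]` above `√N` -/
noncomputable def PQ (N Q P : ℕ) : Finset ℕ := (Ioc Q P).filter (fun p : ℕ => p.Prime ∧ √(N : ℝ) < p)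

lemma mem_PQ {N Q P p : ℕ} : p ∈ PQ N Q P ↔ (Q < p ∧ p ≤ P) ∧ p.Prime ∧ √(N : ℝ) < p := by
  unfold PQ
  rw [mem_filter, mem_Ioc]

/-- the conclusion of the mixing lemma for one window -/
def MixAtR (w N M H P R : ℕ) (κ ε₁ : ℝ) : Prop :=
  ∀ t : ℕ, M < t → t ≤ M + Wp w →
    ∀ A : Finset ℕ, (∀ b ∈ A, b ≤ P) → (∀ b ∈ A, b.Prime) → (∀ b ∈ A, √(N : ℝ) < b) →
    (∀ b ∈ A, ∀ b' ∈ A, b ≡ b' [MOD Wp w]) → (∀ b ∈ A, b ≤ R) → (∀ b ∈ A, R - b ≤ M) →
    (∀ b ∈ A, (t - (R - b)).Coprime (Wp w)) →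
    κ * ((P : ℝ) / (Nat.totient (Wp w) * Real.log P)) ≤ A.card →
    ∀ E ⊆ It w M H t,
      |∑ n ∈ E, cv (fun k => ArithmeticFunction.vonMangoldt k) (A.image (fun b => R - b)) n -
          E.card * ((Vz w)⁻¹ * A.card)| ≤
        ε₁ * (((H : ℝ) / Wp w) * ((Vz w)⁻¹ * A.card))

lemma cls_sub_It' {w M H : ℕ} {E : Finset ℕ} (hE : E ⊆ Ioc M (M + H)) {t : ZMod (Wp w)} {t' : ℕ}
    (ht : (t' : ZMod (Wp w)) = t) : cls w E t ⊆ It w M H t' := by
  intro n hn
  rw [mem_cls] at hn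
  unfold It
  rw [mem_filter]
  refine ⟨hE hn.1, ?_⟩
  rw [← ZMod.natCast_eq_natCast_iff, hn.2, ht]

/-- one pair of classes, many primes -/
lemma pair_goodR {w N M H P R : ℕ} {κ ε₁ : ℝ} (hε : 0 < ε₁) (hmix : MixAtR w N M H P R κ ε₁)
    (hH : 0 < (H : ℝ) / Wp w) (hH1 : 1 ≤ ε₁ * ((H : ℝ) / Wp w)) (hp : 0 < pp w P)
    {E : Finset ℕ} (hE : E ⊆ Ioc M (M + H)) {A : Finset ℕ}
    (hA : ∀ b ∈ A, b.Prime ∧ √(N : ℝ) < b ∧ b ≤ P ∧ b ≤ R ∧ R - b ≤ M) {a t : ZMod (Wp w)}
    (hAa : ∀ b ∈ A, ((R - b : ℕ) : ZMod (Wp w)) = a) (hta : IsUnit (t - a))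
    (h1 : κ * pp w P ≤ A.card) (h2 : (A.card : ℝ) ≤ 2 * pp w P) :
    |∑ n ∈ cls w E t, cv (fun k => ArithmeticFunction.vonMangoldt k) (A.image (fun b => R - b)) n -
      YY w P H * ((A.card : ℝ) / pp w P * eef w H E t)| ≤ 4 * ε₁ * YY w P H := by
  obtain ⟨t', ht1, ht2, ht3⟩ := exists_rep w M t
  have hm := hmix t' ht1 ht2 A (fun b hb => (hA b hb).2.2.1) (fun b hb => (hA b hb).1)
    (fun b hb => (hA b hb).2.1)
    (fun b hb b' hb' => by
      rw [← ZMod.natCast_eq_natCast_iff]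
      have e1 := hAa b hb
      have e2 := hAa b' hb'
      rw [Nat.cast_sub (hA b hb).2.2.2.1] at e1
      rw [Nat.cast_sub (hA b' hb').2.2.2.1] at e2
      have e3 := e1.trans e2.symm
      exact sub_right_inj.1 e3)
    (fun b hb => (hA b hb).2.2.2.1) (fun b hb => (hA b hb).2.2.2.2)
    (fun b hb => by
      have h3 := (hA b hb).2.2.2.2
      rw [← ZMod.isUnit_iff_coprime, Nat.cast_sub (by omega), ht3, hAa b hb]
      exact hta) h1 (cls w E t) (cls_sub_It' hE ht3)
  exact alg (Nat.cast_nonneg _) (cls_card_le w M H E hE t) (Nat.cast_nonneg _) h2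
    (inv_pos.2 (Vz_pos w)) hp hε hH hH1 rfl hm

lemma cv_mono' {B B' : Finset ℕ} (h : B ⊆ B') (n : ℕ) :
    cv (fun k => ArithmeticFunction.vonMangoldt k) B n ≤
      cv (fun k => ArithmeticFunction.vonMangoldt k) B' n := by
  unfold cv
  apply sum_le_sum_of_subset_of_nonneg
  · exact filter_subset_filter _ h
  · intro _ _ _
    exact ArithmeticFunction.vonMangoldt_nonneg

open Classical in
/-- the elements of `B` which are reflected to the class `a` -/
noncomputable def rcls (w R : ℕ) (B : Finset ℕ) (a : ZMod (Wp w)) : Finset ℕ :=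
  B.filter (fun b => ((R - b : ℕ) : ZMod (Wp w)) = a)

lemma mem_rcls {w R : ℕ} {B : Finset ℕ} {a : ZMod (Wp w)} {b : ℕ} :
    b ∈ rcls w R B a ↔ b ∈ B ∧ ((R - b : ℕ) : ZMod (Wp w)) = a := by
  unfold rcls
  rw [mem_filter]

lemma rcls_image (w R : ℕ) (B : Finset ℕ) (a : ZMod (Wp w)) :
    cls w (B.image (fun b => R - b)) a = (rcls w R B a).image (fun b => R - b) := by
  classical
  ext n
  rw [mem_cls, mem_image, mem_image]
  constructor
  · rintro ⟨⟨b, hb, rfl⟩, h⟩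
    exact ⟨b, mem_rcls.2 ⟨hb, h⟩, rfl⟩
  · rintro ⟨b, hb, rfl⟩
    rw [mem_rcls] at hb
    exact ⟨⟨b, hb.1, rfl⟩, hb.2⟩

lemma rcls_eq (w R : ℕ) (B : Finset ℕ) (hR : Wp w ∣ R) (hB : ∀ b ∈ B, b ≤ R) (a : ZMod (Wp w)) :
    rcls w R B a = cls w B (-a) := by
  ext b
  rw [mem_rcls, mem_cls]
  constructor
  · rintro ⟨h1, h2⟩
    refine ⟨h1, ?_⟩
    rw [Nat.cast_sub (hB b h1), (ZMod.natCast_eq_zero_iff R (Wp w)).2 hR, zero_sub] at h2
    rw [← h2, neg_neg]
  · rintro ⟨h1, h2⟩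
    refine ⟨h1, ?_⟩
    rw [Nat.cast_sub (hB b h1), (ZMod.natCast_eq_zero_iff R (Wp w)).2 hR, zero_sub, h2, neg_neg]

lemma card_image_refl (R : ℕ) (B : Finset ℕ) (hB : ∀ b ∈ B, b ≤ R) : (B.image (fun b => R - b)).card = B.card := by
  apply card_image_of_injOn
  intro x hx y hy hxy
  have h1 := hB x hx
  have h2 := hB y hy
  simp only at hxy
  omega

/-- one pair of classes -/
lemma pair_allR {w N M H P Q R : ℕ} {κ ε₁ c : ℝ} (hκ : 0 < κ) (hκc : 2 * κ ≤ c) (hκ1 : κ ≤ 1 / 4) (hε : 0 < ε₁)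
    (hmix : MixAtR w N M H P R κ ε₁)
    (hH : 0 < (H : ℝ) / Wp w) (hH1 : 1 ≤ ε₁ * ((H : ℝ) / Wp w)) (hp : 0 < pp w P)
    (hp1 : 1 ≤ κ * pp w P) (hPR : P ≤ R) (hRM : R ≤ M + Q + 1)
    {E : Finset ℕ} (hE : E ⊆ Ioc M (M + H)) {B : Finset ℕ}
    (hB : B ⊆ PQ N Q P) {a t : ZMod (Wp w)} (hta : IsUnit (t - a))
    (hc1 : c * pp w P ≤ (rcls w R (PQ N Q P) a).card) (hc2 : ((rcls w R (PQ N Q P) a).card : ℝ) ≤ 2 * pp w P) :
    |∑ n ∈ cls w E t, cv (fun k => ArithmeticFunction.vonMangoldt k) ((rcls w R B a).image (fun b => R - b)) n -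
      YY w P H * (((rcls w R B a).card : ℝ) / pp w P * eef w H E t)| ≤ (2 * κ + 4 * ε₁) * YY w P H := by
  classical
  have hY : 0 < YY w P H := by
    unfold YY
    have := inv_pos.2 (Vz_pos w)
    positivity
  have he0 := eef_nonneg w H E t
  have he1 := eef_le_one w M H E hE t
  set F := rcls w R (PQ N Q P) a with hF
  have hFmem : ∀ b ∈ F, b.Prime ∧ √(N : ℝ) < b ∧ b ≤ P ∧ b ≤ R ∧ R - b ≤ M := by
    intro b hb
    rw [hF, mem_rcls, mem_PQ] at hb
    exact ⟨hb.1.2.1, hb.1.2.2, hb.1.1.2, hb.1.1.2.trans hPR, by omega⟩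
  have hFa : ∀ b ∈ F, ((R - b : ℕ) : ZMod (Wp w)) = a := fun b hb => (mem_rcls.1 hb).2
  have hBF : rcls w R B a ⊆ F := by
    intro b hb
    rw [mem_rcls] at hb
    rw [hF, mem_rcls]
    exact ⟨hB hb.1, hb.2⟩
  have hb2 : ((rcls w R B a).card : ℝ) ≤ 2 * pp w P :=
    le_trans (by exact_mod_cast card_le_card hBF) hc2
  rcases le_or_gt (κ * pp w P) ((rcls w R B a).card : ℝ) with hcase | hcase
  · refine (pair_goodR hε hmix hH hH1 hp hE (fun b hb => hFmem b (hBF hb)) (fun b hb => hFa b (hBF hb)) hta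
      hcase hb2).trans ?_
    apply mul_le_mul_of_nonneg_right _ hY.le
    linarith
  · -- enlarge
    have hd1 : (rcls w R B a).card ≤ ⌈κ * pp w P⌉₊ := by
      have : ((rcls w R B a).card : ℝ) ≤ (⌈κ * pp w P⌉₊ : ℝ) := hcase.le.trans (Nat.le_ceil _)
      exact_mod_cast this
    have hd2 : (⌈κ * pp w P⌉₊ : ℝ) ≤ 2 * (κ * pp w P) := by
      have := Nat.ceil_lt_add_one (show 0 ≤ κ * pp w P by positivity)
      linarith
    have hd3 : ⌈κ * pp w P⌉₊ ≤ F.card := by
      have h1 : (⌈κ * pp w P⌉₊ : ℝ) ≤ F.card := by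
        refine hd2.trans (le_trans ?_ hc1)
        linarith only [mul_le_mul_of_nonneg_right hκc hp.le]
      exact_mod_cast h1
    obtain ⟨B', hB1, hB2, hB3⟩ := Finset.exists_subsuperset_card_eq hBF hd1 hd3
    have hB'2 : (B'.card : ℝ) ≤ 2 * (κ * pp w P) := by rw [hB3]; exact hd2
    have hg := pair_goodR hε hmix hH hH1 hp hE (A := B') (a := a) (t := t)
      (fun b hb => hFmem b (hB2 hb)) (fun b hb => hFa b (hB2 hb)) hta
      (by rw [hB3]; exact Nat.le_ceil _) (hB'2.trans (by linarith only [mul_le_mul_of_nonneg_right hκ1 hp.le, hp]))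
    rw [abs_le] at hg
    set S' := ∑ n ∈ cls w E t, cv (fun k => ArithmeticFunction.vonMangoldt k) (B'.image (fun b => R - b)) n with hS'
    set S := ∑ n ∈ cls w E t, cv (fun k => ArithmeticFunction.vonMangoldt k)
      ((rcls w R B a).image (fun b => R - b)) n with hS
    have hS0 : 0 ≤ S := sum_nonneg fun n _ => cv_nonneg _ (fun _ => ArithmeticFunction.vonMangoldt_nonneg) _ _
    have hSS : S ≤ S' := sum_le_sum fun n _ => cv_mono' (image_subset_image hB1) n
    have hq : (B'.card : ℝ) / pp w P * eef w H E t ≤ 2 * κ := by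
      have h1 : (B'.card : ℝ) / pp w P ≤ 2 * κ := by
        rw [div_le_iff₀ hp]
        linarith
      calc (B'.card : ℝ) / pp w P * eef w H E t ≤ 2 * κ * 1 :=
            mul_le_mul h1 he1 he0 (by positivity)
        _ = 2 * κ := mul_one _
    have hm1 : YY w P H * ((B'.card : ℝ) / pp w P * eef w H E t) ≤ 2 * κ * YY w P H := by
      rw [mul_comm]
      exact mul_le_mul_of_nonneg_right hq hY.le
    have hbb : ((rcls w R B a).card : ℝ) / pp w P ≤ κ := by
      rw [div_le_iff₀ hp]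
      exact hcase.le
    have hbb0 : 0 ≤ ((rcls w R B a).card : ℝ) / pp w P := by
      positivity
    have hm2 : YY w P H * (((rcls w R B a).card : ℝ) / pp w P * eef w H E t) ≤ κ * YY w P H := by
      rw [mul_comm]
      apply mul_le_mul_of_nonneg_right _ hY.le
      calc ((rcls w R B a).card : ℝ) / pp w P * eef w H E t ≤ κ * 1 := mul_le_mul hbb he1 he0 hκ.le
        _ = κ := mul_one _
    have hm3 : 0 ≤ YY w P H * (((rcls w R B a).card : ℝ) / pp w P * eef w H E t) := by positivity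
    have hκY : 0 ≤ κ * YY w P H := by positivity
    have hεY : 0 ≤ ε₁ * YY w P H := by positivity
    rw [abs_le]
    constructor
    · linarith
    · linarith [hg.2]

/-- **the bilinear estimate for reflected sets of primes** -/
theorem bilR (ε ρ c : ℝ) (hε : 0 < ε) (hρ : 0 < ρ) (hc : 0 < c) : ∃ w0 : ℕ, ∀ w : ℕ, w0 ≤ w →
    ∃ N0 : ℕ, ∀ N : ℕ, N0 ≤ N → ∀ M H : ℕ, M + H ≤ N → ρ * N ≤ H →
    ∀ P Q R : ℕ, P + H ≤ N → ρ * N ≤ P → Wp w ∣ R → P ≤ R → R ≤ M + Q + 1 →
    (∀ a : ZMod (Wp w), IsUnit a → c * pp w P ≤ (cls w (PQ N Q P) a).card ∧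
      ((cls w (PQ N Q P) a).card : ℝ) ≤ 2 * pp w P) →
    ∀ E ⊆ Ioc M (M + H), ∀ B ⊆ PQ N Q P,
    |∑ n ∈ E, cv (fun k => ArithmeticFunction.vonMangoldt k) (B.image (fun b => R - b)) n -
        YY w P H * ∑ a ∈ UU w, bbf w P (B.image (fun b => R - b)) a * rr w (eef w H E) a| ≤
      ε * (YY w P H * (Nat.totient (Wp w) : ℝ) ^ 2) := by
  classical
  obtain ⟨κ, hκd⟩ : ∃ κ : ℝ, κ = min (min (1 / 4) (c / 2)) (ε / 16) := ⟨_, rfl⟩
  have hκ : 0 < κ := by rw [hκd]; positivity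
  have hκ1 : κ ≤ 1 / 4 := by rw [hκd]; exact (min_le_left _ _).trans (min_le_left _ _)
  have hκ2 : κ ≤ ε / 16 := by rw [hκd]; exact min_le_right _ _
  have hκc : κ ≤ c / 2 := by rw [hκd]; exact (min_le_left _ _).trans (min_le_right _ _)
  obtain ⟨w0, hw0⟩ := mixR κ κ ρ hκ (by linarith) hκ (by linarith) hρ
  refine ⟨w0, fun w hw => ?_⟩
  obtain ⟨N1, hN1⟩ := hw0 w hw
  have hWr : (0 : ℝ) < Wp w := by exact_mod_cast Wp_pos w
  have hφ := totient_Wp_pos w
  obtain ⟨N3, hN3⟩ := large w (Wp w) (Nat.totient (Wp w)) κ κ ρ (ε / 2) hWr hφ hκ hκ hρ (by positivity)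
  refine ⟨max N1 N3, fun N hN M H hMH hH P Q R hPH hP hWR hPR hRM hcount E hE B hB => ?_⟩
  simp only [max_le_iff] at hN
  obtain ⟨l1, l2, l3, l4, l5, l6, l7⟩ := hN3 N hN.2 P H hPH hH hP
  have hmix : MixAtR w N M H P R κ κ := fun t h1 h2 A a1 a2 a3 a4 a5 a6 a7 a8 E' a9 =>
    hN1 N hN.1 M H t h1 h2 hMH hH P R (by omega) hP A a1 a2 a3 a4 a5 a6 a7 a8 E' a9
  have hp : 0 < pp w P := l3
  have hY : 0 < YY w P H := by
    unfold YY
    have := inv_pos.2 (Vz_pos w)
    positivity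
  have hBP : ∀ b ∈ B, b.Prime ∧ √(N : ℝ) < b ∧ b ≤ P ∧ Q < b := by
    intro b hb
    have := mem_PQ.1 (hB hb)
    exact ⟨this.2.1, this.2.2, this.1.2, this.1.1⟩
  have hBR : ∀ b ∈ B, b ≤ R := fun b hb => (hBP b hb).2.2.1.trans hPR
  set B' := B.image (fun b => R - b) with hB'
  have hB'M : ∀ x ∈ B', x ≤ M := by
    intro x hx
    rw [hB', mem_image] at hx
    obtain ⟨b, hb, rfl⟩ := hx
    have := (hBP b hb).2.2.2
    omega
  -- units
  have hBu : ∀ x ∈ B', IsUnit (x : ZMod (Wp w)) := by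
    intro x hx
    rw [hB', mem_image] at hx
    obtain ⟨b, hb, rfl⟩ := hx
    obtain ⟨h1, h2, _⟩ := hBP b hb
    rw [Nat.cast_sub (hBR b hb), (ZMod.natCast_eq_zero_iff R (Wp w)).2 hWR, zero_sub, IsUnit.neg_iff,
      ZMod.isUnit_iff_coprime, Nat.Prime.coprime_iff_not_dvd h1, prime_dvd_Wp h1]
    intro h3
    have h4 : (b : ℝ) ≤ w := by exact_mod_cast h3
    linarith
  have hEN : ∀ n ∈ E, M < n ∧ n ≤ N := by
    intro n hn
    have := mem_Ioc.1 (hE hn)
    omega
  have hlt : ∀ n ∈ E, ∀ b ∈ B', b < n := fun n hn b hb =>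
    lt_of_le_of_lt (hB'M b hb) (hEN n hn).1
  -- the sum over the pairs of classes
  set T : ZMod (Wp w) → ZMod (Wp w) → ℝ := fun a t =>
    ∑ n ∈ cls w E t, cv (fun k => ArithmeticFunction.vonMangoldt k) (cls w B' a) n with hT
  have hcv : ∀ B' : Finset ℕ, ∀ n : ℕ, cv (fun k => ArithmeticFunction.vonMangoldt k) B' n =
      ∑ b ∈ B', if b < n then ArithmeticFunction.vonMangoldt (n - b) else 0 := by
    intro B' n
    unfold cv
    rw [sum_filter]
  have hS : ∑ n ∈ E, cv (fun k => ArithmeticFunction.vonMangoldt k) B' n =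
      ∑ a ∈ UU w, ∑ t : ZMod (Wp w), T a t := by
    rw [sum_congr rfl fun n _ => hcv B' n, split w E B' hBu]
    refine sum_congr rfl fun a _ => sum_congr rfl fun t _ => ?_
    rw [hT]
    exact sum_congr rfl fun n _ => (hcv _ n).symm
  have hmain : YY w P H * ∑ a ∈ UU w, bbf w P B' a * rr w (eef w H E) a =
      ∑ a ∈ UU w, ∑ t : ZMod (Wp w), (if IsUnit (t - a) then
        YY w P H * (bbf w P B' a * eef w H E t) else 0) := by
    rw [mul_sum]
    refine sum_congr rfl fun a _ => ?_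
    unfold rr
    rw [mul_sum, mul_sum]
    refine sum_congr rfl fun t _ => ?_
    by_cases h : IsUnit (t - a)
    · rw [if_pos h, if_pos h]
    · rw [if_neg h, if_neg h, mul_zero, mul_zero]
  have hT0 : ∀ a t, 0 ≤ T a t := fun a t =>
    sum_nonneg fun n _ => cv_nonneg _ (fun _ => ArithmeticFunction.vonMangoldt_nonneg) _ _
  -- the pairs with `t - a` not a unit
  have hbad : ∑ a ∈ UU w, ∑ t : ZMod (Wp w), (if IsUnit (t - a) then 0 else T a t) ≤
      (H : ℝ) * ((w * Nat.log 2 N : ℝ) * Real.log w) := by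
    have h1 : ∑ a ∈ UU w, ∑ t : ZMod (Wp w), (if IsUnit (t - a) then 0 else T a t) =
        ∑ n ∈ E, ∑ b ∈ B', (if b < n ∧ ¬ (n - b).Coprime (Wp w) then
          ArithmeticFunction.vonMangoldt (n - b) else 0) := by
      rw [split w E B' hBu]
      refine sum_congr rfl fun a _ => sum_congr rfl fun t _ => ?_
      have hiff : ∀ n ∈ cls w E t, ∀ b ∈ cls w B' a, ((n - b).Coprime (Wp w) ↔ IsUnit (t - a)) := by
        intro n hn b hb
        rw [mem_cls] at hn hb
        have := hlt n hn.1 b hb.1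
        rw [← ZMod.isUnit_iff_coprime, Nat.cast_sub this.le, hn.2, hb.2]
      by_cases h : IsUnit (t - a)
      · rw [if_pos h]
        symm
        refine sum_eq_zero fun n hn => sum_eq_zero fun b hb => ?_
        rw [if_neg]
        rintro ⟨_, h3⟩
        exact h3 ((hiff n hn b hb).2 h)
      · rw [if_neg h, hT]
        refine sum_congr rfl fun n hn => ?_
        rw [hcv]
        refine sum_congr rfl fun b hb => ?_
        have h2 : ¬ (n - b).Coprime (Wp w) := fun h3 => h ((hiff n hn b hb).1 h3)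
        by_cases h3 : b < n
        · rw [if_pos h3, if_pos ⟨h3, h2⟩]
        · rw [if_neg h3, if_neg (fun h4 => h3 h4.1)]
    rw [h1]
    calc _ ≤ ∑ _n ∈ E, (w * Nat.log 2 N : ℝ) * Real.log w :=
          sum_le_sum fun n hn => bad_one w N n (hEN n hn).2 B'
      _ = E.card * ((w * Nat.log 2 N : ℝ) * Real.log w) := by rw [sum_const, nsmul_eq_mul]
      _ ≤ _ := by
          have hcard : E.card ≤ H := by
            have := card_le_card hE
            rw [Nat.card_Ioc] at this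
            omega
          have h5 := Real.log_natCast_nonneg w
          apply mul_le_mul_of_nonneg_right _ (by positivity)
          exact_mod_cast hcard
  -- `YY φ² = H P / log P`
  have hYφ : YY w P H * (Nat.totient (Wp w) : ℝ) ^ 2 = H * ((P : ℝ) / Real.log P) := by
    rw [YY_phi, mul_div_assoc]
  rw [hS, hmain, ← sum_sub_distrib]
  calc |∑ a ∈ UU w, (∑ t : ZMod (Wp w), T a t - ∑ t : ZMod (Wp w), (if IsUnit (t - a) then
        YY w P H * (bbf w P B' a * eef w H E t) else 0))|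
      ≤ ∑ a ∈ UU w, ∑ t : ZMod (Wp w), ((if IsUnit (t - a) then (ε / 2) * YY w P H else 0) +
          (if IsUnit (t - a) then 0 else T a t)) := by
        refine (abs_sum_le_sum_abs _ _).trans (sum_le_sum fun a ha => ?_)
        rw [← sum_sub_distrib]
        refine (abs_sum_le_sum_abs _ _).trans (sum_le_sum fun t _ => ?_)
        by_cases h : IsUnit (t - a)
        · rw [if_pos h, if_pos h, if_pos h, add_zero]
          have hrF : rcls w R (PQ N Q P) a = cls w (PQ N Q P) (-a) := rcls_eq w R _ hWR (fun b hb => by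
            have := (mem_PQ.1 hb).1.2
            omega) a
          have hcnt := hcount (-a) ((IsUnit.neg_iff a).2 (mem_UU.1 ha))
          rw [← hrF] at hcnt
          have h1 := pair_allR hκ (by linarith) hκ1 hκ hmix l1 l2 hp l4 hPR hRM hE hB h hcnt.1 hcnt.2
          have h2 : T a t = ∑ n ∈ cls w E t, cv (fun k => ArithmeticFunction.vonMangoldt k)
              ((rcls w R B a).image (fun b => R - b)) n := by
            rw [hT, hB']
            simp only
            rw [rcls_image]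
          have h3 : bbf w P B' a = ((rcls w R B a).card : ℝ) / pp w P := by
            unfold bbf
            rw [hB', rcls_image, card_image_refl]
            intro b hb
            exact hBR b (mem_rcls.1 hb).1
          rw [h2, h3]
          refine h1.trans ?_
          apply mul_le_mul_of_nonneg_right _ hY.le
          linarith
        · rw [if_neg h, if_neg h, if_neg h, zero_add, sub_zero, abs_of_nonneg (hT0 a t)]
    _ = ∑ a ∈ UU w, ∑ t : ZMod (Wp w), (if IsUnit (t - a) then (ε / 2) * YY w P H else 0) +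
          ∑ a ∈ UU w, ∑ t : ZMod (Wp w), (if IsUnit (t - a) then 0 else T a t) := by
        rw [← sum_add_distrib]
        exact sum_congr rfl fun a _ => sum_add_distrib
    _ ≤ (ε / 2) * (YY w P H * (Nat.totient (Wp w) : ℝ) ^ 2) +
          (ε / 2) * (YY w P H * (Nat.totient (Wp w) : ℝ) ^ 2) := by
        refine add_le_add (le_of_eq ?_) (hbad.trans ?_)
        · rw [sum_congr rfl fun a _ => sum_units w a ((ε / 2) * YY w P H), sum_const, nsmul_eq_mul,
            card_UU]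
          ring
        · rw [hYφ]
          calc (H : ℝ) * ((w * Nat.log 2 N : ℝ) * Real.log w) ≤ H * (ε / 2 * (P / Real.log P)) :=
                mul_le_mul_of_nonneg_left l5 (Nat.cast_nonneg _)
            _ = _ := by ring
    _ = ε * (YY w P H * (Nat.totient (Wp w) : ℝ) ^ 2) := by ring

end Pool.Agent.K9h13.RD
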