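import Mathlib
import Pool.Agent.K9h13.RD.BilR
import Pool.Agent.TH881.RG.R3

/-! The bilinear estimates for differences. -/

set_option autoImplicit false

namespace Pool.Agent.K9h13.RD

open Finset Filter Topology
open Pool.Agent.TH881
open Pool.Agent.TH881.RG
open Pool.Agent.H373R2.T7

/-- `∑ Λ(h + b)` -/
noncomputable def D1 (E B : Finset ℕ) : ℝ := ∑ h ∈ E, ∑ b ∈ B, ArithmeticFunction.vonMangoldt (h + b)

/-- `∑ Λ(b - h)` -/
noncomputable def D2 (E B : Finset ℕ) : ℝ := ∑ h ∈ E, ∑ b ∈ B, ArithmeticFunction.vonMangoldt (b - h)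

/-- a multiple of `Wp w` -/
lemma exists_R (w P : ℕ) : ∃ R : ℕ, Wp w ∣ R ∧ P ≤ R ∧ R ≤ P + Wp w := by
  have hW := Wp_pos w
  refine ⟨Wp w * (P / Wp w + 1), dvd_mul_right _ _, ?_, ?_⟩
  · have := Nat.div_add_mod P (Wp w)
    have h2 := Nat.mod_lt P hW
    rw [mul_add, mul_one]
    omega
  · have := Nat.div_add_mod P (Wp w)
    rw [mul_add, mul_one]
    omega

lemma UU_neg {w : ℕ} {a : ZMod (Wp w)} : -a ∈ UU w ↔ a ∈ UU w := by
  rw [mem_UU, mem_UU, IsUnit.neg_iff]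

lemma sum_UU_neg (w : ℕ) (f : ZMod (Wp w) → ℝ) : ∑ a ∈ UU w, f (-a) = ∑ a ∈ UU w, f a := by
  apply sum_bij (fun a _ => -a)
  · intro a ha
    exact UU_neg.2 ha
  · intro a _ b _ h
    exact neg_injective h
  · intro b hb
    exact ⟨-b, UU_neg.2 hb, neg_neg b⟩
  · intro a _
    rfl

lemma bbf_refl (w P R : ℕ) (B : Finset ℕ) (hR : Wp w ∣ R) (hB : ∀ b ∈ B, b ≤ R) (a : ZMod (Wp w)) :
    bbf w P (B.image (fun b => R - b)) a = bbf w P B (-a) := by
  unfold bbf
  rw [rcls_image, card_image_refl, rcls_eq w R B hR hB]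
  intro b hb
  exact hB b (mem_rcls.1 hb).1

lemma eef_refl (w H R : ℕ) (B : Finset ℕ) (hR : Wp w ∣ R) (hB : ∀ b ∈ B, b ≤ R) (a : ZMod (Wp w)) :
    eef w H (B.image (fun b => R - b)) a = eef w H B (-a) := by
  unfold eef
  rw [rcls_image, card_image_refl, rcls_eq w R B hR hB]
  intro b hb
  exact hB b (mem_rcls.1 hb).1

lemma eef_shift (w H R : ℕ) (E : Finset ℕ) (hR : Wp w ∣ R) (a : ZMod (Wp w)) :
    eef w H (E.image (fun n => n + R)) a = eef w H E a := by
  classical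
  unfold eef
  congr 2
  have h1 : cls w (E.image (fun n => n + R)) a = (cls w E a).image (fun n => n + R) := by
    ext n
    rw [mem_cls, mem_image, mem_image]
    constructor
    · rintro ⟨⟨b, hb, rfl⟩, h⟩
      refine ⟨b, mem_cls.2 ⟨hb, ?_⟩, rfl⟩
      rwa [Nat.cast_add, (ZMod.natCast_eq_zero_iff R (Wp w)).2 hR, add_zero] at h
    · rintro ⟨b, hb, rfl⟩
      rw [mem_cls] at hb
      refine ⟨⟨b, hb.1, rfl⟩, ?_⟩
      rw [Nat.cast_add, (ZMod.natCast_eq_zero_iff R (Wp w)).2 hR, add_zero]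
      exact hb.2
  rw [h1, card_image_of_injective]
  exact add_left_injective R

lemma rr_refl (w : ℕ) (e : ZMod (Wp w) → ℝ) (a : ZMod (Wp w)) : rr w (fun t => e (-t)) a = rr w e (-a) := by
  classical
  unfold rr
  apply Fintype.sum_equiv (Equiv.neg _)
  intro t
  show (if IsUnit (t - a) then e (-t) else 0) = if IsUnit (-t - -a) then e (-t) else 0
  have h1 : -t - -a = -(t - a) := by ring
  rw [h1]
  by_cases h : IsUnit (t - a)
  · rw [if_pos h, if_pos ((IsUnit.neg_iff _).2 h)]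
  · rw [if_neg h, if_neg (fun h' => h ((IsUnit.neg_iff _).1 h'))]

/-- class counts of all primes up to `P` -/
lemma count_all (w : ℕ) (ρ : ℝ) (hρ : 0 < ρ) (ε : ℝ) (hε : 0 < ε) : ∃ N0 : ℕ, ∀ N : ℕ, N0 ≤ N → ∀ P : ℕ, P ≤ N → ρ * N ≤ P →
    ∀ a : ZMod (Wp w), IsUnit a → (1 - ε) * pp w P ≤ (cls w (PQ N 0 P) a).card ∧
      ((cls w (PQ N 0 P) a).card : ℝ) ≤ (1 + ε) * pp w P := by
  obtain ⟨N0, h0⟩ := stPC w ε ρ hε hρ
  obtain ⟨N1, hN1⟩ := exists_nat_ge (2 / ρ)
  refine ⟨N0 + N1, fun N hN P hP hP2 a ha => ?_⟩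
  have h1 := h0 N (by omega) P hP hP2 a ha
  have h2 : (Icc 1 P).filter (fun p : ℕ => p.Prime ∧ √(N : ℝ) < p) = PQ N 0 P := by
    ext p
    rw [mem_PQ, mem_filter, mem_Icc]
    constructor
    · rintro ⟨h1, h2⟩
      exact ⟨⟨by omega, h1.2⟩, h2⟩
    · rintro ⟨h1, h2⟩
      exact ⟨⟨by omega, h1.2⟩, h2⟩
  rw [h2] at h1
  unfold bbf at h1
  have hP3 : 2 ≤ P := by
    have h3 : (N1 : ℝ) ≤ N := by exact_mod_cast (by omega : N1 ≤ N)
    have h4 := hN1.trans h3
    rw [div_le_iff₀ hρ] at h4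
    have h5 : ((2 : ℕ) : ℝ) ≤ P := by push_cast; linarith
    exact_mod_cast h5
  have hpp := pp_pos w P hP3
  rw [abs_le] at h1
  constructor
  · have h3 : 1 - ε ≤ ((cls w (PQ N 0 P) a).card : ℝ) / pp w P := by linarith [h1.1]
    rwa [le_div_iff₀ hpp] at h3
  · have h3 : ((cls w (PQ N 0 P) a).card : ℝ) / pp w P ≤ 1 + ε := by linarith [h1.2]
    rwa [div_le_iff₀ hpp] at h3

/-- the first bilinear estimate -/
theorem bil1 (ε ρ : ℝ) (hε : 0 < ε) (hρ : 0 < ρ) : ∃ w0 : ℕ, ∀ w : ℕ, w0 ≤ w →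
    ∃ N0 : ℕ, ∀ N : ℕ, N0 ≤ N → ∀ M H P : ℕ, M + P + H + Wp w ≤ N → ρ * N ≤ H → ρ * N ≤ P →
    ∀ E ⊆ Ioc M (M + H), ∀ B ⊆ PQ N 0 P,
    |D1 E B - YY w P H * ∑ a ∈ UU w, bbf w P B a * rr w (eef w H E) (-a)| ≤
      ε * (YY w P H * (Nat.totient (Wp w) : ℝ) ^ 2) := by
  classical
  obtain ⟨w0, hw0⟩ := bilR ε ρ (1 / 2) hε hρ (by norm_num)
  refine ⟨w0, fun w hw => ?_⟩
  obtain ⟨N1, hN1⟩ := hw0 w hw
  obtain ⟨N2, hN2⟩ := count_all w ρ hρ (1 / 2) (by norm_num)
  refine ⟨N1 + N2, fun N hN M H P hsum hH hP E hE B hB => ?_⟩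
  obtain ⟨R, hR1, hR2, hR3⟩ := exists_R w P
  have hE' : E.image (fun n => n + R) ⊆ Ioc (M + R) (M + R + H) := by
    intro n hn
    rw [mem_image] at hn
    obtain ⟨x, hx, rfl⟩ := hn
    have := mem_Ioc.1 (hE hx)
    rw [mem_Ioc]
    omega
  have hBR : ∀ b ∈ B, b ≤ R := fun b hb => ((mem_PQ.1 (hB hb)).1.2).trans hR2
  have h1 := hN1 N (by omega) (M + R) H (by omega) hH P 0 R (by omega) hP hR1 hR2 (by omega)
    (fun a ha => by
      have := hN2 N (by omega) P (by omega) hP a ha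
      constructor
      · have h3 := this.1
        norm_num at h3 ⊢
        linarith
      · have h3 := this.2
        have h4 := pp_nonneg w P
        linarith) _ hE' B hB
  have e1 : ∑ n ∈ E.image (fun n => n + R), cv (fun k => ArithmeticFunction.vonMangoldt k)
      (B.image (fun b => R - b)) n = D1 E B := by
    unfold D1
    rw [sum_image (fun x _ y _ hxy => Nat.add_right_cancel hxy)]
    apply sum_congr rfl
    intro h hh
    have hh1 := mem_Ioc.1 (hE hh)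
    unfold cv
    rw [filter_true_of_mem, sum_image]
    · apply sum_congr rfl
      intro b hb
      have := hBR b hb
      have h5 : h + R - (R - b) = h + b := by omega
      rw [h5]
    · intro x hx y hy hxy
      have a1 := hBR x hx
      have a2 := hBR y hy
      simp only at hxy
      omega
    · intro x hx
      rw [mem_image] at hx
      obtain ⟨b, hb, rfl⟩ := hx
      omega
  have e2 : ∑ a ∈ UU w, bbf w P (B.image (fun b => R - b)) a * rr w (eef w H (E.image (fun n => n + R))) a =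
      ∑ a ∈ UU w, bbf w P B a * rr w (eef w H E) (-a) := by
    rw [← sum_UU_neg w (fun a => bbf w P B a * rr w (eef w H E) (-a))]
    apply sum_congr rfl
    intro a _
    rw [bbf_refl w P R B hR1 hBR, neg_neg]
    congr 2
    funext t
    exact eef_shift w H R E hR1 t
  rw [e1, e2] at h1
  exact h1

/-- the second bilinear estimate -/
theorem bil2 (ε ρ c : ℝ) (hε : 0 < ε) (hρ : 0 < ρ) (hc : 0 < c) : ∃ w0 : ℕ, ∀ w : ℕ, w0 ≤ w →
    ∃ N0 : ℕ, ∀ N : ℕ, N0 ≤ N → ∀ M H P Q : ℕ, P + H + Wp w ≤ N → ρ * N ≤ H → ρ * N ≤ P → M + H ≤ Q → Q < P →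
    (∀ a : ZMod (Wp w), IsUnit a → c * pp w P ≤ (cls w (PQ N Q P) a).card ∧
      ((cls w (PQ N Q P) a).card : ℝ) ≤ 2 * pp w P) →
    ∀ E ⊆ Ioc M (M + H), ∀ B ⊆ PQ N Q P,
    |D2 E B - YY w P H * ∑ a ∈ UU w, bbf w P B a * rr w (eef w H E) a| ≤
      ε * (YY w P H * (Nat.totient (Wp w) : ℝ) ^ 2) := by
  classical
  obtain ⟨w0, hw0⟩ := bilR ε ρ c hε hρ hc
  refine ⟨w0, fun w hw => ?_⟩
  obtain ⟨N1, hN1⟩ := hw0 w hw
  refine ⟨N1, fun N hN M H P Q hsum hH hP hQ hQP hcount E hE B hB => ?_⟩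
  obtain ⟨R, hR1, hR2, hR3⟩ := exists_R w P
  have hER : ∀ h ∈ E, h ≤ R := by
    intro h hh
    have := mem_Ioc.1 (hE hh)
    omega
  have hE' : E.image (fun n => R - n) ⊆ Ioc (R - (M + H + 1)) (R - (M + H + 1) + H) := by
    intro n hn
    rw [mem_image] at hn
    obtain ⟨x, hx, rfl⟩ := hn
    have := mem_Ioc.1 (hE hx)
    rw [mem_Ioc]
    omega
  have hBR : ∀ b ∈ B, b ≤ R := fun b hb => ((mem_PQ.1 (hB hb)).1.2).trans hR2
  have h1 := hN1 N (by omega) (R - (M + H + 1)) H (by omega) hH P Q R (by omega) hP hR1 hR2 (by omega)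
    hcount _ hE' B hB
  have e1 : ∑ n ∈ E.image (fun n => R - n), cv (fun k => ArithmeticFunction.vonMangoldt k)
      (B.image (fun b => R - b)) n = D2 E B := by
    unfold D2
    rw [sum_image (fun x hx y hy (hxy : R - x = R - y) => by
      have a1 := hER x hx
      have a2 := hER y hy
      omega)]
    apply sum_congr rfl
    intro h hh
    have hh1 := mem_Ioc.1 (hE hh)
    unfold cv
    rw [filter_true_of_mem, sum_image]
    · apply sum_congr rfl
      intro b hb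
      have := hBR b hb
      have h5 : R - h - (R - b) = b - h := by omega
      rw [h5]
    · intro x hx y hy hxy
      have a1 := hBR x hx
      have a2 := hBR y hy
      simp only at hxy
      omega
    · intro x hx
      rw [mem_image] at hx
      obtain ⟨b, hb, rfl⟩ := hx
      have := (mem_PQ.1 (hB hb)).1
      omega
  have e2 : ∑ a ∈ UU w, bbf w P (B.image (fun b => R - b)) a * rr w (eef w H (E.image (fun n => R - n))) a =
      ∑ a ∈ UU w, bbf w P B a * rr w (eef w H E) a := by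
    rw [← sum_UU_neg w (fun a => bbf w P B a * rr w (eef w H E) a)]
    apply sum_congr rfl
    intro a _
    rw [bbf_refl w P R B hR1 hBR, ← rr_refl]
    congr 2
    funext t
    exact eef_refl w H R E hR1 hER t
  rw [e1, e2] at h1
  exact h1

end Pool.Agent.K9h13.RD
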