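import Mathlib
import Pool.Agent.TH703.J1232

/-! Symmetrised moments: local part. -/

set_option autoImplicit false

namespace Pool.Agent.K9h13.RD

open Finset
open Pool.Agent.TH703.RGA

/-- a sign -/
def sg {R : Type*} [Neg R] (b : Bool) (x : R) : R := if b then -x else x

section loc

variable (p : ℕ) [hp : Fact p.Prime]

/-- the number of coincidences of the nonzero entries -/
def cn {K : ℕ} (τ : Fin K → ZMod p) : ℕ :=
  (univ.filter fun j => τ j ≠ 0).card - ((univ.image τ).erase 0).card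

lemma Nl_eq {K : ℕ} (τ : Fin K → ZMod p) : Nl p τ + 1 + ((univ.image τ).erase 0).card = p := by
  classical
  have h1 : (univ.filter fun a : ZMod p => a ≠ 0 ∧ ∀ j, τ j ≠ a) = (univ.erase 0) \ ((univ.image τ).erase 0) := by
    ext a
    simp only [mem_filter, mem_univ, true_and, mem_sdiff, mem_erase, mem_image, and_true, not_and, not_exists]
    constructor
    · rintro ⟨h1, h2⟩
      exact ⟨h1, fun _ x hx => h2 x hx⟩
    · rintro ⟨h1, h2⟩
      exact ⟨h1, fun j hj => h2 h1 j hj⟩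
  have h2 : Nl p τ = ((univ.erase (0 : ZMod p)) \ ((univ.image τ).erase 0)).card := by
    unfold Nl
    rw [← h1]
  rw [h2]
  have h3 : (univ.image τ).erase 0 ⊆ univ.erase (0 : ZMod p) := erase_subset_erase _ (subset_univ _)
  have h4 := card_sdiff_add_card_eq_card h3
  have h5 : (univ.erase (0 : ZMod p)).card = p - 1 := by
    rw [card_erase_of_mem (mem_univ _), card_univ, ZMod.card]
  have := hp.out.one_le
  omega

lemma image_le {K : ℕ} (τ : Fin K → ZMod p) :
    ((univ.image τ).erase 0).card ≤ (univ.filter fun j => τ j ≠ 0).card := by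
  classical
  refine (card_le_card ?_).trans (card_image_le (f := τ) (s := univ.filter fun j => τ j ≠ 0))
  intro a ha
  rw [mem_erase, mem_image] at ha
  obtain ⟨h0, j, -, rfl⟩ := ha
  exact mem_image.2 ⟨j, mem_filter.2 ⟨mem_univ _, h0⟩, rfl⟩

lemma prod_wl {K : ℕ} (τ : Fin K → ZMod p) :
    ∏ j, wl p (τ j) = (((p : ℝ) - 2) / ((p : ℝ) - 1)) ^ (univ.filter fun j => τ j ≠ 0).card := by
  classical
  rw [← prod_filter_mul_prod_filter_not univ (fun j => τ j ≠ 0)]
  have h1 : ∏ j ∈ univ.filter (fun j => τ j ≠ 0), wl p (τ j) =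
      (((p : ℝ) - 2) / ((p : ℝ) - 1)) ^ (univ.filter fun j => τ j ≠ 0).card := by
    rw [prod_congr rfl (g := fun _ => ((p : ℝ) - 2) / ((p : ℝ) - 1)), prod_const]
    intro j hj
    unfold wl
    rw [if_neg (mem_filter.1 hj).2]
  have h2 : ∏ j ∈ univ.filter (fun j => ¬ τ j ≠ 0), wl p (τ j) = 1 := by
    apply prod_eq_one
    intro j hj
    unfold wl
    rw [if_pos (not_not.1 (mem_filter.1 hj).2)]
  rw [h1, h2, mul_one]

lemma local_bound2 {K : ℕ} (τ : Fin K → ZMod p) :
    (Nl p τ : ℝ) / ((p : ℝ) - 1) ≤ (∏ j, wl p (τ j)) * xl p ^ cn p τ := by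
  classical
  have hN := Nl_eq p τ
  have hle := image_le p τ
  have h2 := two_le p
  rw [prod_wl]
  set f := ((univ.image τ).erase 0).card with hf
  set m := (univ.filter fun j => τ j ≠ 0).card with hm
  have hNr : (Nl p τ : ℝ) = (p : ℝ) - 1 - f := by
    have : ((Nl p τ + 1 + f : ℕ) : ℝ) = p := by exact_mod_cast hN
    push_cast at this
    linarith
  have hp1 : (0 : ℝ) < (p : ℝ) - 1 := by linarith
  have hcn : cn p τ = m - f := rfl
  rw [hNr, hcn]
  by_cases hp2 : p = 2
  · have hpr : (p : ℝ) = 2 := by exact_mod_cast hp2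
    have hx : xl p = 1 := by unfold xl; rw [if_pos hp2]
    rw [hx, one_pow, mul_one, hpr]
    norm_num
    rcases Nat.eq_zero_or_pos m with h0 | h0
    · rw [h0, pow_zero]
      have := Nat.cast_nonneg (α := ℝ) f
      linarith
    · rw [zero_pow (by omega)]
      have hf1 : 1 ≤ f := by
        obtain ⟨j, hj⟩ := card_pos.1 h0
        rw [mem_filter] at hj
        exact card_pos.2 ⟨τ j, mem_erase.2 ⟨hj.2, mem_image.2 ⟨j, mem_univ _, rfl⟩⟩⟩
      have : (1 : ℝ) ≤ f := by exact_mod_cast hf1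
      linarith
  · have h3 : 3 ≤ p := by
      have := hp.out.two_le
      omega
    have h3' : (3 : ℝ) ≤ p := by exact_mod_cast h3
    have hx : xl p = ((p : ℝ) - 1) / ((p : ℝ) - 2) := by unfold xl; rw [if_neg hp2]
    have hp22 : (0 : ℝ) < (p : ℝ) - 2 := by linarith
    have e1 : (((p : ℝ) - 2) / ((p : ℝ) - 1)) ^ m * xl p ^ (m - f) = (((p : ℝ) - 2) / ((p : ℝ) - 1)) ^ f := by
      have hmf : m = (m - f) + f := by omega
      rw [hx]
      conv_lhs => rw [hmf]
      rw [pow_add]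
      have e2 : (m - f + f - f) = m - f := by omega
      rw [e2]
      have e3 : (((p : ℝ) - 2) / ((p : ℝ) - 1)) ^ (m - f) * (((p : ℝ) - 1) / ((p : ℝ) - 2)) ^ (m - f) = 1 := by
        rw [← mul_pow]
        have : ((p : ℝ) - 2) / ((p : ℝ) - 1) * (((p : ℝ) - 1) / ((p : ℝ) - 2)) = 1 := by
          field_simp
        rw [this, one_pow]
      calc (((p : ℝ) - 2) / ((p : ℝ) - 1)) ^ (m - f) * (((p : ℝ) - 2) / ((p : ℝ) - 1)) ^ f *
            (((p : ℝ) - 1) / ((p : ℝ) - 2)) ^ (m - f) =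
          ((((p : ℝ) - 2) / ((p : ℝ) - 1)) ^ (m - f) * (((p : ℝ) - 1) / ((p : ℝ) - 2)) ^ (m - f)) *
            (((p : ℝ) - 2) / ((p : ℝ) - 1)) ^ f := by ring
        _ = _ := by rw [e3, one_mul]
    rw [e1]
    have e4 : ((p : ℝ) - 2) / ((p : ℝ) - 1) = 1 + (-(1 / ((p : ℝ) - 1))) := by
      field_simp
      ring
    rw [e4]
    have hb := one_add_mul_le_pow (a := -(1 / ((p : ℝ) - 1))) (by
      have : 1 / ((p : ℝ) - 1) ≤ 1 := by
        rw [div_le_one hp1]
        linarith
      linarith) f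
    refine le_trans (le_of_eq ?_) hb
    field_simp
    ring

lemma cn_le {K : ℕ} (τ : Fin K → ZMod p) : cn p τ ≤ K - 1 := by
  classical
  unfold cn
  have h1 : (univ.filter fun j => τ j ≠ 0).card ≤ K := by
    refine (card_le_univ _).trans ?_
    simp
  rcases Nat.eq_zero_or_pos (univ.filter fun j => τ j ≠ 0).card with h0 | h0
  · omega
  · have hf1 : 1 ≤ ((univ.image τ).erase 0).card := by
      obtain ⟨j, hj⟩ := card_pos.1 h0
      rw [mem_filter] at hj
      exact card_pos.2 ⟨τ j, mem_erase.2 ⟨hj.2, mem_image.2 ⟨j, mem_univ _, rfl⟩⟩⟩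
    omega

lemma cn_pos {K : ℕ} (τ : Fin K → ZMod p) (h : cn p τ ≠ 0) : ∃ i j, i ≠ j ∧ τ i = τ j := by
  classical
  unfold cn at h
  have h1 : ((univ.image τ).erase 0).card < (univ.filter fun j => τ j ≠ 0).card := by omega
  obtain ⟨i, -, j, -, hij, he⟩ := exists_ne_map_eq_of_card_lt_of_maps_to h1 (f := τ) (by
    intro j hj
    rw [mem_coe, mem_filter] at hj
    exact mem_coe.2 (mem_erase.2 ⟨hj.2, mem_image.2 ⟨j, mem_univ _, rfl⟩⟩))
  exact ⟨i, j, hij, he⟩

lemma sg_sg {R : Type*} [InvolutiveNeg R] (b : Bool) (x : R) : sg b (sg b x) = x := by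
  unfold sg
  split_ifs <;> simp

lemma sg_eq_zero {R : Type*} [NegZeroClass R] (b : Bool) (x : R) (h : x = 0) : sg b x = 0 := by
  unfold sg
  split_ifs <;> simp [h]

lemma sg_ne_zero {R : Type*} [SubtractionMonoid R] (b : Bool) (x : R) : sg b x ≠ 0 ↔ x ≠ 0 := by
  unfold sg
  split_ifs
  · rw [neg_ne_zero]
  · rfl

lemma wl_sg (b : Bool) (x : ZMod p) : wl p (sg b x) = wl p x := by
  unfold wl
  by_cases h : x = 0
  · rw [if_pos h, if_pos (sg_eq_zero b x h)]
  · rw [if_neg h, if_neg ((sg_ne_zero b x).2 h)]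

/-- two different sign patterns -/
lemma cn_two (hp2 : p ≠ 2) {K : ℕ} (hK : 2 ≤ K) (τ : Fin K → ZMod p) (s s' : Fin K → Bool) (h1 : s' ≠ s)
    (h2 : s' ≠ fun j => !(s j)) : cn p (fun j => sg (s j) (τ j)) + cn p (fun j => sg (s' j) (τ j)) ≤ 2 * K - 3 := by
  classical
  have hm : ∀ u : Fin K → Bool, (univ.filter fun j => (fun j => sg (u j) (τ j)) j ≠ 0) = univ.filter fun j => τ j ≠ 0 := by
    intro u
    ext j
    simp only [mem_filter, mem_univ, true_and]
    exact sg_ne_zero _ _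
  have hmK : (univ.filter fun j => τ j ≠ 0).card ≤ K := by
    refine (card_le_univ _).trans ?_
    simp
  have hf : ∀ u : Fin K → Bool, 0 < (univ.filter fun j => τ j ≠ 0).card →
      1 ≤ ((univ.image (fun j => sg (u j) (τ j))).erase 0).card := by
    intro u h0
    obtain ⟨j, hj⟩ := card_pos.1 h0
    rw [mem_filter] at hj
    exact card_pos.2 ⟨sg (u j) (τ j), mem_erase.2 ⟨(sg_ne_zero _ _).2 hj.2, mem_image.2 ⟨j, mem_univ _, rfl⟩⟩⟩
  unfold cn
  rw [hm s, hm s']
  rcases Nat.eq_zero_or_pos (univ.filter fun j => τ j ≠ 0).card with h0 | h0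
  · omega
  have hf1 := hf s h0
  have hf2 := hf s' h0
  by_cases hKm : (univ.filter fun j => τ j ≠ 0).card = K
  · -- all the entries are nonzero
    have hall : ∀ j, τ j ≠ 0 := by
      intro j
      have h3 : (univ.filter fun j => τ j ≠ 0) = univ := by
        apply eq_univ_of_card
        rw [hKm]
        simp
      have h4 : j ∈ univ.filter fun j => τ j ≠ 0 := by rw [h3]; exact mem_univ _
      exact (mem_filter.1 h4).2
    by_contra hcon
    have hc1 : ((univ.image (fun j => sg (s j) (τ j))).erase 0).card = 1 := by omega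
    have hc2 : ((univ.image (fun j => sg (s' j) (τ j))).erase 0).card = 1 := by omega
    obtain ⟨u, hu⟩ := card_eq_one.1 hc1
    obtain ⟨v, hv⟩ := card_eq_one.1 hc2
    have hu' : ∀ j, sg (s j) (τ j) = u := by
      intro j
      have : sg (s j) (τ j) ∈ (univ.image (fun j => sg (s j) (τ j))).erase 0 :=
        mem_erase.2 ⟨(sg_ne_zero _ _).2 (hall j), mem_image.2 ⟨j, mem_univ _, rfl⟩⟩
      rw [hu] at this
      exact mem_singleton.1 this
    have hv' : ∀ j, sg (s' j) (τ j) = v := by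
      intro j
      have : sg (s' j) (τ j) ∈ (univ.image (fun j => sg (s' j) (τ j))).erase 0 :=
        mem_erase.2 ⟨(sg_ne_zero _ _).2 (hall j), mem_image.2 ⟨j, mem_univ _, rfl⟩⟩
      rw [hv] at this
      exact mem_singleton.1 this
    obtain ⟨i, hi⟩ : ∃ i, s' i ≠ s i := by
      by_contra hc
      push Not at hc
      exact h1 (funext hc)
    obtain ⟨j, hj⟩ : ∃ j, s' j ≠ !(s j) := by
      by_contra hc
      push Not at hc
      exact h2 (funext hc)
    have hj' : s' j = s j := by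
      cases h5 : s' j <;> cases h6 : s j <;> simp_all
    have e1 : u = v := by
      rw [← hu' j, ← hv' j, hj']
    have e2 : u = -v := by
      rw [← hu' i, ← hv' i]
      unfold sg
      cases h5 : s' i <;> cases h6 : s i <;> simp_all
    have hu0 : u ≠ 0 := by
      rw [← hu' i]
      exact (sg_ne_zero _ _).2 (hall i)
    have e3 : (2 : ZMod p) * u = 0 := by
      have : u + u = 0 := by
        nth_rewrite 1 [e2]
        rw [e1]
        ring
      rw [two_mul]
      exact this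
    rcases mul_eq_zero.1 e3 with h7 | h7
    · have h8 : ((2 : ℕ) : ZMod p) = 0 := by exact_mod_cast h7
      rw [ZMod.natCast_eq_zero_iff] at h8
      have := (Nat.prime_dvd_prime_iff_eq hp.out Nat.prime_two).1 h8
      exact hp2 this
    · exact hu0 h7
  · omega

open Classical in
lemma pair_sum {K : ℕ} (i j : Fin K) (hij : i ≠ j) (g : ZMod p → ZMod p) :
    ∑ τ : Fin K → ZMod p, (∏ l, wl p (τ l)) * (if τ i = g (τ j) then 1 else 0) ≤ ((p : ℝ) - 1) ^ (K - 1) := by
  obtain ⟨n, rfl⟩ : ∃ n, K = n + 1 := ⟨K - 1, by have := i.pos; omega⟩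
  obtain ⟨j', hj'⟩ := Fin.exists_succAbove_eq (Ne.symm hij)
  rw [← (Fin.insertNthEquiv (fun _ => ZMod p) i).sum_comp, Fintype.sum_prod_type, sum_comm]
  have h1 : ∀ τ' : Fin n → ZMod p, ∑ r : ZMod p,
      (∏ l, wl p ((Fin.insertNthEquiv (fun _ => ZMod p) i) (r, τ') l)) *
        (if (Fin.insertNthEquiv (fun _ => ZMod p) i) (r, τ') i =
          g ((Fin.insertNthEquiv (fun _ => ZMod p) i) (r, τ') j) then (1 : ℝ) else 0) ≤ ∏ l, wl p (τ' l) := by
    intro τ'
    have h2 : ∀ r : ZMod p, (∏ l, wl p ((Fin.insertNthEquiv (fun _ => ZMod p) i) (r, τ') l)) *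
        (if (Fin.insertNthEquiv (fun _ => ZMod p) i) (r, τ') i =
          g ((Fin.insertNthEquiv (fun _ => ZMod p) i) (r, τ') j) then (1 : ℝ) else 0) =
        (wl p r * ∏ l, wl p (τ' l)) * (if r = g (τ' j') then 1 else 0) := by
      intro r
      rw [Fin.prod_univ_succAbove _ i]
      simp only [Fin.insertNthEquiv_apply, Fin.insertNth_apply_same, Fin.insertNth_apply_succAbove, ← hj']
    rw [sum_congr rfl fun r _ => h2 r]
    simp only [mul_ite, mul_one, mul_zero, sum_ite_eq', mem_univ, if_true]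
    have h3 := wl_le p (g (τ' j'))
    have h4 : 0 ≤ ∏ l, wl p (τ' l) := prod_nonneg fun l _ => wl_nonneg p _
    exact mul_le_of_le_one_left h4 h3
  refine (sum_le_sum fun τ' _ => h1 τ').trans ?_
  have h5 : ∑ τ' : Fin n → ZMod p, ∏ l, wl p (τ' l) = ((p : ℝ) - 1) ^ n := by
    rw [← sum_wl p, Fintype.sum_pow]
  rw [h5]
  simp

open Classical in
/-- a general local sum -/
lemma loc_sum (K L k : ℕ) (hK : 1 ≤ K) (c : (Fin K → ZMod p) → ℕ) (hc : p ≠ 2 → ∀ τ, c τ ≤ L)
    (hc0 : ∀ τ, c τ ≠ 0 → ∃ i j, i ≠ j ∧ (τ i = τ j ∨ τ i = - τ j)) :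
    ∑ τ : Fin K → ZMod p, (∏ j, wl p (τ j)) * (xl p ^ c τ) ^ k ≤
      ((p : ℝ) - 1) ^ K * (1 + ((2 * K ^ 2 : ℕ) : ℝ) / ((p : ℝ) - 1) * (xl p ^ (L * k) - 1)) := by
  have h2 := two_le p
  have hp1 : (0 : ℝ) < (p : ℝ) - 1 := by linarith
  have hx := xl_ge p
  have hX : 0 ≤ xl p ^ (L * k) - 1 := by
    have := one_le_pow₀ hx (n := L * k)
    linarith
  set D := (univ : Finset (Fin K)).offDiag with hD
  have hpt : ∀ τ : Fin K → ZMod p, (∏ j, wl p (τ j)) * (xl p ^ c τ) ^ k ≤
      (∏ j, wl p (τ j)) + (xl p ^ (L * k) - 1) * ∑ q ∈ D,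
        ((∏ j, wl p (τ j)) * (if τ q.1 = id (τ q.2) then 1 else 0) +
         (∏ j, wl p (τ j)) * (if τ q.1 = (fun x => -x) (τ q.2) then 1 else 0)) := by
    intro τ
    have hP : 0 ≤ ∏ j, wl p (τ j) := prod_nonneg fun j _ => wl_nonneg p _
    have hnn : ∀ q ∈ D, 0 ≤ ((∏ j, wl p (τ j)) * (if τ q.1 = id (τ q.2) then (1 : ℝ) else 0) +
         (∏ j, wl p (τ j)) * (if τ q.1 = (fun x => -x) (τ q.2) then 1 else 0)) := by
      intro q _
      apply add_nonneg <;> apply mul_nonneg hP <;> split_ifs <;> norm_num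
    by_cases h0 : c τ = 0
    · rw [h0, pow_zero, one_pow, mul_one]
      have := mul_nonneg hX (sum_nonneg hnn)
      linarith
    · obtain ⟨i, j, hij, hor⟩ := hc0 τ h0
      have h3 : (∏ j, wl p (τ j)) ≤ ∑ q ∈ D,
        ((∏ j, wl p (τ j)) * (if τ q.1 = id (τ q.2) then 1 else 0) +
         (∏ j, wl p (τ j)) * (if τ q.1 = (fun x => -x) (τ q.2) then 1 else 0)) := by
        refine le_trans ?_ (single_le_sum hnn (show (i, j) ∈ D by rw [hD, mem_offDiag]; exact ⟨mem_univ _, mem_univ _, hij⟩))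
        simp only
        rcases hor with h | h
        · rw [if_pos (show τ i = id (τ j) from h), mul_one]
          have : 0 ≤ (∏ j, wl p (τ j)) * (if τ i = -τ j then (1 : ℝ) else 0) := by
            apply mul_nonneg hP; split_ifs <;> norm_num
          linarith
        · rw [if_pos h, mul_one]
          have : 0 ≤ (∏ j, wl p (τ j)) * (if τ i = id (τ j) then (1 : ℝ) else 0) := by
            apply mul_nonneg hP; split_ifs <;> norm_num
          linarith
      have h4 : (xl p ^ c τ) ^ k ≤ xl p ^ (L * k) := by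
        by_cases hp2 : p = 2
        · have hx1 : xl p = 1 := by unfold xl; rw [if_pos hp2]
          rw [hx1]
          simp
        · rw [← pow_mul]
          exact pow_le_pow_right₀ hx (Nat.mul_le_mul_right k (hc hp2 τ))
      calc (∏ j, wl p (τ j)) * (xl p ^ c τ) ^ k ≤ (∏ j, wl p (τ j)) * xl p ^ (L * k) :=
            mul_le_mul_of_nonneg_left h4 hP
        _ = (∏ j, wl p (τ j)) + (xl p ^ (L * k) - 1) * (∏ j, wl p (τ j)) := by ring
        _ ≤ _ := by
            have := mul_le_mul_of_nonneg_left h3 hX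
            linarith
  refine (sum_le_sum fun τ _ => hpt τ).trans ?_
  rw [sum_add_distrib, ← mul_sum, sum_comm]
  have h5 : ∑ τ' : Fin K → ZMod p, ∏ l, wl p (τ' l) = ((p : ℝ) - 1) ^ K := by
    rw [← sum_wl p, Fintype.sum_pow]
  rw [h5]
  have h6 : ∑ q ∈ D, ∑ τ : Fin K → ZMod p,
      ((∏ j, wl p (τ j)) * (if τ q.1 = id (τ q.2) then (1 : ℝ) else 0) +
         (∏ j, wl p (τ j)) * (if τ q.1 = (fun x => -x) (τ q.2) then 1 else 0)) ≤
      (K ^ 2 : ℕ) * (2 * ((p : ℝ) - 1) ^ (K - 1)) := by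
    have h7 : ∀ q ∈ D, ∑ τ : Fin K → ZMod p,
      ((∏ j, wl p (τ j)) * (if τ q.1 = id (τ q.2) then (1 : ℝ) else 0) +
         (∏ j, wl p (τ j)) * (if τ q.1 = (fun x => -x) (τ q.2) then 1 else 0)) ≤ 2 * ((p : ℝ) - 1) ^ (K - 1) := by
      intro q hq
      rw [hD, mem_offDiag] at hq
      rw [sum_add_distrib]
      have a1 := pair_sum p q.1 q.2 hq.2.2 id
      have a2 := pair_sum p q.1 q.2 hq.2.2 (fun x => -x)
      linarith
    refine (sum_le_sum h7).trans ?_
    rw [sum_const, nsmul_eq_mul]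
    apply mul_le_mul_of_nonneg_right _ (by positivity)
    have h8 : D.card ≤ K ^ 2 := by
      rw [hD, offDiag_card]
      simp
      nlinarith
    exact_mod_cast h8
  have h9 : ((p : ℝ) - 1) ^ K = ((p : ℝ) - 1) ^ (K - 1) * ((p : ℝ) - 1) := by
    rw [← pow_succ]
    congr 1
    omega
  calc ((p : ℝ) - 1) ^ K + (xl p ^ (L * k) - 1) * _ ≤
        ((p : ℝ) - 1) ^ K + (xl p ^ (L * k) - 1) * ((K ^ 2 : ℕ) * (2 * ((p : ℝ) - 1) ^ (K - 1))) := by
        have := mul_le_mul_of_nonneg_left h6 hX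
        linarith
    _ = _ := by
        rw [h9]
        push_cast
        field_simp

end loc

end Pool.Agent.K9h13.RD
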