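import Mathlib
import Pool.Agent.K9h13.RD.SM1

/-! Symmetrised moments: global part. -/

set_option autoImplicit false

namespace Pool.Agent.K9h13.RD

open Finset
open Pool.Agent.TH703.RGA

/-- Jensen -/
lemma jensen {α : Type*} (s : Finset α) (E Z : α → ℝ) (hE : ∀ i ∈ s, 0 ≤ E i) (hZ : ∀ i ∈ s, 0 ≤ Z i) (A B : ℝ)
    (hA : 0 < A) (hsum : ∑ i ∈ s, E i = A) (n : ℕ) (hn : 1 ≤ n) (hB : ∑ i ∈ s, E i * Z i ^ n ≤ B) :
    ∑ i ∈ s, E i * Z i ≤ A * (B / A) ^ (1 / (n : ℝ)) := by
  have h1 := Real.pow_arith_mean_le_arith_mean_pow s (fun i => E i / A) Z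
    (fun i hi => div_nonneg (hE i hi) hA.le) (by rw [← sum_div, hsum, div_self hA.ne']) hZ n
  have h2 : ∑ i ∈ s, E i / A * Z i = (∑ i ∈ s, E i * Z i) / A := by
    rw [sum_div]
    exact sum_congr rfl fun i _ => by ring
  have h3 : ∑ i ∈ s, E i / A * Z i ^ n = (∑ i ∈ s, E i * Z i ^ n) / A := by
    rw [sum_div]
    exact sum_congr rfl fun i _ => by ring
  rw [h2, h3] at h1
  have hL : 0 ≤ (∑ i ∈ s, E i * Z i) / A :=
    div_nonneg (sum_nonneg fun i hi => mul_nonneg (hE i hi) (hZ i hi)) hA.le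
  have h4 : ((∑ i ∈ s, E i * Z i) / A) ^ n ≤ B / A := h1.trans (div_le_div_of_nonneg_right hB hA.le)
  have hn0 : (n : ℝ) ≠ 0 := by
    have : 0 < n := hn
    positivity
  have hroot : (∑ i ∈ s, E i * Z i) / A = (((∑ i ∈ s, E i * Z i) / A) ^ n) ^ (1 / (n : ℝ)) := by
    rw [← Real.rpow_natCast, ← Real.rpow_mul hL, mul_one_div_cancel hn0, Real.rpow_one]
  have h5 : (∑ i ∈ s, E i * Z i) / A ≤ (B / A) ^ (1 / (n : ℝ)) := by
    rw [hroot]
    exact Real.rpow_le_rpow (pow_nonneg hL n) h4 (by positivity)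
  rw [div_le_iff₀ hA] at h5
  linarith

section glob

variable {ι : Type} [Fintype ι] [DecidableEq ι] (q : ι → ℕ) [hq : ∀ i, Fact (q i).Prime]

/-- correction factor -/
noncomputable def GG {K : ℕ} (T : Fin K → ∀ i, ZMod (q i)) : ℝ := ∏ i, xl (q i) ^ cn (q i) (fun j => T j i)

/-- apply signs -/
def sT {K : ℕ} (s : Fin K → Bool) (T : Fin K → ∀ i, ZMod (q i)) : Fin K → ∀ i, ZMod (q i) :=
  fun j => sg (s j) (T j)

lemma sT_apply {K : ℕ} (s : Fin K → Bool) (T : Fin K → ∀ i, ZMod (q i)) (j : Fin K) (i : ι) :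
    sT q s T j i = sg (s j) (T j i) := by
  unfold sT sg
  split_ifs <;> rfl

lemma GG_ge {K : ℕ} (T : Fin K → ∀ i, ZMod (q i)) : 1 ≤ GG q T := by
  unfold GG
  calc (1 : ℝ) = ∏ _i : ι, (1 : ℝ) := by simp
    _ ≤ _ := prod_le_prod (fun _ _ => zero_le_one) (fun i _ => one_le_pow₀ (xl_ge _))

lemma Un_neg (x : ∀ i, ZMod (q i)) : Un q (-x) ↔ Un q x := by
  unfold Un
  apply forall_congr'
  intro i
  show -(x i) ≠ 0 ↔ x i ≠ 0
  rw [neg_ne_zero]

lemma wg_sg (b : Bool) (t : ∀ i, ZMod (q i)) : wg q (sg b t) = wg q t := by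
  classical
  rw [wg_eq, wg_eq]
  apply prod_congr rfl
  intro i _
  have : (sg b t) i = sg b (t i) := by
    unfold sg
    split_ifs <;> rfl
  rw [this, wl_sg]

/-- the count for a tuple -/
lemma count_le {K : ℕ} (T : Fin K → ∀ i, ZMod (q i)) :
    ((open Classical in univ.filter fun a : ∀ i, ZMod (q i) => Un q a ∧ ∀ j, Un q (T j - a)).card : ℝ) ≤
      phi q * ((∏ j, wg q (T j)) * GG q T) := by
  classical
  rw [count_prod, Nat.cast_prod]
  have h1 : (∏ j, wg q (T j)) = ∏ i, ∏ j, wl (q i) (T j i) := by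
    rw [prod_comm]
    exact prod_congr rfl fun j _ => wg_eq q (T j)
  rw [h1]
  unfold phi GG
  rw [← prod_mul_distrib, ← prod_mul_distrib]
  apply prod_le_prod
  · intro i _
    exact Nat.cast_nonneg _
  · intro i _
    have h2 := two_le (q i)
    have hp1 : (0 : ℝ) < (q i : ℝ) - 1 := by linarith
    have h3 := local_bound2 (q i) (fun j => T j i)
    rw [div_le_iff₀ hp1] at h3
    linarith

/-- factorisation -/
lemma fac_le {K : ℕ} (e : (∀ i, ZMod (q i)) → ℝ) (he0 : ∀ t, 0 ≤ e t) (he1 : ∀ t, e t ≤ 1)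
    (g : ∀ i, (Fin K → ZMod (q i)) → ℝ) (hg : ∀ i τ, 0 ≤ g i τ) :
    ∑ T : Fin K → ∀ i, ZMod (q i), (∏ j, (e (T j) * wg q (T j))) * ∏ i, g i (fun j => T j i) ≤
      ∏ i, ∑ τ : Fin K → ZMod (q i), (∏ j, wl (q i) (τ j)) * g i τ := by
  classical
  have e1 : ∀ T : Fin K → ∀ i, ZMod (q i), (∏ j, (e (T j) * wg q (T j))) * ∏ i, g i (fun j => T j i)
      ≤ ∏ i, ((∏ j, wl (q i) (T j i)) * g i (fun j => T j i)) := by
    intro T
    rw [prod_mul_distrib (f := fun i => ∏ j, wl (q i) (T j i))]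
    apply mul_le_mul_of_nonneg_right
    · rw [prod_comm]
      apply prod_le_prod
      · intro j _
        exact mul_nonneg (he0 _) (wg_nonneg q _)
      · intro j _
        rw [wg_eq]
        have := prod_nonneg (s := univ) (f := fun i => wl (q i) (T j i)) fun i _ => wl_nonneg _ _
        exact mul_le_of_le_one_left this (he1 (T j))
    · exact prod_nonneg fun i _ => hg i _
  have e2 : ∑ T : Fin K → ∀ i, ZMod (q i), ∏ i, ((∏ j, wl (q i) (T j i)) * g i (fun j => T j i))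
      = ∏ i, ∑ τ : Fin K → ZMod (q i), ((∏ j, wl (q i) (τ j)) * g i τ) := by
    rw [Fintype.prod_sum]
    apply Fintype.sum_equiv (Equiv.piComm fun (_ : Fin K) (i : ι) => ZMod (q i))
    intro T
    rfl
  rw [← e2]
  exact sum_le_sum fun T _ => e1 T

/-- the product of the local bounds -/
noncomputable def MQ (K L : ℕ) : ℝ := ∏ i, (1 + ((2 * K ^ 2 : ℕ) : ℝ) / ((q i : ℝ) - 1) * (xl (q i) ^ L - 1))

/-- first moment bound -/
lemma mom_one {K : ℕ} (hK : 1 ≤ K) (k : ℕ) (e : (∀ i, ZMod (q i)) → ℝ) (he0 : ∀ t, 0 ≤ e t) (he1 : ∀ t, e t ≤ 1)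
    (s : Fin K → Bool) :
    ∑ T : Fin K → ∀ i, ZMod (q i), (∏ j, (e (T j) * wg q (T j))) * GG q (sT q s T) ^ k ≤
      phi q ^ K * MQ q K ((K - 1) * k) := by
  classical
  have h1 := fac_le q e he0 he1 (K := K) (fun i τ => (xl (q i) ^ cn (q i) (fun j => sg (s j) (τ j))) ^ k)
    (fun i τ => by
      have := xl_ge (q i)
      positivity)
  have h2 : ∀ T : Fin K → ∀ i, ZMod (q i), GG q (sT q s T) ^ k =
      ∏ i, (xl (q i) ^ cn (q i) (fun j => sg (s j) (T j i))) ^ k := by
    intro T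
    unfold GG
    rw [← prod_pow]
    apply prod_congr rfl
    intro i _
    congr 3
    funext j
    exact sT_apply q s T j i
  rw [sum_congr rfl fun T _ => by rw [h2 T]]
  refine h1.trans ?_
  unfold phi MQ
  rw [← prod_pow, ← prod_mul_distrib]
  apply prod_le_prod
  · intro i _
    apply sum_nonneg
    intro τ _
    apply mul_nonneg (prod_nonneg fun j _ => wl_nonneg _ _)
    have := xl_ge (q i)
    positivity
  · intro i _
    apply loc_sum (q i) K (K - 1) k hK
    · intro _ τ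
      exact cn_le _ _
    · intro τ hτ
      obtain ⟨a, b, hab, hE⟩ := cn_pos _ _ hτ
      refine ⟨a, b, hab, ?_⟩
      unfold sg at hE
      cases h5 : s a <;> cases h6 : s b <;> simp [h5, h6] at hE
      · exact Or.inl hE
      · exact Or.inr hE
      · right
        rw [← hE, neg_neg]
      · exact Or.inl hE

/-- mixed moment bound -/
lemma mom_two {K : ℕ} (hK : 2 ≤ K) (k : ℕ) (e : (∀ i, ZMod (q i)) → ℝ) (he0 : ∀ t, 0 ≤ e t) (he1 : ∀ t, e t ≤ 1)
    (s s' : Fin K → Bool) (h1 : s' ≠ s) (h2 : s' ≠ fun j => !(s j)) :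
    ∑ T : Fin K → ∀ i, ZMod (q i), (∏ j, (e (T j) * wg q (T j))) * (GG q (sT q s T) * GG q (sT q s' T)) ^ k ≤
      phi q ^ K * MQ q K ((2 * K - 3) * k) := by
  classical
  have h3 := fac_le q e he0 he1 (K := K) (fun i τ =>
    (xl (q i) ^ (cn (q i) (fun j => sg (s j) (τ j)) + cn (q i) (fun j => sg (s' j) (τ j)))) ^ k)
    (fun i τ => by
      have := xl_ge (q i)
      positivity)
  have h4 : ∀ T : Fin K → ∀ i, ZMod (q i), (GG q (sT q s T) * GG q (sT q s' T)) ^ k =
      ∏ i, (xl (q i) ^ (cn (q i) (fun j => sg (s j) (T j i)) + cn (q i) (fun j => sg (s' j) (T j i)))) ^ k := by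
    intro T
    unfold GG
    rw [← prod_mul_distrib, ← prod_pow]
    apply prod_congr rfl
    intro i _
    rw [← pow_add]
    have e1 : (fun j => sT q s T j i) = fun j => sg (s j) (T j i) := funext fun j => sT_apply q s T j i
    have e2 : (fun j => sT q s' T j i) = fun j => sg (s' j) (T j i) := funext fun j => sT_apply q s' T j i
    rw [e1, e2]
  rw [sum_congr rfl fun T _ => by rw [h4 T]]
  refine h3.trans ?_
  unfold phi MQ
  rw [← prod_pow, ← prod_mul_distrib]
  apply prod_le_prod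
  · intro i _
    apply sum_nonneg
    intro τ _
    apply mul_nonneg (prod_nonneg fun j _ => wl_nonneg _ _)
    have := xl_ge (q i)
    positivity
  · intro i _
    have key : ∀ (u : Fin K → Bool) (τ : Fin K → ZMod (q i)), cn (q i) (fun j => sg (u j) (τ j)) ≠ 0 →
        ∃ i' j, i' ≠ j ∧ (τ i' = τ j ∨ τ i' = - τ j) := by
      intro u τ hτ
      obtain ⟨a, b, hab, hE⟩ := cn_pos _ _ hτ
      refine ⟨a, b, hab, ?_⟩
      unfold sg at hE
      cases h5 : u a <;> cases h6 : u b <;> simp [h5, h6] at hE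
      · exact Or.inl hE
      · exact Or.inr hE
      · right
        rw [← hE, neg_neg]
      · exact Or.inl hE
    apply loc_sum (q i) K (2 * K - 3) k (by omega)
    · intro hp2 τ
      exact cn_two (q i) hp2 hK τ s s' h1 h2
    · intro τ hτ
      by_cases h5 : cn (q i) (fun j => sg (s j) (τ j)) = 0
      · exact key s' τ (by omega)
      · exact key s τ h5

open Classical in
/-- the symmetrised sum -/
noncomputable def VV (e : (∀ i, ZMod (q i)) → ℝ) (a : ∀ i, ZMod (q i)) : ℝ :=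
  ∑ t, e t * ((if Un q (t - a) then 1 else 0) + (if Un q (t + a) then 1 else 0))

open Classical in
lemma VV_eq [∀ i, NeZero (q i)] (e : (∀ i, ZMod (q i)) → ℝ) (a : ∀ i, ZMod (q i)) :
    VV q e a = ∑ x : Bool × (∀ i, ZMod (q i)), e x.2 * (if Un q (sg x.1 x.2 - a) then 1 else 0) := by
  unfold VV
  rw [Fintype.sum_prod_type, Fintype.sum_bool, ← sum_add_distrib]
  apply sum_congr rfl
  intro t _
  have h1 : Un q (sg true t - a) ↔ Un q (t + a) := by
    have : sg true t - a = -(t + a) := by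
      unfold sg
      simp only [if_true]
      abel
    rw [this, Un_neg]
  have h2 : Un q (sg false t - a) ↔ Un q (t - a) := by
    have : sg false t - a = t - a := by
      unfold sg
      simp
    rw [this]
  simp only [h1, h2]
  ring

/-- pairs of sign patterns -/
lemma signs_le {K : ℕ} (G : (Fin K → Bool) → ℝ) (hG : ∀ s, 1 ≤ G s) (k : ℕ) (hk : 1 ≤ k) :
    ∑ s, G s ≤ 2 * (∑ s, G s ^ (2 * k)) ^ (1 / ((2 * k : ℕ) : ℝ)) +
      ∑ s, ∑ s' ∈ univ.filter (fun s' => s' ≠ s ∧ s' ≠ fun j => !(s j)), √(G s * G s') := by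
  classical
  have hG0 : ∀ s, 0 ≤ G s := fun s => zero_le_one.trans (hG s)
  obtain ⟨m, -, hm⟩ := exists_max_image (univ : Finset (Fin K → Bool)) G ⟨fun _ => true, mem_univ _⟩
  have h1 : G m ≤ (∑ s, G s ^ (2 * k)) ^ (1 / ((2 * k : ℕ) : ℝ)) := by
    have hk0 : ((2 * k : ℕ) : ℝ) ≠ 0 := by
      have : 0 < k := hk
      positivity
    calc G m = (G m ^ (2 * k)) ^ (1 / ((2 * k : ℕ) : ℝ)) := by
          rw [← Real.rpow_natCast, ← Real.rpow_mul (hG0 m), mul_one_div_cancel hk0, Real.rpow_one]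
      _ ≤ _ := by
          apply Real.rpow_le_rpow (pow_nonneg (hG0 m) _) _ (by positivity)
          exact single_le_sum (f := fun s => G s ^ (2 * k)) (fun s _ => pow_nonneg (hG0 s) _) (mem_univ m)
  have h2 : ∑ s ∈ univ.filter (fun s' => ¬ (s' ≠ m ∧ s' ≠ fun j => !(m j))), G s ≤ 2 * G m := by
    have h3 : univ.filter (fun s' : Fin K → Bool => ¬ (s' ≠ m ∧ s' ≠ fun j => !(m j))) ⊆ {m, fun j => !(m j)} := by
      intro s hs
      rw [mem_filter] at hs
      rw [mem_insert, mem_singleton]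
      by_contra hcon
      push Not at hcon
      exact hs.2 hcon
    calc ∑ s ∈ univ.filter (fun s' : Fin K → Bool => ¬ (s' ≠ m ∧ s' ≠ fun j => !(m j))), G s ≤
        ∑ s ∈ univ.filter (fun s' : Fin K → Bool => ¬ (s' ≠ m ∧ s' ≠ fun j => !(m j))), G m :=
          sum_le_sum fun s _ => hm s (mem_univ s)
      _ = (univ.filter (fun s' : Fin K → Bool => ¬ (s' ≠ m ∧ s' ≠ fun j => !(m j)))).card * G m := by
          rw [sum_const, nsmul_eq_mul]
      _ ≤ 2 * G m := by
          apply mul_le_mul_of_nonneg_right _ (hG0 m)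
          have := (card_le_card h3).trans (card_le_two (a := m) (b := fun j => !(m j)))
          exact_mod_cast this
  have h3 : ∑ s ∈ univ.filter (fun s' => (s' ≠ m ∧ s' ≠ fun j => !(m j))), G s ≤
      ∑ s, ∑ s' ∈ univ.filter (fun s' => s' ≠ s ∧ s' ≠ fun j => !(s j)), √(G s * G s') := by
    refine le_trans ?_ (single_le_sum (f := fun s => ∑ s' ∈ univ.filter (fun s' => s' ≠ s ∧ s' ≠ fun j => !(s j)),
      √(G s * G s')) (fun s _ => sum_nonneg fun _ _ => Real.sqrt_nonneg _) (mem_univ m))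
    apply sum_le_sum
    intro s _
    apply Real.le_sqrt_of_sq_le
    rw [sq]
    exact mul_le_mul_of_nonneg_right (hm s (mem_univ s)) (hG0 s)
  have h4 := sum_filter_add_sum_filter_not univ (fun s' : Fin K → Bool => (s' ≠ m ∧ s' ≠ fun j => !(m j))) G
  linarith

/-- **the symmetrised moment inequality on a product of prime fields** -/
theorem symm_prod (K k : ℕ) (hK : 2 ≤ K) (hk : 1 ≤ k) (e : (∀ i, ZMod (q i)) → ℝ)
    (he0 : ∀ t, 0 ≤ e t) (he1 : ∀ t, e t ≤ 1) (S : ℝ) (hS : S = ∑ t, e t * wg q t) (hS0 : 0 < S) :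
    (∑ a ∈ (open Classical in univ.filter (fun a : ∀ i, ZMod (q i) => Un q a)), VV q e a ^ K) / phi q ≤
      S ^ K * (2 * (2 ^ K * ((phi q / S) ^ K * MQ q K ((K - 1) * (2 * k)))) ^ (1 / ((2 * k : ℕ) : ℝ)) +
        4 ^ K * ((phi q / S) ^ K * MQ q K ((2 * K - 3) * k)) ^ (1 / ((2 * k : ℕ) : ℝ))) := by
  classical
  have : ∀ i, NeZero (q i) := fun i => ⟨(hq i).out.ne_zero⟩
  have hphi := phi_pos q
  set E : (Fin K → ∀ i, ZMod (q i)) → ℝ := fun T => ∏ j, (e (T j) * wg q (T j)) with hE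
  have hE0 : ∀ T, 0 ≤ E T := fun T => prod_nonneg fun j _ => mul_nonneg (he0 _) (wg_nonneg q _)
  have hES : ∑ T, E T = S ^ K := by
    rw [hS, hE, Fintype.sum_pow]
  have hSK : 0 < S ^ K := pow_pos hS0 K
  -- expansion
  have h1 : (∑ a ∈ univ.filter (fun a : ∀ i, ZMod (q i) => Un q a), VV q e a ^ K) ≤
      phi q * ∑ T, E T * ∑ s, GG q (sT q s T) := by
    have hexp : ∀ a : (∀ i, ZMod (q i)), VV q e a ^ K =
        ∑ s : Fin K → Bool, ∑ T : Fin K → ∀ i, ZMod (q i), ∏ j, (e (T j) * (if Un q (sg (s j) (T j) - a) then 1 else 0)) := by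
      intro a
      rw [VV_eq, Fintype.sum_pow, ← (Equiv.arrowProdEquivProdArrow (Fin K) (fun _ => Bool)
        (fun _ => ∀ i, ZMod (q i))).symm.sum_comp, Fintype.sum_prod_type]
      rfl
    simp_rw [hexp]
    rw [sum_comm]
    have h2 : ∀ s : Fin K → Bool, ∑ a ∈ univ.filter (fun a : ∀ i, ZMod (q i) => Un q a),
        ∑ T : Fin K → ∀ i, ZMod (q i), ∏ j, (e (T j) * (if Un q (sg (s j) (T j) - a) then 1 else 0)) ≤
        ∑ T, phi q * (E T * GG q (sT q s T)) := by
      intro s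
      rw [sum_comm]
      apply sum_le_sum
      intro T _
      have h3 : ∀ a : (∀ i, ZMod (q i)), (∏ j, (e (T j) * (if Un q (sg (s j) (T j) - a) then (1 : ℝ) else 0)))
          = if ∀ j, Un q (sT q s T j - a) then ∏ j, e (T j) else 0 := by
        intro a
        by_cases h : ∀ j, Un q (sT q s T j - a)
        · rw [if_pos h]
          apply prod_congr rfl
          intro j _
          rw [if_pos (show Un q (sg (s j) (T j) - a) from h j), mul_one]
        · rw [if_neg h]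
          push Not at h
          obtain ⟨j, hj⟩ := h
          apply prod_eq_zero (mem_univ j)
          rw [if_neg (show ¬ Un q (sg (s j) (T j) - a) from hj), mul_zero]
      simp_rw [h3]
      rw [← sum_filter, filter_filter, sum_const, nsmul_eq_mul]
      have h4 := count_le q (sT q s T)
      have h5 : ∏ j, wg q (sT q s T j) = ∏ j, wg q (T j) := prod_congr rfl fun j _ => wg_sg q _ _
      rw [h5] at h4
      have h6 : 0 ≤ ∏ j, e (T j) := prod_nonneg fun j _ => he0 _
      calc _ ≤ (phi q * ((∏ j, wg q (T j)) * GG q (sT q s T))) * ∏ j, e (T j) := by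
            apply mul_le_mul_of_nonneg_right _ h6
            convert h4
        _ = _ := by
            rw [hE]
            simp only
            rw [prod_mul_distrib]
            ring
    refine (sum_le_sum fun s _ => h2 s).trans (le_of_eq ?_)
    rw [sum_comm, mul_sum]
    apply sum_congr rfl
    intro T _
    rw [mul_sum, mul_sum]
  have h2 : (∑ a ∈ univ.filter (fun a : ∀ i, ZMod (q i) => Un q a), VV q e a ^ K) / phi q ≤
      ∑ T, E T * ∑ s, GG q (sT q s T) := by
    rw [div_le_iff₀ hphi]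
    linarith
  refine h2.trans ?_
  -- pointwise
  set Y : (Fin K → ∀ i, ZMod (q i)) → ℝ := fun T => (∑ s, GG q (sT q s T) ^ (2 * k)) ^ (1 / ((2 * k : ℕ) : ℝ)) with hY
  have h3 : ∀ T, E T * ∑ s, GG q (sT q s T) ≤ 2 * (E T * Y T) +
      ∑ s, ∑ s' ∈ univ.filter (fun s' : Fin K → Bool => s' ≠ s ∧ s' ≠ fun j => !(s j)),
        E T * √(GG q (sT q s T) * GG q (sT q s' T)) := by
    intro T
    have h4 := signs_le (fun s => GG q (sT q s T)) (fun s => GG_ge q _) k hk
    calc E T * ∑ s, GG q (sT q s T) ≤ E T * (2 * Y T +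
      ∑ s, ∑ s' ∈ univ.filter (fun s' : Fin K → Bool => s' ≠ s ∧ s' ≠ fun j => !(s j)),
        √(GG q (sT q s T) * GG q (sT q s' T))) := mul_le_mul_of_nonneg_left h4 (hE0 T)
      _ = _ := by
        rw [mul_add]
        congr 1
        · ring
        · rw [mul_sum]
          exact sum_congr rfl fun s _ => by rw [mul_sum]
  refine (sum_le_sum fun T _ => h3 T).trans ?_
  rw [sum_add_distrib, ← mul_sum]
  have hR : ∀ B : ℝ, phi q ^ K * B / S ^ K = (phi q / S) ^ K * B := by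
    intro B
    rw [div_pow]
    ring
  have hkk : 1 ≤ 2 * k := by omega
  have hk0 : ((2 * k : ℕ) : ℝ) ≠ 0 := by
    have : 0 < k := hk
    positivity
  have hY0 : ∀ T, 0 ≤ Y T := fun T => Real.rpow_nonneg (sum_nonneg fun s _ =>
    pow_nonneg (zero_le_one.trans (GG_ge q _)) _) _
  have h5 : ∑ T, E T * Y T ≤ S ^ K * (2 ^ K * ((phi q / S) ^ K * MQ q K ((K - 1) * (2 * k)))) ^ (1 / ((2 * k : ℕ) : ℝ)) := by
    have h6 := jensen univ E Y (fun T _ => hE0 T) (fun T _ => hY0 T) (S ^ K)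
      (2 ^ K * (phi q ^ K * MQ q K ((K - 1) * (2 * k)))) hSK hES (2 * k) hkk (by
        have h7 : ∀ T, E T * Y T ^ (2 * k) = ∑ s, E T * GG q (sT q s T) ^ (2 * k) := by
          intro T
          rw [← mul_sum]
          congr 1
          rw [hY]
          simp only
          rw [← Real.rpow_natCast, ← Real.rpow_mul (sum_nonneg fun s _ =>
            pow_nonneg (zero_le_one.trans (GG_ge q _)) _), one_div_mul_cancel hk0, Real.rpow_one]
        rw [sum_congr rfl fun T _ => h7 T, sum_comm]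
        refine (sum_le_sum fun s _ => mom_one q (by omega) (2 * k) e he0 he1 s).trans (le_of_eq ?_)
        rw [sum_const, nsmul_eq_mul]
        congr 1
        simp)
    have h8 : 2 ^ K * (phi q ^ K * MQ q K ((K - 1) * (2 * k))) / S ^ K =
        2 ^ K * ((phi q / S) ^ K * MQ q K ((K - 1) * (2 * k))) := by
      rw [← hR]
      ring
    rw [h8] at h6
    exact h6
  have h6 : ∀ s : Fin K → Bool, ∀ s' ∈ univ.filter (fun s' : Fin K → Bool => s' ≠ s ∧ s' ≠ fun j => !(s j)),
      ∑ T, E T * √(GG q (sT q s T) * GG q (sT q s' T)) ≤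
        S ^ K * ((phi q / S) ^ K * MQ q K ((2 * K - 3) * k)) ^ (1 / ((2 * k : ℕ) : ℝ)) := by
    intro s s' hs'
    rw [mem_filter] at hs'
    have h7 := jensen univ E (fun T => √(GG q (sT q s T) * GG q (sT q s' T))) (fun T _ => hE0 T)
      (fun T _ => Real.sqrt_nonneg _) (S ^ K) (phi q ^ K * MQ q K ((2 * K - 3) * k)) hSK hES (2 * k) hkk (by
        have h8 := mom_two q hK k e he0 he1 s s' hs'.2.1 hs'.2.2
        refine le_trans (le_of_eq ?_) h8
        apply sum_congr rfl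
        intro T _
        rw [pow_mul, Real.sq_sqrt (mul_nonneg (zero_le_one.trans (GG_ge q _)) (zero_le_one.trans (GG_ge q _)))])
    rw [hR] at h7
    exact h7
  have h7 : ∑ T, ∑ s, ∑ s' ∈ univ.filter (fun s' : Fin K → Bool => s' ≠ s ∧ s' ≠ fun j => !(s j)),
        E T * √(GG q (sT q s T) * GG q (sT q s' T)) ≤
      4 ^ K * (S ^ K * ((phi q / S) ^ K * MQ q K ((2 * K - 3) * k)) ^ (1 / ((2 * k : ℕ) : ℝ))) := by
    rw [sum_comm]
    have hB0 : 0 ≤ S ^ K * ((phi q / S) ^ K * MQ q K ((2 * K - 3) * k)) ^ (1 / ((2 * k : ℕ) : ℝ)) := by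
      apply mul_nonneg hSK.le
      apply Real.rpow_nonneg
      apply mul_nonneg (pow_nonneg (div_nonneg hphi.le hS0.le) _)
      unfold MQ
      apply prod_nonneg
      intro i _
      have h8 := one_le_pow₀ (xl_ge (q i)) (n := (2 * K - 3) * k)
      have h9 := two_le (q i)
      have h10 : 0 ≤ ((2 * K ^ 2 : ℕ) : ℝ) / ((q i : ℝ) - 1) * (xl (q i) ^ ((2 * K - 3) * k) - 1) := by
        apply mul_nonneg
        · apply div_nonneg (Nat.cast_nonneg _)
          linarith
        · linarith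
      linarith
    have h8 : ∀ s : Fin K → Bool, ∑ T, ∑ s' ∈ univ.filter (fun s' : Fin K → Bool => s' ≠ s ∧ s' ≠ fun j => !(s j)),
        E T * √(GG q (sT q s T) * GG q (sT q s' T)) ≤
      2 ^ K * (S ^ K * ((phi q / S) ^ K * MQ q K ((2 * K - 3) * k)) ^ (1 / ((2 * k : ℕ) : ℝ))) := by
      intro s
      rw [sum_comm]
      refine (sum_le_sum fun s' hs' => h6 s s' hs').trans ?_
      rw [sum_const, nsmul_eq_mul]
      apply mul_le_mul_of_nonneg_right _ hB0
      have h9 : (univ.filter (fun s' : Fin K → Bool => s' ≠ s ∧ s' ≠ fun j => !(s j))).card ≤ 2 ^ K := by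
        refine (card_le_univ _).trans ?_
        simp
      exact_mod_cast h9
    refine (sum_le_sum fun s _ => h8 s).trans ?_
    rw [sum_const, nsmul_eq_mul]
    have h9 : ((univ : Finset (Fin K → Bool)).card : ℝ) = 2 ^ K := by
      simp
    rw [h9, ← mul_assoc, ← mul_pow]
    norm_num
  have h8 : S ^ K * (2 * (2 ^ K * ((phi q / S) ^ K * MQ q K ((K - 1) * (2 * k)))) ^ (1 / ((2 * k : ℕ) : ℝ)) +
        4 ^ K * ((phi q / S) ^ K * MQ q K ((2 * K - 3) * k)) ^ (1 / ((2 * k : ℕ) : ℝ))) =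
      2 * (S ^ K * (2 ^ K * ((phi q / S) ^ K * MQ q K ((K - 1) * (2 * k)))) ^ (1 / ((2 * k : ℕ) : ℝ))) +
      4 ^ K * (S ^ K * ((phi q / S) ^ K * MQ q K ((2 * K - 3) * k)) ^ (1 / ((2 * k : ℕ) : ℝ))) := by
    ring
  rw [h8]
  linarith

end glob

end Pool.Agent.K9h13.RD
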