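import Mathlib
import Pool.Agent.K9h13.RD.SM2

/-! Symmetrised moments modulo a primorial. -/

set_option autoImplicit false

namespace Pool.Agent.K9h13.RD

open Finset
open Pool.Agent.TH881 Pool.Agent.TH881.RG
open Pool.Agent.H373R2.T7
open Pool.Agent.TH703.RGA

/-- the symmetrised sum modulo `Wp w` -/
noncomputable def vv (w : ℕ) (e : ZMod (Wp w) → ℝ) (a : ZMod (Wp w)) : ℝ := rr w e a + rr w e (-a)

open Classical in
theorem symm_ineq (w K k : ℕ) (hw : 2 ≤ w) (hK : 2 ≤ K) (hk : 1 ≤ k) (e : ZMod (Wp w) → ℝ)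
    (he0 : ∀ t, 0 ≤ e t) (he1 : ∀ t, e t ≤ 1) (S : ℝ) (hS : S = ∑ t, e t * wt w t) (hS0 : 0 < S) :
    (∑ a ∈ univ.filter (fun a : ZMod (Wp w) => IsUnit a), vv w e a ^ K) / Nat.totient (Wp w) ≤
      S ^ K * (2 * (2 ^ K * (((Nat.totient (Wp w) : ℝ) / S) ^ K * MM (2 * K ^ 2) ((K - 1) * (2 * k)) w)) ^
          (1 / ((2 * k : ℕ) : ℝ)) +
        4 ^ K * (((Nat.totient (Wp w) : ℝ) / S) ^ K * MM (2 * K ^ 2) ((2 * K - 3) * k) w) ^ (1 / ((2 * k : ℕ) : ℝ))) := by
  let ι : Type := {p : ℕ // p ∈ pz w}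
  let q : ι → ℕ := fun i => i.1
  have hprime : ∀ i : ι, (q i).Prime := fun i => (mem_pz.1 i.2).2
  have : ∀ i : ι, Fact (q i).Prime := fun i => ⟨hprime i⟩
  have hW : Wp w = ∏ i : ι, q i := by
    unfold Wp
    exact (prod_coe_sort (pz w) (fun p => p)).symm
  have hcop : Pairwise (Function.onFun Nat.Coprime q) := by
    intro i j hij
    show Nat.Coprime (q i) (q j)
    rw [Nat.coprime_primes (hprime i) (hprime j)]
    exact fun h => hij (Subtype.ext h)
  have hφ : Nonempty (ZMod (Wp w) ≃+* ∀ i, ZMod (q i)) := by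
    rw [hW]
    exact ⟨ZMod.prodEquivPi q hcop⟩
  obtain ⟨φ⟩ := hφ
  have hunit : ∀ x : ZMod (Wp w), IsUnit x ↔ Un q (φ x) := by
    intro x
    rw [← MulEquiv.isUnit_map φ, Pi.isUnit_iff]
    exact forall_congr' fun i => isUnit_iff_ne_zero
  have htot : (Nat.totient (Wp w) : ℝ) = phi q := by
    unfold Wp phi
    rw [Pool.Agent.TH703.RG.totient_prod _ (fun p hp => (mem_pz.1 hp).2), Nat.cast_prod,
      ← prod_coe_sort (pz w) (fun p => ((p - 1 : ℕ) : ℝ))]
    apply prod_congr rfl
    intro i _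
    rw [Nat.cast_sub (hprime i).one_le]
    push_cast
    rfl
  have hMM : ∀ L, MM (2 * K ^ 2) L w = MQ q K L := by
    intro L
    unfold MM MQ
    rw [prod_filter, ← prod_coe_sort (pz w)]
    apply prod_congr rfl
    intro i _
    show (if 2 < q i then _ else _) = _
    by_cases h2 : 2 < q i
    · rw [if_pos h2]
      have : xl (q i) = ((q i : ℝ) - 1) / ((q i : ℝ) - 2) := by
        unfold xl
        rw [if_neg (by omega)]
      rw [this]
    · rw [if_neg h2]
      have h3 : q i = 2 := by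
        have := (hprime i).two_le
        omega
      have : xl (q i) = 1 := by
        unfold xl
        rw [if_pos h3]
      rw [this]
      simp
  have hwt : ∀ t, wt w t = wg q (φ t) := by
    intro t
    unfold wt wg
    rw [htot]
    congr 2
    apply card_bij (fun a _ => φ a)
    · intro a ha
      rw [mem_filter] at ha ⊢
      refine ⟨mem_univ _, (hunit a).1 ha.2.1, ?_⟩
      rw [← map_sub]
      exact (hunit _).1 ha.2.2
    · intro a _ b _ h
      exact φ.injective h
    · intro b hb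
      refine ⟨φ.symm b, ?_, φ.apply_symm_apply b⟩
      rw [mem_filter] at hb ⊢
      refine ⟨mem_univ _, ?_, ?_⟩
      · rw [hunit, φ.apply_symm_apply]
        exact hb.2.1
      · rw [hunit, map_sub, φ.apply_symm_apply]
        exact hb.2.2
  have hS' : S = ∑ t, (fun t => e (φ.symm t)) t * wg q t := by
    rw [hS]
    apply Fintype.sum_equiv φ.toEquiv
    intro t
    show e t * wt w t = e (φ.symm (φ t)) * wg q (φ t)
    rw [φ.symm_apply_apply, hwt]
  have main := symm_prod q K k hK hk (fun t => e (φ.symm t)) (fun t => he0 _) (fun t => he1 _) S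
    hS' hS0
  rw [htot, hMM, hMM]
  refine le_trans (le_of_eq ?_) main
  refine congrArg (fun z : ℝ => z / phi q) ?_
  apply sum_bij (fun a _ => φ a)
  · intro a ha
    rw [mem_filter] at ha ⊢
    exact ⟨mem_univ _, (hunit a).1 ha.2⟩
  · intro a _ b _ h
    exact φ.injective h
  · intro b hb
    refine ⟨φ.symm b, ?_, φ.apply_symm_apply b⟩
    rw [mem_filter] at hb ⊢
    refine ⟨mem_univ _, ?_⟩
    rw [hunit, φ.apply_symm_apply]
    exact hb.2
  · intro a _
    refine congrArg (fun z : ℝ => z ^ K) ?_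
    unfold vv rr VV
    rw [← sum_add_distrib]
    apply Fintype.sum_equiv φ.toEquiv
    intro t
    show (if IsUnit (t - a) then e t else 0) + (if IsUnit (t - -a) then e t else 0) =
      e (φ.symm (φ t)) * ((if Un q (φ t - φ a) then 1 else 0) + (if Un q (φ t + φ a) then 1 else 0))
    rw [φ.symm_apply_apply, ← map_sub, ← map_add, sub_neg_eq_add, mul_add]
    refine congrArg₂ (fun z z' : ℝ => z + z') ?_ ?_
    · by_cases h : IsUnit (t - a)
      · rw [if_pos h, if_pos ((hunit _).1 h), mul_one]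
      · rw [if_neg h, if_neg (fun h' => h ((hunit _).2 h')), mul_zero]
    · by_cases h : IsUnit (t + a)
      · rw [if_pos h, if_pos ((hunit _).1 h), mul_one]
      · rw [if_neg h, if_neg (fun h' => h ((hunit _).2 h')), mul_zero]

end Pool.Agent.K9h13.RD
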