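import Mathlib
import Pool.Agent.K9h13.RD.SM3
import Pool.Agent.TH881.RG.In
import Pool.Agent.TH881.RG.Fx

/-! The symmetrised local theorem. -/

set_option autoImplicit false

namespace Pool.Agent.K9h13.RD

open Finset
open Pool.Agent.TH881 Pool.Agent.TH881.RG
open Pool.Agent.H373R2.T7

lemma isUnit_neg_iff' {R : Type*} [Ring R] (a : R) : IsUnit (-a) ↔ IsUnit a := IsUnit.neg_iff a

lemma vv_nonneg {w : ℕ} {e : ZMod (Wp w) → ℝ} (he : ∀ t, 0 ≤ e t) (a : ZMod (Wp w)) : 0 ≤ vv w e a :=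
  add_nonneg (rr_nonneg he _) (rr_nonneg he _)

/-- a power of a root of `MM` -/
lemma mm_root (M Z L m : ℝ) (hM : 0 ≤ M) (hL : 0 < L) (hm : 0 < m) (h : M ^ (1 / L) ≤ Z) :
    M ^ (1 / m) ≤ Z ^ (L / m) := by
  have h1 : M ^ (1 / m) = (M ^ (1 / L)) ^ (L / m) := by
    rw [← Real.rpow_mul hM]
    congr 1
    field_simp
  rw [h1]
  exact Real.rpow_le_rpow (Real.rpow_nonneg hM _) h (by positivity)

lemma MM_nonneg' (K k w : ℕ) : 0 ≤ MM K k w := by
  unfold MM
  apply prod_nonneg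
  intro p hp
  rw [mem_filter] at hp
  have h3 : (3 : ℝ) ≤ p := by exact_mod_cast hp.2
  have h5 : 1 ≤ ((p : ℝ) - 1) / (p - 2) := by
    rw [le_div_iff₀ (by linarith)]
    linarith
  have h6 := one_le_pow₀ (n := k) h5
  have h7 : 0 ≤ ((K : ℝ) / ((p : ℝ) - 1)) * ((((p : ℝ) - 1) / ((p : ℝ) - 2)) ^ k - 1) := by
    apply mul_nonneg
    · apply div_nonneg (Nat.cast_nonneg _)
      linarith
    · linarith
  linarith

/-- **Symmetrised local theorem.** -/
theorem local_thm2 (δ : ℝ) (hδ : 0 < δ) :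
    ∃ h0 : ℝ, 0 < h0 ∧ h0 < 1 / 16 ∧ ∀ h : ℝ, 0 < h → h ≤ h0 → ∀ w : ℕ, 2 ≤ w →
    ∀ e : ZMod (Wp w) → ℝ, (∀ t, 0 ≤ e t) → (∀ t, e t ≤ 1) → (∀ t, wt w t = 0 → e t = 0) →
    h * Wp w ≤ ∑ t, e t → ∀ β : ZMod (Wp w) → ℝ, (∀ a, 0 ≤ β a) → (∀ a, β a ≤ 1) →
    ∀ lam : ℝ, 0 ≤ lam → lam ≤ 1 → lam * ∑ a ∈ UU w, rr w e a ≤ ∑ a ∈ UU w, β a * vv w e a →
    (lam * (2 * C2 * Real.exp (-Real.eulerMascheroniConstant)) - δ) * Nat.totient (Wp w) ≤
      Real.log (Real.log (1 / h)) * ∑ a ∈ UU w, β a := by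
  classical
  have hC2 : 0 ≤ C2 := C2_nonneg
  have hC2' : 0 < C2 := by
    have := Pool.Agent.TH370.J1233.C2_ge
    linarith
  have hC2'' : C2 ≤ 1 := C2_le_one
  obtain ⟨c, hc, hc1⟩ := stWL
  set γ := Real.eulerMascheroniConstant with hγ
  set G := 2 * C2 * Real.exp (-γ) with hG
  have hG0 : 0 ≤ G := by positivity
  obtain ⟨δ1, δ2, hδ1, hδ1', hδ2, hδ2', halg⟩ := loc_alg G δ hG0 hδ
  -- the exponent K
  obtain ⟨n, hn, hn1⟩ : ∃ n : ℕ, 5 * (1 - δ2) ^ n < δ2 ∧ 1 ≤ n := by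
    obtain ⟨n, hn⟩ := exists_pow_lt_of_lt_one (show 0 < δ2 / 5 by positivity) (show 1 - δ2 < 1 by linarith)
    refine ⟨n + 1, ?_, by omega⟩
    rw [pow_succ]
    have h1 : 0 ≤ (1 - δ2) ^ n := pow_nonneg (by linarith) n
    linarith only [mul_nonneg h1 hδ2.le, hn]
  obtain ⟨k0, hk0⟩ := stMB (2 * (n + 1) ^ 2) δ1 hδ1
  obtain ⟨g1, hg1⟩ : ∃ g1 : ℝ, g1 = (1 + δ1) * (Real.exp γ / (2 * C2)) := ⟨_, rfl⟩
  have hg1pos : 1 / 2 ≤ g1 := by
    have h1 : 1 ≤ Real.exp γ := Real.one_le_exp (by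
      have := Real.one_half_lt_eulerMascheroniConstant
      linarith)
    have h2 : 1 / 2 ≤ Real.exp γ / (2 * C2) := by
      rw [div_le_div_iff₀ (by norm_num) (by positivity)]
      linarith only [h1, hC2'']
    rw [hg1]
    linarith only [mul_nonneg hδ1.le (show (0 : ℝ) ≤ Real.exp γ / (2 * C2) by linarith only [h2]), h2]
  -- largeness of `T = log (1/h)`
  have hev : ∀ᶠ T : ℝ in Filter.atTop, 4 ≤ T ∧ (k0 : ℝ) ≤ T ∧ Real.log (1 / c) ≤ T ∧ 0 ≤ Real.log T ∧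
      Real.log (6 * (n + 1) ^ 2 * (T + 1)) ≤ (1 + δ1) * Real.log T ∧
      (2 * (4 : ℝ) ^ (n + 1)) ^ 2 ≤ g1 * Real.log T := by
    have h1 : ∀ᶠ T : ℝ in Filter.atTop, Real.log (12 * (n + 1) ^ 2) ≤ δ1 * Real.log T := by
      have := (Real.tendsto_log_atTop.const_mul_atTop hδ1).eventually_ge_atTop (Real.log (12 * (n + 1) ^ 2))
      exact this
    have h0 : ∀ᶠ T : ℝ in Filter.atTop, (2 * (4 : ℝ) ^ (n + 1)) ^ 2 ≤ g1 * Real.log T :=
      (Real.tendsto_log_atTop.const_mul_atTop (show 0 < g1 by linarith)).eventually_ge_atTop _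
    filter_upwards [h1, Filter.eventually_ge_atTop 4, Filter.eventually_ge_atTop (k0 : ℝ),
      Filter.eventually_ge_atTop (Real.log (1 / c)), h0] with T h1 h2 h3 h4 h0
    refine ⟨h2, h3, h4, Real.log_nonneg (by linarith), ?_, h0⟩
    have h5 : Real.log (6 * (n + 1) ^ 2 * (T + 1)) ≤ Real.log ((12 * (n + 1) ^ 2) * T) := by
      apply Real.log_le_log (by positivity)
      have : (0 : ℝ) ≤ ((n : ℝ) + 1) ^ 2 := by positivity
      linarith only [mul_nonneg this (show (0 : ℝ) ≤ T - 1 by linarith only [h2])]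
    have h6 : Real.log ((12 * (n + 1) ^ 2) * T) = Real.log (12 * (n + 1) ^ 2) + Real.log T :=
      Real.log_mul (by positivity) (by linarith)
    linarith
  obtain ⟨T0, hT0⟩ := Filter.eventually_atTop.1 hev
  refine ⟨min (1 / 32) (Real.exp (-T0)), by positivity, lt_of_le_of_lt (min_le_left _ _) (by norm_num), ?_⟩
  intro h hh hh0 w hw e he0 he1 hew hsum β hβ0 hβ1 lam hl0 hl1 hlam
  have hT1 : T0 ≤ Real.log (1 / h) := by
    have h1 : h ≤ Real.exp (-T0) := hh0.trans (min_le_right _ _)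
    rw [one_div, Real.log_inv]
    have := Real.log_le_log hh h1
    rw [Real.log_exp] at this
    linarith
  obtain ⟨t1, t2, t3, t4, t5, t6⟩ := hT0 _ hT1
  set T := Real.log (1 / h) with hT
  have hφ := totient_Wp_pos w
  set φ := (Nat.totient (Wp w) : ℝ) with hφd
  set S := ∑ t, e t * wt w t with hS
  have hWr : (0 : ℝ) < Wp w := by exact_mod_cast Wp_pos w
  have hSl : c * h ^ 2 ≤ S / φ := by
    refine le_trans ?_ (hc1 w hw e he0 he1 hew)
    apply mul_le_mul_of_nonneg_left _ hc.le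
    apply pow_le_pow_left₀ hh.le
    rw [le_div_iff₀ hWr]
    exact hsum
  have hS0 : 0 < S := by
    have : 0 < S / φ := lt_of_lt_of_le (by positivity) hSl
    rwa [lt_div_iff₀ hφ, zero_mul] at this
  -- the exponent k
  obtain ⟨k, hk⟩ : ∃ k : ℕ, k = 3 * (n + 1) * ⌈T⌉₊ := ⟨_, rfl⟩
  have hTc : T ≤ ⌈T⌉₊ := Nat.le_ceil T
  have hTc2 : (⌈T⌉₊ : ℝ) ≤ T + 1 := (Nat.ceil_lt_add_one (by linarith)).le
  have hkr : (k : ℝ) = 3 * (n + 1) * ⌈T⌉₊ := by rw [hk]; push_cast; ring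
  have hn0 : (0 : ℝ) ≤ n := Nat.cast_nonneg n
  have hn1r : (1 : ℝ) ≤ n := by exact_mod_cast hn1
  have hkT : 3 * (n + 1) * T ≤ k := by
    rw [hkr]
    exact mul_le_mul_of_nonneg_left hTc (by positivity)
  have hkT2 : T ≤ k := by
    have : T ≤ 3 * (n + 1) * T := by
      have hT0' : 0 ≤ T := by linarith only [t1]
      linarith only [mul_nonneg hn0 hT0', hT0']
    linarith only [this, hkT]
  have hkpos : (0 : ℝ) < k := by linarith
  have hk1 : 1 ≤ k := by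
    have : 0 < k := by exact_mod_cast hkpos
    omega
  have hkk0 : k0 ≤ k := by
    have : (k0 : ℝ) ≤ k := by linarith
    exact_mod_cast this
  -- the bound `Z`
  obtain ⟨Z, hZ⟩ : ∃ Z : ℝ, Z = g1 * Real.log (6 * (n + 1) ^ 2 * (T + 1)) := ⟨_, rfl⟩
  have hg1' : 0 < g1 := by linarith
  have hZT : g1 * Real.log T ≤ Z := by
    rw [hZ]
    apply mul_le_mul_of_nonneg_left _ hg1'.le
    apply Real.log_le_log (by linarith)
    have : (1 : ℝ) ≤ ((n : ℝ) + 1) ^ 2 := one_le_pow₀ (by linarith only [hn0])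
    linarith only [mul_le_mul_of_nonneg_right this (show (0 : ℝ) ≤ T + 1 by linarith only [t1]), t1]
  have hZbig : (2 * (4 : ℝ) ^ (n + 1)) ^ 2 ≤ Z := t6.trans hZT
  have hZpos : 0 < Z := lt_of_lt_of_le (by positivity) hZbig
  have hMZ : ∀ L : ℕ, k ≤ L → (L : ℝ) ≤ 2 * (n + 1) * k → MM (2 * (n + 1) ^ 2) L w ^ (1 / (L : ℝ)) ≤ Z := by
    intro L hL1 hL2
    have h1 := hk0 L (hkk0.trans hL1) w
    rw [← hg1] at h1
    refine h1.trans ?_
    rw [hZ]
    apply mul_le_mul_of_nonneg_left _ hg1'.le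
    have hLpos : (0 : ℝ) < L := by
      have : (k : ℝ) ≤ L := by exact_mod_cast hL1
      linarith
    apply Real.log_le_log hLpos
    refine hL2.trans ?_
    rw [hkr]
    calc 2 * ((n : ℝ) + 1) * (3 * (n + 1) * ⌈T⌉₊) = 6 * (n + 1) ^ 2 * ⌈T⌉₊ := by ring
      _ ≤ _ := mul_le_mul_of_nonneg_left hTc2 (by positivity)
  have hsymm := symm_ineq w (n + 1) k hw (by omega) hk1 e he0 he1 S rfl hS0
  have hfil : univ.filter (fun a : ZMod (Wp w) => IsUnit a) = UU w := by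
    ext a
    simp [mem_UU]
  rw [hfil] at hsymm
  have h2k : (0 : ℝ) < ((2 * k : ℕ) : ℝ) := by push_cast; linarith
  -- the factor from the density
  have hdens : (2 ^ (n + 1) * (φ / S) ^ (n + 1)) ^ (1 / ((2 * k : ℕ) : ℝ)) ≤ 2 := by
    have h1 : φ / S ≤ 1 / (c * h ^ 2) := by
      rw [div_le_div_iff₀ hS0 (by positivity)]
      rw [le_div_iff₀ hφ] at hSl
      linarith
    have h2 : 0 < φ / S := by positivity
    have h3 : Real.log (2 * (φ / S)) ≤ 4 * T := by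
      have h4 := Real.log_le_log h2 h1
      have h5 : Real.log (1 / (c * h ^ 2)) = Real.log (1 / c) + 2 * T := by
        rw [hT, one_div, one_div, one_div, Real.log_inv, Real.log_inv, Real.log_inv,
          Real.log_mul hc.ne' (by positivity), Real.log_pow]
        push_cast
        ring
      rw [Real.log_mul (by norm_num) h2.ne']
      have := Real.log_two_lt_d9
      linarith
    have h2' : 0 < 2 * (φ / S) := by positivity
    rw [← mul_pow, ← Real.rpow_natCast, ← Real.rpow_mul h2'.le, Real.rpow_def_of_pos h2']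
    have h6 : Real.log (2 * (φ / S)) * (((n + 1 : ℕ) : ℝ) * (1 / ((2 * k : ℕ) : ℝ))) ≤ 2 / 3 := by
      rw [mul_one_div, ← mul_div_assoc, div_le_iff₀ h2k]
      push_cast
      calc Real.log (2 * (φ / S)) * ((n : ℝ) + 1) ≤ (4 * T) * (n + 1) := mul_le_mul_of_nonneg_right h3 (by positivity)
        _ = 2 / 3 * (2 * (3 * (n + 1) * T)) := by ring
        _ ≤ _ := by linarith
    calc Real.exp (Real.log (2 * (φ / S)) * (((n + 1 : ℕ) : ℝ) * (1 / ((2 * k : ℕ) : ℝ)))) ≤ Real.exp (2 / 3) :=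
          Real.exp_le_exp.2 h6
      _ ≤ 2 := by
        have h7 : (2 / 3 : ℝ) ≤ Real.log 2 := by
          have := Real.log_two_gt_d9
          linarith
        calc Real.exp (2 / 3) ≤ Real.exp (Real.log 2) := Real.exp_le_exp.2 h7
          _ = 2 := Real.exp_log (by norm_num)
  have hden2 : ((φ / S) ^ (n + 1)) ^ (1 / ((2 * k : ℕ) : ℝ)) ≤ 2 := by
    refine le_trans ?_ hdens
    apply Real.rpow_le_rpow (by positivity) _ (by positivity)
    have : (1 : ℝ) ≤ 2 ^ (n + 1) := one_le_pow₀ (by norm_num)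
    exact le_mul_of_one_le_left (by positivity) this
  -- first term
  have hfirst : (2 ^ (n + 1) * ((φ / S) ^ (n + 1) * MM (2 * (n + 1) ^ 2) ((n + 1 - 1) * (2 * k)) w)) ^
      (1 / ((2 * k : ℕ) : ℝ)) ≤ 2 * Z ^ n := by
    rw [← mul_assoc, Real.mul_rpow (by positivity) (MM_nonneg' _ _ _)]
    have hL : (((n + 1 - 1) * (2 * k) : ℕ) : ℝ) = n * (2 * k) := by
      rw [Nat.add_sub_cancel]
      push_cast
      ring
    have h1 := hMZ ((n + 1 - 1) * (2 * k)) (by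
      rw [Nat.add_sub_cancel]
      calc k ≤ 2 * k := Nat.le_mul_of_pos_left k (by norm_num)
        _ ≤ n * (2 * k) := Nat.le_mul_of_pos_left _ (by omega)) (by
      rw [hL]
      linarith only [hkpos])
    have h2 := mm_root _ Z _ ((2 * k : ℕ) : ℝ) (MM_nonneg' _ _ _) (by rw [hL]; positivity) h2k h1
    have h3 : (((n + 1 - 1) * (2 * k) : ℕ) : ℝ) / ((2 * k : ℕ) : ℝ) = n := by
      rw [hL]
      push_cast
      field_simp
    rw [h3, Real.rpow_natCast] at h2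
    exact mul_le_mul hdens h2 (Real.rpow_nonneg (MM_nonneg' _ _ _) _) (by norm_num)
  -- second term
  have hsecond : ((φ / S) ^ (n + 1) * MM (2 * (n + 1) ^ 2) ((2 * (n + 1) - 3) * k) w) ^
      (1 / ((2 * k : ℕ) : ℝ)) ≤ 2 * (Z ^ n / √Z) := by
    rw [Real.mul_rpow (by positivity) (MM_nonneg' _ _ _)]
    have hL : (((2 * (n + 1) - 3) * k : ℕ) : ℝ) = (2 * n - 1) * k := by
      have : 2 * (n + 1) - 3 = 2 * n - 1 := by omega
      rw [this]
      rw [Nat.cast_mul, Nat.cast_sub (by omega)]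
      push_cast
      ring
    have h1 := hMZ ((2 * (n + 1) - 3) * k) (Nat.le_mul_of_pos_left k (by omega)) (by
      rw [hL]
      linarith only [hkpos])
    have h2 := mm_root _ Z _ ((2 * k : ℕ) : ℝ) (MM_nonneg' _ _ _) (by
      rw [hL]
      have : (0 : ℝ) < 2 * n - 1 := by linarith
      positivity) h2k h1
    have h3 : (((2 * (n + 1) - 3) * k : ℕ) : ℝ) / ((2 * k : ℕ) : ℝ) = (n : ℝ) - 1 / 2 := by
      rw [hL]
      push_cast
      field_simp
    rw [h3, Real.rpow_sub hZpos, Real.rpow_natCast, ← Real.sqrt_eq_rpow] at h2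
    exact mul_le_mul hden2 h2 (Real.rpow_nonneg (MM_nonneg' _ _ _) _) (by norm_num)
  have hmom : (∑ a ∈ UU w, vv w e a ^ (n + 1)) / φ ≤ S ^ (n + 1) * (5 * Z ^ n) := by
    refine hsymm.trans ?_
    apply mul_le_mul_of_nonneg_left _ (by positivity)
    have hsq : 2 * (4 : ℝ) ^ (n + 1) ≤ √Z := Real.le_sqrt_of_sq_le hZbig
    have hsq0 : 0 < √Z := Real.sqrt_pos.2 hZpos
    have h1 : (4 : ℝ) ^ (n + 1) * (2 * (Z ^ n / √Z)) ≤ Z ^ n := by
      calc (4 : ℝ) ^ (n + 1) * (2 * (Z ^ n / √Z)) = (2 * (4 : ℝ) ^ (n + 1)) / √Z * Z ^ n := by ring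
        _ ≤ 1 * Z ^ n := by
            apply mul_le_mul_of_nonneg_right _ (by positivity)
            rw [div_le_one hsq0]
            exact hsq
        _ = _ := one_mul _
    have h2 : (4 : ℝ) ^ (n + 1) * ((φ / S) ^ (n + 1) * MM (2 * (n + 1) ^ 2) ((2 * (n + 1) - 3) * k) w) ^
      (1 / ((2 * k : ℕ) : ℝ)) ≤ Z ^ n := (mul_le_mul_of_nonneg_left hsecond (by positivity)).trans h1
    linarith
  -- power mean
  set b := (∑ a ∈ UU w, β a) / φ with hb
  have hb0 : 0 ≤ b := div_nonneg (sum_nonneg fun a _ => hβ0 a) hφ.le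
  have hpm := pow_mean (UU w) β (vv w e) (fun a _ => hβ0 a) (fun a _ => hβ1 a) (fun a _ => vv_nonneg he0 a) n
  have hkey : lam ^ (n + 1) ≤ 5 * (b * Z) ^ n := by
    have h1 : (lam * (φ * S)) ^ (n + 1) ≤ (∑ a ∈ UU w, β a) ^ n * ∑ a ∈ UU w, vv w e a ^ (n + 1) := by
      refine le_trans ?_ hpm
      apply pow_le_pow_left₀ (by positivity)
      rw [← sum_rr]
      exact hlam
    have h2 : ∑ a ∈ UU w, β a = φ * b := by rw [hb]; field_simp
    have h3 : ∑ a ∈ UU w, vv w e a ^ (n + 1) ≤ φ * (S ^ (n + 1) * (5 * Z ^ n)) := by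
      rw [div_le_iff₀ hφ] at hmom
      linarith
    rw [h2] at h1
    have h4 : (lam * (φ * S)) ^ (n + 1) ≤ (φ * b) ^ n * (φ * (S ^ (n + 1) * (5 * Z ^ n))) :=
      h1.trans (mul_le_mul_of_nonneg_left h3 (by positivity))
    have h5 : (φ * b) ^ n * (φ * (S ^ (n + 1) * (5 * Z ^ n))) = (5 * (b * Z) ^ n) * (φ * S) ^ (n + 1) := by
      rw [mul_pow, mul_pow, mul_pow, pow_succ φ n]
      ring
    rw [h5, mul_pow] at h4
    exact le_of_mul_le_mul_right h4 (by positivity)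
  have hbQ : lam - δ2 ≤ b * Z := by
    by_contra hcon
    push Not at hcon
    have h1 : 0 ≤ b * Z := by positivity
    have h2 : δ2 < lam := by linarith
    have h3 : lam - δ2 ≤ lam * (1 - δ2) := by linarith only [mul_le_mul_of_nonneg_right hl1 hδ2.le]
    have h4 : (b * Z) ^ n ≤ (lam * (1 - δ2)) ^ n := pow_le_pow_left₀ h1 (by linarith) n
    have h5 : lam ^ (n + 1) ≤ 5 * (lam * (1 - δ2)) ^ n := by linarith
    have hlp : 0 < lam := by linarith
    have h6 : lam ^ n * lam ≤ lam ^ n * (5 * (1 - δ2) ^ n) := by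
      rw [pow_succ, mul_pow] at h5
      linarith
    have h7 := le_of_mul_le_mul_left h6 (by positivity)
    linarith
  -- conclusion
  have hQ2 : Z ≤ (1 + δ1) * (Real.exp γ / (2 * C2)) * ((1 + δ1) * Real.log T) := by
    rw [hZ, ← hg1]
    exact mul_le_mul_of_nonneg_left t5 hg1'.le
  have hfin : lam * G - δ ≤ Real.log T * b := by
    refine (halg lam hl0 hl1).trans ?_
    rw [div_le_iff₀ (by positivity)]
    have h1 : (lam - δ2) * G ≤ (b * Z) * G := mul_le_mul_of_nonneg_right hbQ hG0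
    have h2 : (b * Z) * G ≤ (b * ((1 + δ1) * (Real.exp γ / (2 * C2)) * ((1 + δ1) * Real.log T))) * G := by
      apply mul_le_mul_of_nonneg_right _ hG0
      exact mul_le_mul_of_nonneg_left hQ2 hb0
    have h3 : (b * ((1 + δ1) * (Real.exp γ / (2 * C2)) * ((1 + δ1) * Real.log T))) * G =
        Real.log T * b * ((1 + δ1) * (1 + δ1)) := by
      rw [hG, Real.exp_neg]
      have := (Real.exp_pos γ).ne'
      field_simp
    linarith
  have h9 : ∑ a ∈ UU w, β a = φ * b := by rw [hb]; field_simp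
  rw [h9]
  calc (lam * G - δ) * φ ≤ (Real.log T * b) * φ := mul_le_mul_of_nonneg_right hfin hφ.le
    _ = _ := by ring

end Pool.Agent.K9h13.RD
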