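import Mathlib
import Pool.Agent.K9h13.RD.DF1

/-! Window inequality for differences. -/

set_option autoImplicit false

namespace Pool.Agent.K9h13.RD

open Finset Filter Topology
open Pool.Agent.TH881
open Pool.Agent.TH881.RG
open Pool.Agent.H373R2.T7

open Classical in
/-- the primes `q ≤ L h` of `A` for which `q + h` is a prime of `A` -/
noncomputable def rdS (L : ℝ) (A : Set ℕ) (h : ℕ) : Finset ℕ :=
  (Icc 1 ⌊L * h⌋₊).filter (fun q => (q.Prime ∧ q ∈ A) ∧ ((q + h).Prime ∧ q + h ∈ A))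

/-- the number of the primes `q ≤ L h` of `A` for which `q + h` is a prime of `A` -/
noncomputable def rd (L : ℝ) (A : Set ℕ) (h : ℕ) : ℕ := (rdS L A h).card

lemma mem_rdS {L : ℝ} {A : Set ℕ} {h q : ℕ} :
    q ∈ rdS L A h ↔ (1 ≤ q ∧ q ≤ ⌊L * h⌋₊) ∧ (q.Prime ∧ q ∈ A) ∧ ((q + h).Prime ∧ q + h ∈ A) := by
  classical
  unfold rdS
  rw [mem_filter, mem_Icc]

open Classical in
/-- pairs whose first prime is not in `A` -/
noncomputable def b1S (L : ℝ) (A : Set ℕ) (h : ℕ) : Finset ℕ :=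
  (Icc 1 ⌊L * h⌋₊).filter (fun q => (q.Prime ∧ q ∉ A) ∧ (q + h).Prime)

open Classical in
/-- pairs whose second prime is not in `A` -/
noncomputable def b2S (L : ℝ) (A : Set ℕ) (h : ℕ) : Finset ℕ :=
  (Icc 1 ⌊L * h⌋₊).filter (fun q => q.Prime ∧ ((q + h).Prime ∧ q + h ∉ A))

lemma mem_b1S {L : ℝ} {A : Set ℕ} {h q : ℕ} :
    q ∈ b1S L A h ↔ (1 ≤ q ∧ q ≤ ⌊L * h⌋₊) ∧ (q.Prime ∧ q ∉ A) ∧ (q + h).Prime := by
  classical
  unfold b1S
  rw [mem_filter, mem_Icc]

lemma mem_b2S {L : ℝ} {A : Set ℕ} {h q : ℕ} :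
    q ∈ b2S L A h ↔ (1 ≤ q ∧ q ≤ ⌊L * h⌋₊) ∧ q.Prime ∧ ((q + h).Prime ∧ q + h ∉ A) := by
  classical
  unfold b2S
  rw [mem_filter, mem_Icc]

lemma rd_diff (L : ℝ) (A : Set ℕ) (h : ℕ) :
    (rd L Set.univ h : ℝ) - rd L A h ≤ (b1S L A h).card + (b2S L A h).card := by
  classical
  have h1 : rdS L Set.univ h ⊆ rdS L A h ∪ (b1S L A h ∪ b2S L A h) := by
    intro q hq
    rw [mem_rdS] at hq
    obtain ⟨h0, ⟨h1, _⟩, h2, _⟩ := hq
    rw [mem_union, mem_union, mem_rdS, mem_b1S, mem_b2S]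
    by_cases ha : q ∈ A
    · by_cases hb : q + h ∈ A
      · exact Or.inl ⟨h0, ⟨h1, ha⟩, h2, hb⟩
      · exact Or.inr (Or.inr ⟨h0, h1, h2, hb⟩)
    · exact Or.inr (Or.inl ⟨h0, ⟨h1, ha⟩, h2⟩)
  have h2 := card_le_card h1
  have h3 := h2.trans ((card_union_le _ _).trans (Nat.add_le_add_left (card_union_le _ _) _))
  have h4 : (rd L Set.univ h : ℝ) ≤ rd L A h + ((b1S L A h).card + (b2S L A h).card) := by exact_mod_cast h3
  linarith

open Classical in
/-- the primes of `(Q, P]` outside `A` -/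
noncomputable def BQ (A : Set ℕ) (N Q P : ℕ) : Finset ℕ := (PQ N Q P).filter (fun p => p ∉ A)

lemma mem_BQ {A : Set ℕ} {N Q P p : ℕ} : p ∈ BQ A N Q P ↔ p ∈ PQ N Q P ∧ p ∉ A := by
  classical
  unfold BQ
  rw [mem_filter]

/-- prime powers -/
lemma vm_not_prime (N : ℕ) (hN : 1 ≤ N) (T : Finset ℕ) (hT : ∀ k ∈ T, 1 ≤ k ∧ k ≤ N ∧ ¬ k.Prime) :
    ∑ k ∈ T, ArithmeticFunction.vonMangoldt k ≤ 2 * √(N : ℝ) * Real.log N := by
  have hN1 : (1 : ℝ) ≤ N := by exact_mod_cast hN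
  have h1 := Chebyshev.psi_sub_theta_eq_sum_not_prime (N : ℝ)
  have h2 := Chebyshev.psi_sub_theta_le hN1
  rw [h1, Nat.floor_natCast] at h2
  refine le_trans ?_ h2
  apply sum_le_sum_of_subset_of_nonneg
  · intro k hk
    obtain ⟨a1, a2, a3⟩ := hT k hk
    rw [mem_filter, mem_Ioc]
    exact ⟨⟨by omega, a2⟩, a3⟩
  · intro _ _ _
    exact ArithmeticFunction.vonMangoldt_nonneg

open Classical in
lemma d1_le (L : ℝ) (N P0 h : ℕ) (hN : 1 ≤ N) (h0 : 1 ≤ h) (hP0 : P0 ≤ ⌊L * h⌋₊) (hh : P0 + h ≤ N) :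
    ∑ b ∈ PQ N 0 P0, ArithmeticFunction.vonMangoldt (h + b) ≤
      Real.log N * rd L Set.univ h + 2 * √(N : ℝ) * Real.log N := by
  rw [← sum_filter_add_sum_filter_not (PQ N 0 P0) (fun b => (h + b).Prime)]
  apply add_le_add
  · have h1 : ∀ b ∈ (PQ N 0 P0).filter (fun b => (h + b).Prime),
        ArithmeticFunction.vonMangoldt (h + b) ≤ Real.log N := by
      intro b hb
      rw [mem_filter, mem_PQ] at hb
      rw [ArithmeticFunction.vonMangoldt_apply_prime hb.2]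
      apply Real.log_le_log
      · exact_mod_cast hb.2.pos
      · have : h + b ≤ N := by omega
        exact_mod_cast this
    refine (sum_le_sum h1).trans ?_
    rw [sum_const, nsmul_eq_mul, mul_comm]
    apply mul_le_mul_of_nonneg_left _ (Real.log_natCast_nonneg N)
    have h2 : (PQ N 0 P0).filter (fun b => (h + b).Prime) ⊆ rdS L Set.univ h := by
      intro b hb
      rw [mem_filter, mem_PQ] at hb
      rw [mem_rdS]
      refine ⟨⟨by omega, by omega⟩, ⟨hb.1.2.1, trivial⟩, ?_, trivial⟩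
      rw [add_comm]
      exact hb.2
    exact_mod_cast card_le_card h2
  · have hinj : Set.InjOn (fun b => h + b) (((PQ N 0 P0).filter (fun b => ¬ (h + b).Prime) : Finset ℕ) : Set ℕ) := by
      intro x _ y _ hxy
      simp only at hxy
      omega
    rw [← sum_image (f := fun k => ArithmeticFunction.vonMangoldt k) hinj]
    apply vm_not_prime N hN
    intro k hk
    rw [mem_image] at hk
    obtain ⟨b, hb, rfl⟩ := hk
    rw [mem_filter, mem_PQ] at hb
    exact ⟨by omega, by omega, hb.2⟩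

/-- primes in the window at a prime distance -/
def TW (Q h : ℕ) : ℕ := ((Ioc h Q).filter (fun p => p.Prime ∧ (p - h).Prime)).card

open Classical in
lemma b1_le (L : ℝ) (A : Set ℕ) (N P h : ℕ) (s : ℝ) (hs0 : 0 < s) (hs1 : s < 1) (hN : 1 ≤ N)
    (hP : ⌊L * h⌋₊ ≤ P) (hh : (N : ℝ) ^ (1 - s) ≤ h) :
    (1 - s) * Real.log N * (b1S L A h).card ≤ ∑ b ∈ BQ A N 0 P, ArithmeticFunction.vonMangoldt (h + b) +
      Real.log N * √(N : ℝ) := by
  have hNr : (1 : ℝ) ≤ N := by exact_mod_cast hN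
  have hL : 0 ≤ Real.log N := Real.log_nonneg hNr
  set G := (BQ A N 0 P).filter (fun b => (h + b).Prime) with hG
  have h1 : ((b1S L A h).card : ℝ) ≤ G.card + √(N : ℝ) := by
    have h2 : b1S L A h ⊆ G ∪ Icc 1 ⌊√(N : ℝ)⌋₊ := by
      intro q hq
      rw [mem_b1S] at hq
      rw [mem_union]
      by_cases c1 : (q : ℝ) ≤ √(N : ℝ)
      · right
        rw [mem_Icc]
        exact ⟨hq.1.1, Nat.le_floor c1⟩
      · left
        push Not at c1
        rw [hG, mem_filter, mem_BQ, mem_PQ]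
        refine ⟨⟨⟨⟨by omega, by omega⟩, hq.2.1.1, c1⟩, hq.2.1.2⟩, ?_⟩
        rw [add_comm]
        exact hq.2.2
    have h3 := (card_le_card h2).trans (card_union_le _ _)
    rw [Nat.card_Icc] at h3
    have h4 : ((b1S L A h).card : ℝ) ≤ G.card + ⌊√(N : ℝ)⌋₊ := by exact_mod_cast h3
    have h5 : (⌊√(N : ℝ)⌋₊ : ℝ) ≤ √(N : ℝ) := Nat.floor_le (Real.sqrt_nonneg _)
    linarith
  have h2 : (1 - s) * Real.log N * G.card ≤ ∑ b ∈ BQ A N 0 P, ArithmeticFunction.vonMangoldt (h + b) := by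
    have h3 : (1 - s) * Real.log N * G.card = ∑ b ∈ G, (1 - s) * Real.log N := by
      rw [sum_const, nsmul_eq_mul]
      ring
    rw [h3]
    have h4 : ∀ b ∈ G, (1 - s) * Real.log N ≤ ArithmeticFunction.vonMangoldt (h + b) := by
      intro b hb
      rw [hG, mem_filter] at hb
      rw [ArithmeticFunction.vonMangoldt_apply_prime hb.2]
      have h6 : (N : ℝ) ^ (1 - s) ≤ ((h + b : ℕ) : ℝ) := by
        push_cast
        have : (0 : ℝ) ≤ b := Nat.cast_nonneg b
        linarith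
      have h5 := Real.log_le_log (Real.rpow_pos_of_pos (by linarith) _) h6
      rwa [Real.log_rpow (by linarith)] at h5
    refine (sum_le_sum h4).trans ?_
    apply sum_le_sum_of_subset_of_nonneg (filter_subset _ _)
    intro _ _ _
    exact ArithmeticFunction.vonMangoldt_nonneg
  have hX0 : 0 ≤ √(N : ℝ) := by positivity
  calc (1 - s) * Real.log N * (b1S L A h).card ≤ (1 - s) * Real.log N * (G.card + √(N : ℝ)) :=
        mul_le_mul_of_nonneg_left h1 (mul_nonneg (by linarith) hL)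
    _ = (1 - s) * Real.log N * G.card + (1 - s) * (Real.log N * √(N : ℝ)) := by ring
    _ ≤ _ := by
        apply add_le_add h2
        exact mul_le_of_le_one_left (mul_nonneg hL hX0) (by linarith)

open Classical in
lemma b2_le (L : ℝ) (A : Set ℕ) (N Q P h : ℕ) (s : ℝ) (hs0 : 0 < s) (hs1 : s < 1) (hN : 1 ≤ N)
    (hP : ⌊L * h⌋₊ + h ≤ P) (hsq : √(N : ℝ) < h) :
    (1 - s) * Real.log N * (b2S L A h).card ≤ ∑ b ∈ BQ A N Q P, ArithmeticFunction.vonMangoldt (b - h) +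
      Real.log N * ((N : ℝ) ^ (1 - s) + TW Q h) := by
  have hNr : (1 : ℝ) ≤ N := by exact_mod_cast hN
  have hL : 0 ≤ Real.log N := Real.log_nonneg hNr
  set G := (BQ A N Q P).filter (fun b => (b - h).Prime ∧ (N : ℝ) ^ (1 - s) < ((b - h : ℕ) : ℝ)) with hG
  have h1 : ((b2S L A h).card : ℝ) ≤ G.card + ((N : ℝ) ^ (1 - s) + TW Q h) := by
    have h2 : (b2S L A h).image (fun q => q + h) ⊆
        G ∪ ((Icc 1 ⌊(N : ℝ) ^ (1 - s)⌋₊).image (fun q => q + h) ∪
          (Ioc h Q).filter (fun p => p.Prime ∧ (p - h).Prime)) := by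
      intro p hp
      rw [mem_image] at hp
      obtain ⟨q, hq, rfl⟩ := hp
      rw [mem_b2S] at hq
      rw [mem_union, mem_union]
      have e1 : q + h - h = q := by omega
      by_cases c1 : (q : ℝ) ≤ (N : ℝ) ^ (1 - s)
      · right; left
        rw [mem_image]
        exact ⟨q, mem_Icc.2 ⟨hq.1.1, Nat.le_floor c1⟩, rfl⟩
      · push Not at c1
        by_cases c2 : Q < q + h
        · left
          rw [hG, mem_filter, mem_BQ, mem_PQ, e1]
          refine ⟨⟨⟨⟨c2, by omega⟩, hq.2.2.1, ?_⟩, hq.2.2.2⟩, hq.2.1, c1⟩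
          push_cast
          have : (0 : ℝ) ≤ q := Nat.cast_nonneg q
          linarith
        · right; right
          rw [mem_filter, mem_Ioc, e1]
          exact ⟨⟨by omega, by omega⟩, hq.2.2.1, hq.2.1⟩
    have h3 : ((b2S L A h).image (fun q => q + h)).card = (b2S L A h).card :=
      card_image_of_injective _ (add_left_injective h)
    have h4 := (card_le_card h2).trans ((card_union_le _ _).trans (Nat.add_le_add_left (card_union_le _ _) _))
    rw [h3] at h4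
    have h5 : ((Icc 1 ⌊(N : ℝ) ^ (1 - s)⌋₊).image (fun q => q + h)).card ≤ ⌊(N : ℝ) ^ (1 - s)⌋₊ := by
      refine card_image_le.trans ?_
      rw [Nat.card_Icc]
      omega
    have h6 : (b2S L A h).card ≤ G.card + (⌊(N : ℝ) ^ (1 - s)⌋₊ + TW Q h) := by
      unfold TW
      omega
    have h7 : ((b2S L A h).card : ℝ) ≤ G.card + (⌊(N : ℝ) ^ (1 - s)⌋₊ + TW Q h) := by exact_mod_cast h6
    have h8 : (⌊(N : ℝ) ^ (1 - s)⌋₊ : ℝ) ≤ (N : ℝ) ^ (1 - s) := Nat.floor_le (Real.rpow_nonneg (by linarith) _)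
    linarith
  have h2 : (1 - s) * Real.log N * G.card ≤ ∑ b ∈ BQ A N Q P, ArithmeticFunction.vonMangoldt (b - h) := by
    have h3 : (1 - s) * Real.log N * G.card = ∑ b ∈ G, (1 - s) * Real.log N := by
      rw [sum_const, nsmul_eq_mul]
      ring
    rw [h3]
    have h4 : ∀ b ∈ G, (1 - s) * Real.log N ≤ ArithmeticFunction.vonMangoldt (b - h) := by
      intro b hb
      rw [hG, mem_filter] at hb
      rw [ArithmeticFunction.vonMangoldt_apply_prime hb.2.1]
      have h5 := Real.log_le_log (Real.rpow_pos_of_pos (by linarith) _) hb.2.2.le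
      rwa [Real.log_rpow (by linarith)] at h5
    refine (sum_le_sum h4).trans ?_
    apply sum_le_sum_of_subset_of_nonneg (filter_subset _ _)
    intro _ _ _
    exact ArithmeticFunction.vonMangoldt_nonneg
  have hX0 : 0 ≤ (N : ℝ) ^ (1 - s) + TW Q h := by positivity
  calc (1 - s) * Real.log N * (b2S L A h).card ≤ (1 - s) * Real.log N * (G.card + ((N : ℝ) ^ (1 - s) + TW Q h)) :=
        mul_le_mul_of_nonneg_left h1 (mul_nonneg (by linarith) hL)
    _ = (1 - s) * Real.log N * G.card + (1 - s) * (Real.log N * ((N : ℝ) ^ (1 - s) + TW Q h)) := by ring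
    _ ≤ _ := by
        apply add_le_add h2
        exact mul_le_of_le_one_left (mul_nonneg hL hX0) (by linarith)

lemma sum_TW (M H : ℕ) : ∑ h ∈ Ioc M (M + H), TW (M + H) h ≤
    ((Ioc M (M + H)).filter Nat.Prime).card * ((Icc 1 H).filter Nat.Prime).card := by
  classical
  have h1 : ∀ h ∈ Ioc M (M + H), TW (M + H) h ≤
      ∑ p ∈ (Ioc M (M + H)).filter Nat.Prime, if (p - h).Prime ∧ h ≤ p then 1 else 0 := by
    intro h hh
    rw [mem_Ioc] at hh
    rw [← card_filter]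
    unfold TW
    apply card_le_card
    intro p hp
    rw [mem_filter, mem_Ioc] at hp
    rw [mem_filter, mem_filter, mem_Ioc]
    exact ⟨⟨⟨by omega, hp.1.2⟩, hp.2.1⟩, hp.2.2, by omega⟩
  refine (sum_le_sum h1).trans ?_
  rw [sum_comm, ← smul_eq_mul, ← sum_const]
  apply sum_le_sum
  intro p hp
  rw [mem_filter, mem_Ioc] at hp
  rw [← card_filter]
  apply card_le_card_of_injOn (fun h => p - h)
  · intro h hh
    rw [mem_coe, mem_filter, mem_Ioc] at hh
    rw [mem_coe, mem_filter, mem_Icc]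
    have e1 : p - h ≤ H := by omega
    exact ⟨⟨hh.2.1.pos, e1⟩, hh.2.1⟩
  · intro h hh h' hh' hhh
    rw [mem_coe, mem_filter, mem_Ioc] at hh hh'
    have e1 : p - h = p - h' := hhh
    have e2 := hh.2.2
    have e3 := hh'.2.2
    omega

/-- the window inequality -/
lemma window2 (κ s ε1 ρ L : ℝ) (hκ0 : 0 ≤ κ) (hκ1 : κ < 1) (hs0 : 0 < s) (hs1 : s < 1) (hε1 : 0 < ε1)
    (hρ : 0 < ρ) (hL : 0 < L) : ∃ N0 : ℕ, ∀ N : ℕ, N0 ≤ N → ∀ M H P0 P : ℕ, P ≤ N → ρ * N ≤ H → ρ * N ≤ M →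
    (H : ℝ) ≤ ε1 / 72 * M → (P0 : ℝ) ≤ L * M → (1 + L) * (M + H) ≤ P → ∀ A : Set ℕ, ∀ E ⊆ Ioc M (M + H),
    (∀ h ∈ E, (rd L A h : ℝ) ≤ κ * rd L Set.univ h) →
    (1 - s) * (1 - κ) * D1 E (PQ N 0 P0) ≤ D1 E (BQ A N 0 P) + D2 E (BQ A N (M + H) P) +
        2 * ε1 * ((H : ℝ) * P / Real.log P) := by
  obtain ⟨N1, hN12, hN1⟩ := err_small s (ε1 * ρ) hs0 (by positivity)
  obtain ⟨H0, hH03, hH0⟩ := two_primes
  obtain ⟨N2, hN2⟩ := exists_nat_ge (H0 / ρ)
  obtain ⟨N3, hN3⟩ := exists_nat_ge (1 / ρ ^ 2)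
  obtain ⟨N4, hN4⟩ := exists_nat_ge (2 / ρ)
  -- `N ^ (1 - s) ≤ ρ N` and `√N < ρ N`
  obtain ⟨N5, hN5⟩ : ∃ N5 : ℕ, ∀ N : ℕ, N5 ≤ N → (N : ℝ) ^ (1 - s) ≤ ρ * N ∧ √(N : ℝ) ≤ ρ * N := by
    have h1 := (tendsto_rpow_atTop hs0).eventually_ge_atTop (1 / ρ)
    have h2 := (tendsto_rpow_atTop (show (0 : ℝ) < 1 / 2 by norm_num)).eventually_ge_atTop (1 / ρ)
    have h3 := (tendsto_natCast_atTop_atTop (R := ℝ)).eventually (h1.and (h2.and (eventually_ge_atTop (1 : ℝ))))
    obtain ⟨N5, hN5⟩ := eventually_atTop.1 h3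
    refine ⟨N5, fun N hN => ?_⟩
    obtain ⟨h4, h5, h6⟩ := hN5 N hN
    have hN0 : (0 : ℝ) < N := by linarith
    rw [div_le_iff₀ hρ] at h4 h5
    constructor
    · have e1 : (N : ℝ) ^ (1 - s) * (N : ℝ) ^ s = N := by
        rw [← Real.rpow_add hN0]
        norm_num
      calc (N : ℝ) ^ (1 - s) = (N : ℝ) ^ (1 - s) * 1 := by ring
        _ ≤ (N : ℝ) ^ (1 - s) * ((N : ℝ) ^ s * ρ) := mul_le_mul_of_nonneg_left h4 (by positivity)
        _ = ρ * ((N : ℝ) ^ (1 - s) * (N : ℝ) ^ s) := by ring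
        _ = _ := by rw [e1]
    · rw [← Real.sqrt_eq_rpow] at h5
      have e1 : √(N : ℝ) * √(N : ℝ) = N := Real.mul_self_sqrt hN0.le
      calc √(N : ℝ) = √(N : ℝ) * 1 := by ring
        _ ≤ √(N : ℝ) * (√(N : ℝ) * ρ) := mul_le_mul_of_nonneg_left h5 (by positivity)
        _ = ρ * (√(N : ℝ) * √(N : ℝ)) := by ring
        _ = _ := by rw [e1]
  refine ⟨N1 + N2 + N3 + N4 + N5 + 3, ?_⟩
  intro N hN M H P0 P hPN hH hM hHM hP0 hP A E hE hEr
  have hNr : (3 : ℝ) ≤ N := by exact_mod_cast (by omega : 3 ≤ N)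
  have hN0r : (0 : ℝ) < N := by linarith
  have hLN : 0 < Real.log N := Real.log_pos (by linarith)
  obtain ⟨hs5, hq5⟩ := hN5 N (by omega)
  have hM0 : (0 : ℝ) < M := lt_of_lt_of_le (by positivity) hM
  -- H is large
  have hHH0 : H0 ≤ H := by
    have h1 : (H0 : ℝ) ≤ H := by
      have h2 : (N2 : ℝ) ≤ N := by exact_mod_cast (by omega : N2 ≤ N)
      have h3 : (H0 : ℝ) / ρ ≤ N := hN2.trans h2
      rw [div_le_iff₀ hρ] at h3
      linarith
    exact_mod_cast h1
  have hH3r : (3 : ℝ) ≤ H := by exact_mod_cast (hH03.trans hHH0)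
  have hH0r : (0 : ℝ) < H := by linarith
  have hLMH : 0 ≤ L * ((M : ℝ) + H) := mul_nonneg hL.le (add_nonneg hM0.le hH0r.le)
  have hMP : (M : ℝ) ≤ P := by linarith only [hP, hLMH, hH0r]
  have hMPn : M + H ≤ P := by
    have : ((M + H : ℕ) : ℝ) ≤ P := by push_cast; linarith only [hP, hLMH]
    exact_mod_cast this
  have hP2r : (2 : ℝ) ≤ P := by
    have h1 : ((M + H : ℕ) : ℝ) ≤ P := by exact_mod_cast hMPn
    push_cast at h1
    linarith
  have hP0r : (0 : ℝ) < P := by linarith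
  have hPNr : (P : ℝ) ≤ N := by exact_mod_cast hPN
  have hLH : 0 < Real.log H := Real.log_pos (by linarith)
  have hHN : H ≤ N := by omega
  -- log H ≥ (1/2) log N
  have hLHN : Real.log N ≤ 2 * Real.log H := by
    have h1 : (N : ℝ) ≤ (H : ℝ) ^ 2 := by
      have h2 : 1 / ρ ^ 2 ≤ N := hN3.trans (by exact_mod_cast (by omega : N3 ≤ N))
      rw [div_le_iff₀ (by positivity)] at h2
      have h3 : (ρ * N) ^ 2 ≤ (H : ℝ) ^ 2 := pow_le_pow_left₀ (by positivity) hH 2
      calc (N : ℝ) = N * 1 := by ring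
        _ ≤ N * (N * ρ ^ 2) := mul_le_mul_of_nonneg_left h2 hN0r.le
        _ = (ρ * N) ^ 2 := by ring
        _ ≤ _ := h3
    have h2 := Real.log_le_log hN0r h1
    rw [Real.log_pow] at h2
    exact_mod_cast h2
  have hLP0 : 0 < Real.log P := Real.log_pos (by linarith)
  have hLPN : Real.log P ≤ Real.log N := Real.log_le_log hP0r hPNr
  -- pointwise
  have hpt : ∀ h ∈ E, (1 - s) * (1 - κ) * ∑ b ∈ PQ N 0 P0, ArithmeticFunction.vonMangoldt (h + b) ≤
      (∑ b ∈ BQ A N 0 P, ArithmeticFunction.vonMangoldt (h + b) +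
        ∑ b ∈ BQ A N (M + H) P, ArithmeticFunction.vonMangoldt (b - h)) +
        (4 * √(N : ℝ) * Real.log N + 2 * (N : ℝ) ^ (1 - s) * Real.log N + Real.log N * TW (M + H) h) := by
    intro h hh
    have hn1 := mem_Ioc.1 (hE hh)
    have hhr : (M : ℝ) < h := by exact_mod_cast hn1.1
    have hhr2 : (h : ℝ) ≤ M + H := by exact_mod_cast hn1.2
    have hfl : ⌊L * h⌋₊ + h ≤ P := by
      have h1 : ((⌊L * h⌋₊ + h : ℕ) : ℝ) ≤ P := by
        push_cast
        have h2 : (⌊L * h⌋₊ : ℝ) ≤ L * h := Nat.floor_le (by positivity)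
        have h3 : L * (h : ℝ) ≤ L * (M + H) := mul_le_mul_of_nonneg_left hhr2 hL.le
        linarith
      exact_mod_cast h1
    have hP0f : P0 ≤ ⌊L * h⌋₊ := by
      apply Nat.le_floor
      have h3 : L * (M : ℝ) ≤ L * h := mul_le_mul_of_nonneg_left hhr.le hL.le
      linarith
    have h1 := d1_le L N P0 h (by omega) (by omega) hP0f (by omega)
    have h2 := b1_le L A N P h s hs0 hs1 (by omega) (by omega) (by linarith)
    have h2' := b2_le L A N (M + H) P h s hs0 hs1 (by omega) hfl (by linarith)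
    have h3 := rd_diff L A h
    have h4 := hEr h hh
    have h5 : (1 - κ) * (rd L Set.univ h : ℝ) ≤ (b1S L A h).card + (b2S L A h).card := by linarith
    have hsk : (1 - s) * (1 - κ) ≤ 1 := by
      have h6 : (1 - s) * (1 - κ) ≤ 1 * 1 := mul_le_mul (by linarith) (by linarith) (by linarith) zero_le_one
      linarith
    have h6 : (1 - s) * (1 - κ) * ∑ b ∈ PQ N 0 P0, ArithmeticFunction.vonMangoldt (h + b) ≤
        (1 - s) * (1 - κ) * (Real.log N * rd L Set.univ h + 2 * √(N : ℝ) * Real.log N) :=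
      mul_le_mul_of_nonneg_left h1 (mul_nonneg (by linarith) (by linarith))
    have h7 : (1 - s) * (1 - κ) * (2 * √(N : ℝ) * Real.log N) ≤ 2 * √(N : ℝ) * Real.log N :=
      mul_le_of_le_one_left (by positivity) hsk
    have h8 : (1 - s) * Real.log N * ((1 - κ) * (rd L Set.univ h : ℝ)) ≤
        (1 - s) * Real.log N * ((b1S L A h).card + (b2S L A h).card) :=
      mul_le_mul_of_nonneg_left h5 (mul_nonneg (by linarith) hLN.le)
    have h9 : 0 ≤ √(N : ℝ) * Real.log N := by positivity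
    have h10 : 0 ≤ (N : ℝ) ^ (1 - s) * Real.log N := by positivity
    have e1 : (1 - s) * (1 - κ) * (Real.log N * rd L Set.univ h + 2 * √(N : ℝ) * Real.log N) =
        (1 - s) * Real.log N * ((1 - κ) * (rd L Set.univ h : ℝ)) +
          (1 - s) * (1 - κ) * (2 * √(N : ℝ) * Real.log N) := by ring
    have e2 : (1 - s) * Real.log N * ((b1S L A h).card + (b2S L A h).card) =
        (1 - s) * Real.log N * (b1S L A h).card + (1 - s) * Real.log N * (b2S L A h).card := by ring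
    have e3 : Real.log N * ((N : ℝ) ^ (1 - s) + TW (M + H) h) =
        (N : ℝ) ^ (1 - s) * Real.log N + Real.log N * TW (M + H) h := by ring
    rw [e1] at h6
    rw [e2] at h8
    rw [e3] at h2'
    linarith
  have hsum := sum_le_sum hpt
  rw [← mul_sum, sum_add_distrib, sum_add_distrib, sum_add_distrib, sum_const, nsmul_eq_mul, ← mul_sum] at hsum
  -- the number of elements of `E`
  have hEc : (E.card : ℝ) ≤ H := by
    have h1 := card_le_card hE
    rw [Nat.card_Ioc] at h1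
    have h2 : E.card ≤ H := by omega
    exact_mod_cast h2
  have hT : ∑ n ∈ E, (TW (M + H) n : ℝ) ≤ 36 * H ^ 2 / Real.log N ^ 2 := by
    have h1 : ∑ n ∈ E, (TW (M + H) n : ℝ) ≤ ∑ n ∈ Ioc M (M + H), (TW (M + H) n : ℝ) :=
      sum_le_sum_of_subset_of_nonneg hE fun _ _ _ => Nat.cast_nonneg _
    have h2 : (∑ n ∈ Ioc M (M + H), (TW (M + H) n : ℝ)) ≤
        (((Ioc M (M + H)).filter Nat.Prime).card : ℝ) * (((Icc 1 H).filter Nat.Prime).card : ℝ) := by
      exact_mod_cast sum_TW M H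
    obtain ⟨h3, h4⟩ := hH0 H hHH0 M
    have h5 : (((Ioc M (M + H)).filter Nat.Prime).card : ℝ) * (((Icc 1 H).filter Nat.Prime).card : ℝ) ≤
        (3 * H / Real.log H) * (3 * H / Real.log H) :=
      mul_le_mul h3 h4 (Nat.cast_nonneg _) (by positivity)
    have h6 : (3 * (H : ℝ) / Real.log H) ≤ 6 * H / Real.log N := by
      rw [div_le_div_iff₀ hLH hLN]
      linarith only [mul_le_mul_of_nonneg_left hLHN (show (0 : ℝ) ≤ 3 * H by linarith only [hH0r])]
    have h7 : (3 * (H : ℝ) / Real.log H) * (3 * H / Real.log H) ≤ (6 * H / Real.log N) * (6 * H / Real.log N) :=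
      mul_le_mul h6 h6 (by positivity) (by positivity)
    have h8 : (6 * (H : ℝ) / Real.log N) * (6 * H / Real.log N) = 36 * H ^ 2 / Real.log N ^ 2 := by
      field_simp
      norm_num
    linarith
  -- error
  have hPH : (H : ℝ) ≤ ε1 / 72 * P := hHM.trans (mul_le_mul_of_nonneg_left hMP (by positivity))
  have hρP : ρ * N ≤ P := hM.trans hMP
  have herr := hN1 N (by omega)
  have hfin1 : (E.card : ℝ) * (4 * √(N : ℝ) * Real.log N + 2 * (N : ℝ) ^ (1 - s) * Real.log N) ≤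
      ε1 * ((H : ℝ) * P / Real.log P) := by
    have h1 : (E.card : ℝ) * (4 * √(N : ℝ) * Real.log N + 2 * (N : ℝ) ^ (1 - s) * Real.log N) ≤
        H * (ε1 * ρ * N / Real.log N) := mul_le_mul hEc herr (by positivity) hH0r.le
    refine h1.trans ?_
    have h2 : ρ * N / Real.log N ≤ P / Real.log P := div_le_div₀ hP0r.le hρP hLP0 hLPN
    calc (H : ℝ) * (ε1 * ρ * N / Real.log N) = ε1 * (H * (ρ * N / Real.log N)) := by ring
      _ ≤ ε1 * (H * (P / Real.log P)) := by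
          apply mul_le_mul_of_nonneg_left _ hε1.le
          exact mul_le_mul_of_nonneg_left h2 hH0r.le
      _ = _ := by ring
  have hfin2 : Real.log N * ∑ n ∈ E, (TW (M + H) n : ℝ) ≤ ε1 * ((H : ℝ) * P / Real.log P) := by
    calc Real.log N * ∑ n ∈ E, (TW (M + H) n : ℝ) ≤ Real.log N * (36 * H ^ 2 / Real.log N ^ 2) :=
          mul_le_mul_of_nonneg_left hT (by positivity)
      _ = 36 * H * H / Real.log N := by
          field_simp
      _ ≤ 36 * H * (ε1 / 72 * P) / Real.log P :=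
          div_le_div₀ (by positivity) (mul_le_mul_of_nonneg_left hPH (by positivity)) hLP0 hLPN
      _ ≤ ε1 * ((H : ℝ) * P / Real.log P) := by
          have : 0 ≤ ε1 * ((H : ℝ) * P / Real.log P) := by positivity
          calc 36 * (H : ℝ) * (ε1 / 72 * P) / Real.log P = 1 / 2 * (ε1 * ((H : ℝ) * P / Real.log P)) := by ring
            _ ≤ _ := by linarith
  unfold D1 D2
  linarith

end Pool.Agent.K9h13.RD
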