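import Mathlib
import Pool.Agent.K9h13.RD.WI
import Pool.Agent.K9h13.RD.LT2

/-! The finite window theorem for differences. -/

set_option autoImplicit false

namespace Pool.Agent.K9h13.RD

open Finset Filter Topology
open Pool.Agent.TH881
open Pool.Agent.TH881.RG
open Pool.Agent.H373R2.T7

/-- the constant -/
noncomputable def DD : ℝ := C2 * Real.exp (-Real.eulerMascheroniConstant)

lemma DD_pos : 0 < DD := D_pos

lemma DD_le : DD ≤ 1 := D_le

/-- arithmetic -/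
lemma arithF {X u ε Y Y0 R Φ K SP SB C0 C1 C2' Lam Lr κ : ℝ} (hu0 : 0 < u) (hu1 : u ≤ 1 / 100)
    (hY : 0 < Y) (hY0 : 0 ≤ Y0) (hR : 0 ≤ R) (hK : 0 < K) (hΦ : 0 ≤ Φ) (hε : 0 < ε) (hεu : ε ≤ u) (hεK : ε ≤ u * K)
    (hKR : K * Φ ≤ R) (hLr0 : 0 ≤ Lr) (hLr1 : Lr ≤ 1) (hκ0 : 0 ≤ κ) (hκ1 : κ < 1) (hX : X = (1 - κ) * Lr)
    (hYY : (1 - u) * Lr * Y ≤ Y0)
    (hSP : (1 - ε) * R ≤ SP) (h0 : Y0 * SP - ε * (Y0 * Φ) ≤ C0)
    (h12 : C1 + C2' ≤ Y * SB + 2 * (ε * (Y * Φ)))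
    (hwin : (1 - u) * (1 - κ) * C0 ≤ C1 + C2' + 2 * ε * (Y * Φ)) (hSB : SB ≤ Lam + 2 * ε * R) :
    (X - 10 * u) * R ≤ Lam := by
  have hεR : ε * Φ ≤ u * R := by
    calc ε * Φ ≤ (u * K) * Φ := mul_le_mul_of_nonneg_right hεK hΦ
      _ = u * (K * Φ) := by ring
      _ ≤ _ := mul_le_mul_of_nonneg_left hKR hu0.le
  have hεR2 : ε * R ≤ u * R := mul_le_mul_of_nonneg_right hεu hR
  -- lower bound of `C0`
  have e1 : (1 - 2 * u) * R ≤ SP - ε * Φ := by linarith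
  have e2 : Y0 * ((1 - 2 * u) * R) ≤ C0 := by
    refine le_trans (mul_le_mul_of_nonneg_left e1 hY0) ?_
    linarith
  have e3 : ((1 - u) * Lr * Y) * ((1 - 2 * u) * R) ≤ C0 := by
    refine le_trans (mul_le_mul_of_nonneg_right hYY ?_) e2
    apply mul_nonneg _ hR
    linarith
  have hk : 0 ≤ (1 - u) * (1 - κ) := mul_nonneg (by linarith) (by linarith)
  have e4 : (1 - u) * (1 - κ) * (((1 - u) * Lr * Y) * ((1 - 2 * u) * R)) ≤ Y * SB + 4 * (ε * (Y * Φ)) := by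
    refine (mul_le_mul_of_nonneg_left e3 hk).trans ?_
    linarith
  have e5 : Y * ((1 - u) * (1 - u) * (1 - 2 * u) * X * R) ≤ Y * (SB + 4 * (ε * Φ)) := by
    calc Y * ((1 - u) * (1 - u) * (1 - 2 * u) * X * R) =
        (1 - u) * (1 - κ) * (((1 - u) * Lr * Y) * ((1 - 2 * u) * R)) := by rw [hX]; ring
      _ ≤ _ := e4
      _ = _ := by ring
  have e6 := le_of_mul_le_mul_left e5 hY
  have hX0 : 0 ≤ X := by rw [hX]; exact mul_nonneg (by linarith) hLr0
  have hX1 : X ≤ 1 := by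
    rw [hX]
    calc (1 - κ) * Lr ≤ 1 * 1 := mul_le_mul (by linarith) hLr1 hLr0 zero_le_one
      _ = 1 := one_mul 1
  have e7 : 1 - 4 * u ≤ (1 - u) * (1 - u) * (1 - 2 * u) := by
    have := mul_nonneg (mul_nonneg hu0.le hu0.le) (show (0 : ℝ) ≤ 5 - 2 * u by linarith only [hu1])
    linarith only [this]
  have e8 : (1 - 4 * u) * (X * R) ≤ (1 - u) * (1 - u) * (1 - 2 * u) * X * R := by
    calc (1 - 4 * u) * (X * R) ≤ ((1 - u) * (1 - u) * (1 - 2 * u)) * (X * R) :=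
          mul_le_mul_of_nonneg_right e7 (by positivity)
      _ = _ := by ring
  have e9 : u * (X * R) ≤ u * R := by
    apply mul_le_mul_of_nonneg_left _ hu0.le
    exact mul_le_of_le_one_left hR hX1
  linarith

/-- ratio of the main terms -/
lemma YY_ratio (w M P0 P H : ℕ) (L u : ℝ) (hL : 0 < L) (hu0 : 0 < u) (hu1 : u ≤ 1 / 100)
    (hP0 : L * M ≤ P0 + 1) (hHM : (H : ℝ) ≤ u / 2 * M) (hP : (P : ℝ) ≤ (1 + L) * (M + H) + 1)
    (hM : 4 / (L * u) ≤ M) (h0P : P0 ≤ P) (hP02 : 2 ≤ P0) :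
    (1 - u) * (L / (1 + L)) * YY w P H ≤ YY w P0 H := by
  have hM0 : (0 : ℝ) < M := lt_of_lt_of_le (by positivity) hM
  have h1 : (1 - u) * (L / (1 + L)) * P ≤ P0 := by
    have h2 : (1 - u) * (L / (1 + L)) * P ≤ (1 - u) * (L / (1 + L)) * ((1 + L) * (M + H) + 1) := by
      apply mul_le_mul_of_nonneg_left hP
      apply mul_nonneg (by linarith) (by positivity)
    have h3 : (1 - u) * (L / (1 + L)) * ((1 + L) * (M + H) + 1) = (1 - u) * L * (M + H) + (1 - u) * (L / (1 + L)) := by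
      field_simp
    have h4 : (1 - u) * (L / (1 + L)) ≤ 1 := by
      have : L / (1 + L) ≤ 1 := by
        rw [div_le_one (by linarith)]
        linarith
      have h5 : 0 ≤ L / (1 + L) := by positivity
      exact mul_le_one₀ (by linarith only [hu0]) h5 this
    have h5 : (1 - u) * L * (M + H) ≤ (1 - u) * L * (M + u / 2 * M) := by
      apply mul_le_mul_of_nonneg_left (by linarith)
      exact mul_nonneg (by linarith) hL.le
    have h6 : (1 - u) * L * (M + u / 2 * M) ≤ L * M - L * M * (u / 2) := by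
      have e1 : (1 - u) * L * (M + u / 2 * M) = L * M * ((1 - u) * (1 + u / 2)) := by ring
      have e2 : (1 - u) * (1 + u / 2) ≤ 1 - u / 2 := by linarith only [mul_nonneg hu0.le hu0.le]
      rw [e1]
      calc L * M * ((1 - u) * (1 + u / 2)) ≤ L * M * (1 - u / 2) := mul_le_mul_of_nonneg_left e2 (by positivity)
        _ = _ := by ring
    have h7 : 2 ≤ L * M * (u / 2) := by
      rw [div_le_iff₀ (by positivity)] at hM
      linarith
    linarith
  have hPr : (2 : ℝ) ≤ P0 := by exact_mod_cast hP02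
  have h0Pr : (P0 : ℝ) ≤ P := by exact_mod_cast h0P
  have hl0 : 0 < Real.log P0 := Real.log_pos (by linarith)
  have hl : Real.log P0 ≤ Real.log P := Real.log_le_log (by linarith) h0Pr
  unfold YY pp
  have hW : (0 : ℝ) < Wp w := by exact_mod_cast Wp_pos w
  have hφ := totient_Wp_pos w
  have hV := inv_pos.2 (Vz_pos w)
  have h2 : (1 - u) * (L / (1 + L)) * ((P : ℝ) / (Nat.totient (Wp w) * Real.log P)) ≤
      (P0 : ℝ) / (Nat.totient (Wp w) * Real.log P0) := by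
    rw [← mul_div_assoc]
    apply div_le_div₀ (by positivity) h1 (by positivity)
    exact mul_le_mul_of_nonneg_left hl hφ.le
  calc (1 - u) * (L / (1 + L)) * ((Vz w)⁻¹ * ((H : ℝ) / Wp w) * ((P : ℝ) / (Nat.totient (Wp w) * Real.log P))) =
      ((Vz w)⁻¹ * ((H : ℝ) / Wp w)) * ((1 - u) * (L / (1 + L)) * ((P : ℝ) / (Nat.totient (Wp w) * Real.log P))) := by ring
    _ ≤ _ := mul_le_mul_of_nonneg_left h2 (by positivity)

lemma PQ_split (N Q P : ℕ) (hQP : Q ≤ P) : PQ N 0 P = PQ N 0 Q ∪ PQ N Q P := by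
  ext p
  rw [mem_union, mem_PQ, mem_PQ, mem_PQ]
  constructor
  · rintro ⟨h1, h2⟩
    by_cases h : p ≤ Q
    · exact Or.inl ⟨⟨h1.1, h⟩, h2⟩
    · exact Or.inr ⟨⟨by omega, h1.2⟩, h2⟩
  · rintro (⟨h1, h2⟩ | ⟨h1, h2⟩)
    · exact ⟨⟨h1.1, by omega⟩, h2⟩
    · exact ⟨⟨by omega, h1.2⟩, h2⟩

/-- class counts of the primes in `(Q, P]` -/
lemma count_mid (w : ℕ) (ρ L : ℝ) (hρ : 0 < ρ) (hL : 0 < L) : ∃ N0 : ℕ, ∀ N : ℕ, N0 ≤ N → ∀ Q P : ℕ, P ≤ N →
    ρ * N ≤ Q → (1 + L) * Q ≤ P →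
    ∀ a : ZMod (Wp w), IsUnit a → L / (2 * (1 + L)) * pp w P ≤ (cls w (PQ N Q P) a).card ∧
      ((cls w (PQ N Q P) a).card : ℝ) ≤ 2 * pp w P := by
  obtain ⟨ε, hε⟩ : ∃ ε : ℝ, ε = L / (10 * (1 + L)) := ⟨_, rfl⟩
  have hε0 : 0 < ε := by rw [hε]; positivity
  have hε1 : ε ≤ 1 / 10 := by
    rw [hε, div_le_div_iff₀ (by positivity) (by norm_num)]
    linarith
  obtain ⟨N1, hN1⟩ := count_all w ρ hρ ε hε0
  -- logs
  have hev : ∀ᶠ N : ℕ in atTop, Real.log (1 / ρ) ≤ ε * Real.log (ρ * N) ∧ 3 ≤ ρ * (N : ℝ) := by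
    have h1 : Tendsto (fun N : ℕ => ρ * (N : ℝ)) atTop atTop :=
      tendsto_natCast_atTop_atTop.const_mul_atTop hρ
    have h2 : Tendsto (fun N : ℕ => ε * Real.log (ρ * (N : ℝ))) atTop atTop :=
      (Real.tendsto_log_atTop.comp h1).const_mul_atTop hε0
    exact (h2.eventually_ge_atTop _).and (h1.eventually_ge_atTop _)
  obtain ⟨N2, hN2⟩ := eventually_atTop.1 hev
  refine ⟨N1 + N2, fun N hN Q P hPN hQ hQP a ha => ?_⟩
  obtain ⟨g1, g2⟩ := hN2 N (by omega)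
  have hQ3 : (3 : ℝ) ≤ Q := by linarith
  have hQPr : (Q : ℝ) ≤ P := by
    linarith only [hQP, mul_nonneg hL.le (show (0 : ℝ) ≤ Q by linarith only [hQ3])]
  have hQPn : Q ≤ P := by exact_mod_cast hQPr
  have hPr : (P : ℝ) ≤ N := by exact_mod_cast hPN
  have hcP := hN1 N (by omega) P hPN (by linarith) a ha
  have hcQ := hN1 N (by omega) Q (by omega) hQ a ha
  have hlQ : 0 < Real.log Q := Real.log_pos (by linarith)
  have hlP : 0 < Real.log P := Real.log_pos (by linarith)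
  have hφ := totient_Wp_pos w
  -- log P ≤ (1 + ε) log Q
  have hlog : Real.log P ≤ (1 + ε) * Real.log Q := by
    have h1 : (P : ℝ) ≤ Q * (1 / ρ) := by
      rw [mul_one_div, le_div_iff₀ hρ]
      linarith only [mul_le_mul_of_nonneg_left hPr hρ.le, hQ]
    have h2 : Real.log P ≤ Real.log Q + Real.log (1 / ρ) := by
      rw [← Real.log_mul (by linarith) (by positivity)]
      exact Real.log_le_log (by linarith) h1
    have h3 : Real.log (ρ * N) ≤ Real.log Q := Real.log_le_log (by linarith) hQ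
    linarith only [mul_le_mul_of_nonneg_left h3 hε0.le, h2, g1]
  have hppQ : pp w Q ≤ (1 + ε) / (1 + L) * pp w P := by
    unfold pp
    rw [div_mul_div_comm, div_le_div_iff₀ (by positivity) (by positivity)]
    calc (Q : ℝ) * ((1 + L) * (Nat.totient (Wp w) * Real.log P)) ≤
        (Q : ℝ) * ((1 + L) * (Nat.totient (Wp w) * ((1 + ε) * Real.log Q))) := by
          apply mul_le_mul_of_nonneg_left _ (by linarith)
          apply mul_le_mul_of_nonneg_left _ (by linarith)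
          exact mul_le_mul_of_nonneg_left hlog hφ.le
      _ = ((1 + L) * Q) * ((1 + ε) * (Nat.totient (Wp w) * Real.log Q)) := by ring
      _ ≤ P * ((1 + ε) * (Nat.totient (Wp w) * Real.log Q)) := by
          apply mul_le_mul_of_nonneg_right hQP
          positivity
      _ = _ := by ring
  have hppP : 0 < pp w P := by
    unfold pp
    have : (0 : ℝ) < P := by linarith
    positivity
  have hsub : cls w (PQ N Q P) a ⊆ cls w (PQ N 0 P) a := by
    apply cls_mono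
    rw [PQ_split N Q P hQPn]
    exact subset_union_right
  constructor
  · have h1 : (cls w (PQ N 0 P) a).card ≤ (cls w (PQ N 0 Q) a).card + (cls w (PQ N Q P) a).card := by
      rw [PQ_split N Q P hQPn]
      refine (card_le_card ?_).trans (card_union_le _ _)
      intro b hb
      rw [mem_cls, mem_union] at hb
      rw [mem_union, mem_cls, mem_cls]
      tauto
    have h2 : ((cls w (PQ N 0 P) a).card : ℝ) ≤ (cls w (PQ N 0 Q) a).card + (cls w (PQ N Q P) a).card := by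
      exact_mod_cast h1
    have h3 : ((cls w (PQ N 0 Q) a).card : ℝ) ≤ (1 + ε) * ((1 + ε) / (1 + L) * pp w P) :=
      hcQ.2.trans (mul_le_mul_of_nonneg_left hppQ (by linarith))
    have h4 : (1 + ε) * ((1 + ε) / (1 + L) * pp w P) = (1 + ε) * (1 + ε) / (1 + L) * pp w P := by ring
    have h5 : L / (2 * (1 + L)) ≤ (1 - ε) - (1 + ε) * (1 + ε) / (1 + L) := by
      have h6 : L = 10 * (1 + L) * ε := by
        rw [hε]
        field_simp
      have h7 : (1 + ε) * (1 + ε) ≤ 1 + 3 * ε := by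
        linarith only [mul_le_mul_of_nonneg_left hε1 hε0.le, hε0]
      have h8 : (1 + ε) * (1 + ε) / (1 + L) ≤ (1 + 3 * ε) / (1 + L) := div_le_div_of_nonneg_right h7 (by linarith)
      have h9 : (1 + 3 * ε) / (1 + L) ≤ 1 / (1 + L) + 3 * ε := by
        rw [add_div]
        have : 3 * ε / (1 + L) ≤ 3 * ε := div_le_self (by positivity) (by linarith)
        linarith
      have h10 : 1 / (1 + L) = 1 - L / (1 + L) := by field_simp; ring
      have h11 : L / (1 + L) = 10 * ε := by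
        rw [hε]
        field_simp
      have h12 : L / (2 * (1 + L)) = 5 * ε := by
        rw [hε]
        field_simp
        norm_num
      rw [h12]
      linarith
    have h6 := mul_le_mul_of_nonneg_right h5 hppP.le
    have h7 : ((1 - ε) - (1 + ε) * (1 + ε) / (1 + L)) * pp w P =
        (1 - ε) * pp w P - (1 + ε) * (1 + ε) / (1 + L) * pp w P := by ring
    linarith [hcP.1]
  · have h1 : ((cls w (PQ N Q P) a).card : ℝ) ≤ (cls w (PQ N 0 P) a).card := by exact_mod_cast card_le_card hsub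
    refine (h1.trans hcP.2).trans ?_
    apply mul_le_mul_of_nonneg_right _ hppP.le
    linarith

/-- the finite window theorem -/
theorem fw2 (κ δ L : ℝ) (hκ0 : 0 ≤ κ) (hκ1 : κ < 1) (hδ : 0 < δ) (hL : 0 < L) :
    ∃ h0 : ℝ, 0 < h0 ∧ h0 < 1 / 16 ∧ ∀ h : ℝ, 0 < h → h ≤ h0 → ∃ θ0 : ℝ, 0 < θ0 ∧ ∀ ρ : ℝ, 0 < ρ →
    ∃ N0 : ℕ, ∀ N : ℕ, N0 ≤ N → ∀ M H P : ℕ, 2 * (M + P + H) ≤ N → ρ * N ≤ H → ρ * N ≤ M → (H : ℝ) ≤ θ0 * M →
    (1 + L) * (M + H) ≤ P → (P : ℝ) ≤ (1 + L) * (M + H) + 1 →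
    ∀ A : Set ℕ, ∀ E ⊆ Ioc M (M + H), (∀ n ∈ E, Even n ∧ (rd L A n : ℝ) ≤ κ * rd L Set.univ n) →
    2 * h * H ≤ E.card →
    (1 - κ) * (L / (1 + L)) * (2 * DD) - δ ≤
      Real.log (Real.log (1 / h)) * (((BQ A N 0 P).card : ℝ) * Real.log P / P) := by
  obtain ⟨h0, hh0, hh16, hloc⟩ := local_thm2 (δ / 2) (by positivity)
  obtain ⟨c, hc0, hWL⟩ := stWL
  refine ⟨h0, hh0, hh16, ?_⟩
  intro h hh hhh0
  obtain ⟨u, hu⟩ : ∃ u : ℝ, u = min δ 1 / 100 := ⟨_, rfl⟩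
  have hu0 : 0 < u := by rw [hu]; positivity
  have huδ : u ≤ δ / 100 := by
    rw [hu]
    exact div_le_div_of_nonneg_right (min_le_left _ _) (by norm_num)
  have hu1 : u ≤ 1 / 100 := by
    rw [hu]
    exact div_le_div_of_nonneg_right (min_le_right _ _) (by norm_num)
  obtain ⟨K, hK⟩ : ∃ K : ℝ, K = c * h ^ 2 := ⟨_, rfl⟩
  have hK0 : 0 < K := by rw [hK]; positivity
  obtain ⟨ε, hε⟩ : ∃ ε : ℝ, ε = u * min K 1 := ⟨_, rfl⟩
  have hε0 : 0 < ε := by rw [hε]; positivity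
  have hεu : ε ≤ u := by
    rw [hε]
    exact mul_le_of_le_one_right hu0.le (min_le_right _ _)
  have hεK : ε ≤ u * K := by
    rw [hε]
    exact mul_le_mul_of_nonneg_left (min_le_left _ _) hu0.le
  refine ⟨min (ε / 72) (u / 2), by positivity, ?_⟩
  intro ρ hρ
  obtain ⟨ρ1, hρ1⟩ : ∃ ρ1 : ℝ, ρ1 = ρ * min 1 (L / 2) := ⟨_, rfl⟩
  have hρ10 : 0 < ρ1 := by rw [hρ1]; positivity
  have hρ1ρ : ρ1 ≤ ρ := by
    rw [hρ1]
    exact mul_le_of_le_one_right hρ.le (min_le_left _ _)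
  have hρ1L : ρ1 ≤ ρ * (L / 2) := by
    rw [hρ1]
    exact mul_le_mul_of_nonneg_left (min_le_right _ _) hρ.le
  obtain ⟨wa, hwa⟩ := bil1 ε ρ1 hε0 hρ10
  obtain ⟨wb, hwb⟩ := bil2 ε ρ1 (L / (2 * (1 + L))) hε0 hρ10 (by positivity)
  obtain ⟨w, hw⟩ : ∃ w : ℕ, w = wa + wb + 2 := ⟨_, rfl⟩
  obtain ⟨N1, hN1⟩ := hwa w (by omega)
  obtain ⟨N2, hN2⟩ := hwb w (by omega)
  obtain ⟨N3, hN3⟩ := window2 κ u ε ρ L hκ0 hκ1 hu0 (by linarith) hε0 hρ hL
  obtain ⟨N4, hN4⟩ := exists_nat_ge ((Wp w : ℝ) / ρ)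
  obtain ⟨N5, hN5⟩ := exists_nat_ge ((4 / (L * u) + 4 / L + 2) / ρ)
  obtain ⟨N6, hN6⟩ := count_all w ρ1 hρ10 ε hε0
  obtain ⟨N7, hN7⟩ := count_mid w ρ L hρ hL
  refine ⟨N1 + N2 + N3 + N4 + N5 + N6 + N7 + 2 * Wp w, ?_⟩
  intro N hN M H P hsum hH hM hHM hP1 hP2 A E hE hEA hEc
  have hNnn : (0 : ℝ) ≤ N := Nat.cast_nonneg N
  have hHW : Wp w ≤ H := by
    have h1 : (N4 : ℝ) ≤ N := by exact_mod_cast (by omega : N4 ≤ N)
    have h2 := hN4.trans h1
    rw [div_le_iff₀ hρ] at h2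
    have h3 : (Wp w : ℝ) ≤ H := by linarith
    exact_mod_cast h3
  have hMbig : 4 / (L * u) + 4 / L + 2 ≤ M := by
    have h1 : (N5 : ℝ) ≤ N := by exact_mod_cast (by omega : N5 ≤ N)
    have h2 := hN5.trans h1
    rw [div_le_iff₀ hρ] at h2
    linarith
  have hLu : 0 < 4 / (L * u) := by positivity
  have hL4 : 0 < 4 / L := by positivity
  have hM2 : (2 : ℝ) ≤ M := by linarith
  have hM0 : (0 : ℝ) < M := by linarith
  have hLM : 4 ≤ L * M := by
    have h1 : 4 / L ≤ M := by linarith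
    rw [div_le_iff₀ hL] at h1
    linarith
  have hH1 : 1 ≤ H := (Wp_pos w).trans_le hHW
  have hHr : (0 : ℝ) < H := by exact_mod_cast hH1
  have hHM1 : (H : ℝ) ≤ ε / 72 * M := hHM.trans (mul_le_mul_of_nonneg_right (min_le_left _ _) hM0.le)
  have hHM2 : (H : ℝ) ≤ u / 2 * M := hHM.trans (mul_le_mul_of_nonneg_right (min_le_right _ _) hM0.le)
  -- the lower length
  obtain ⟨P0, hP0⟩ : ∃ P0 : ℕ, P0 = ⌊L * M⌋₊ := ⟨_, rfl⟩
  have hP0a : (P0 : ℝ) ≤ L * M := by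
    rw [hP0]
    exact Nat.floor_le (by positivity)
  have hP0b : L * M ≤ P0 + 1 := by
    rw [hP0]
    exact (Nat.lt_floor_add_one _).le
  have hMHP : (M : ℝ) + H ≤ P := by
    linarith only [hP1, mul_nonneg hL.le (add_nonneg hM0.le hHr.le)]
  have hMHPn : M + H ≤ P := by
    have : ((M + H : ℕ) : ℝ) ≤ P := by push_cast; exact hMHP
    exact_mod_cast this
  have hP0P : P0 ≤ P := by
    have : (P0 : ℝ) ≤ P := by linarith only [hP0a, hP1, mul_nonneg hL.le hHr.le, hM0, hHr]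
    exact_mod_cast this
  have hP02 : 2 ≤ P0 := by
    have : ((2 : ℕ) : ℝ) ≤ P0 := by push_cast; linarith
    exact_mod_cast this
  have hρP0 : ρ1 * N ≤ P0 := by
    have h1 : L * M / 2 ≤ P0 := by linarith
    calc ρ1 * N ≤ ρ * (L / 2) * N := mul_le_mul_of_nonneg_right hρ1L hNnn
      _ = (ρ * N) * (L / 2) := by ring
      _ ≤ M * (L / 2) := mul_le_mul_of_nonneg_right hM (by positivity)
      _ = L * M / 2 := by ring
      _ ≤ _ := h1
  have hρH : ρ1 * N ≤ H := (mul_le_mul_of_nonneg_right hρ1ρ hNnn).trans hH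
  have hρM : ρ1 * N ≤ M := (mul_le_mul_of_nonneg_right hρ1ρ hNnn).trans hM
  have hρP : ρ1 * N ≤ P := by linarith
  have hP2n : 2 ≤ P := hP02.trans hP0P
  have hQP : M + H < P := by
    have h1 : ((M + H : ℕ) : ℝ) < P := by
      push_cast
      linarith only [hP1, mul_pos hL (add_pos hM0 hHr)]
    exact_mod_cast h1
  -- the objects
  obtain ⟨e, he⟩ : ∃ e : ZMod (Wp w) → ℝ, e = eef w H E := ⟨_, rfl⟩
  have he0 : ∀ t, 0 ≤ e t := by rw [he]; exact eef_nonneg w H E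
  have he1 : ∀ t, e t ≤ 1 := by rw [he]; exact eef_le_one w M H E hE
  have hez : ∀ t, wt w t = 0 → e t = 0 := by
    rw [he]
    exact fun t ht => eef_zero w H E (fun n hn => (hEA n hn).1) t ht
  have hes : h * Wp w ≤ ∑ t, e t := by rw [he]; exact sum_eef w H h hh.le E hHW hEc
  obtain ⟨R, hR⟩ : ∃ R : ℝ, R = ∑ a ∈ UU w, rr w e a := ⟨_, rfl⟩
  have hR' : ∑ a ∈ UU w, rr w e (-a) = R := by rw [hR]; exact sum_UU_neg w (rr w e)
  have hR0 : 0 ≤ R := by
    rw [hR]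
    exact sum_nonneg fun a _ => rr_nonneg he0 a
  have hφ : (0 : ℝ) < Nat.totient (Wp w) := totient_Wp_pos w
  have hW : (0 : ℝ) < Wp w := by exact_mod_cast Wp_pos w
  obtain ⟨Φ, hΦ⟩ : ∃ Φ : ℝ, Φ = (Nat.totient (Wp w) : ℝ) ^ 2 := ⟨_, rfl⟩
  have hΦ0 : 0 < Φ := by rw [hΦ]; positivity
  have hKR : K * Φ ≤ R := by
    have h1 := hWL w (by omega) e he0 he1 hez
    have h2 : h ≤ (∑ t, e t) / Wp w := by
      rw [le_div_iff₀ hW]
      exact hes
    have h3 : h ^ 2 ≤ ((∑ t, e t) / Wp w) ^ 2 := pow_le_pow_left₀ hh.le h2 2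
    have h4 : K ≤ (∑ t, e t * wt w t) / Nat.totient (Wp w) := by
      rw [hK]
      exact (mul_le_mul_of_nonneg_left h3 hc0.le).trans h1
    rw [le_div_iff₀ hφ] at h4
    rw [hR, sum_rr, hΦ]
    calc K * (Nat.totient (Wp w) : ℝ) ^ 2 = Nat.totient (Wp w) * (K * Nat.totient (Wp w)) := by ring
      _ ≤ _ := mul_le_mul_of_nonneg_left h4 hφ.le
  -- the bilinear estimates
  have hBP : BQ A N 0 P ⊆ PQ N 0 P := fun b hb => (mem_BQ.1 hb).1
  have hBP2 : BQ A N (M + H) P ⊆ PQ N (M + H) P := fun b hb => (mem_BQ.1 hb).1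
  have hBB : BQ A N (M + H) P ⊆ BQ A N 0 P := by
    intro b hb
    rw [mem_BQ, mem_PQ] at hb ⊢
    exact ⟨⟨⟨by omega, hb.1.1.2⟩, hb.1.2⟩, hb.2⟩
  have hb0 := hN1 N (by omega) M H P0 (by omega) hρH hρP0 E hE (PQ N 0 P0) subset_rfl
  have hb1 := hN1 N (by omega) M H P (by omega) hρH hρP E hE (BQ A N 0 P) hBP
  have hb2 := hN2 N (by omega) M H P (M + H) (by omega) hρH hρP le_rfl hQP
    (hN7 N (by omega) (M + H) P (by omega) (by push_cast; linarith) (by push_cast; linarith)) E hE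
    (BQ A N (M + H) P) hBP2
  rw [abs_le] at hb0 hb1 hb2
  have hwin := hN3 N (by omega) M H P0 P (by omega) hH hM hHM1 hP0a hP1 A E hE (fun n hn => (hEA n hn).2)
  rw [← YY_phi w P H] at hwin
  rw [← he, ← hΦ] at hb0 hb1 hb2
  rw [← hΦ] at hwin
  have hYpos := YY_pos w P H hP2n hH1
  have hY0pos := YY_nonneg w P0 H
  -- classes
  have hbP0 : ∀ a ∈ UU w, 1 - ε ≤ bbf w P0 (PQ N 0 P0) a := by
    intro a ha
    have h1 := (hN6 N (by omega) P0 (by omega) hρP0 a (mem_UU.1 ha)).1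
    unfold bbf
    rw [le_div_iff₀ (pp_pos w P0 hP02)]
    exact h1
  have hbP : ∀ a ∈ UU w, bbf w P (PQ N 0 P) a ≤ 1 + ε := by
    intro a ha
    have h1 := (hN6 N (by omega) P (by omega) hρP a (mem_UU.1 ha)).2
    unfold bbf
    rw [div_le_iff₀ (pp_pos w P hP2n)]
    exact h1
  obtain ⟨β, hβ⟩ : ∃ β : ZMod (Wp w) → ℝ, β = fun a => min (bbf w P (BQ A N 0 P) a) 1 := ⟨_, rfl⟩
  have hβ0 : ∀ a, 0 ≤ β a := by
    intro a
    rw [hβ]
    exact le_min (bbf_nonneg _ _ _ _) zero_le_one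
  have hβ1 : ∀ a, β a ≤ 1 := by
    intro a
    rw [hβ]
    exact min_le_right _ _
  have hSB : ∑ a ∈ UU w, bbf w P (BQ A N 0 P) a * vv w e a ≤ ∑ a ∈ UU w, β a * vv w e a + 2 * ε * R := by
    have h0 : 2 * ε * R = ∑ a ∈ UU w, ε * vv w e a := by
      rw [← mul_sum]
      unfold vv
      rw [sum_add_distrib, hR', ← hR]
      ring
    rw [h0, ← sum_add_distrib]
    apply sum_le_sum
    intro a ha
    have h1 := bbf_mono w P hBP a
    have h2 := hbP a ha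
    have h3 : bbf w P (BQ A N 0 P) a ≤ β a + ε := by
      rw [hβ]
      simp only
      rcases le_total (bbf w P (BQ A N 0 P) a) 1 with h4 | h4
      · rw [min_eq_left h4]
        linarith
      · rw [min_eq_right h4]
        linarith
    have h4 := vv_nonneg he0 a
    linarith only [mul_le_mul_of_nonneg_right h3 h4]
  have hSP : (1 - ε) * R ≤ ∑ a ∈ UU w, bbf w P0 (PQ N 0 P0) a * rr w e (-a) := by
    rw [← hR', mul_sum]
    apply sum_le_sum
    intro a ha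
    exact mul_le_mul_of_nonneg_right (hbP0 a ha) (rr_nonneg he0 _)
  have h12 : D1 E (BQ A N 0 P) + D2 E (BQ A N (M + H) P) ≤
      YY w P H * (∑ a ∈ UU w, bbf w P (BQ A N 0 P) a * vv w e a) + 2 * (ε * (YY w P H * Φ)) := by
    have h1 : ∑ a ∈ UU w, bbf w P (BQ A N (M + H) P) a * rr w e a ≤ ∑ a ∈ UU w, bbf w P (BQ A N 0 P) a * rr w e a :=
      sum_le_sum fun a _ => mul_le_mul_of_nonneg_right (bbf_mono w P hBB a) (rr_nonneg he0 a)
    have h2 : ∑ a ∈ UU w, bbf w P (BQ A N 0 P) a * vv w e a =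
        ∑ a ∈ UU w, bbf w P (BQ A N 0 P) a * rr w e (-a) + ∑ a ∈ UU w, bbf w P (BQ A N 0 P) a * rr w e a := by
      rw [← sum_add_distrib]
      apply sum_congr rfl
      intro a _
      unfold vv
      ring
    have h3 := mul_le_mul_of_nonneg_left h1 hYpos.le
    rw [h2]
    linarith [hb1.2, hb2.2]
  have hfinal := arithF (X := (1 - κ) * (L / (1 + L))) (u := u) (ε := ε) (Y := YY w P H) (Y0 := YY w P0 H) (R := R)
    (Φ := Φ) (K := K) (SP := ∑ a ∈ UU w, bbf w P0 (PQ N 0 P0) a * rr w e (-a))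
    (SB := ∑ a ∈ UU w, bbf w P (BQ A N 0 P) a * vv w e a) (C0 := D1 E (PQ N 0 P0)) (C1 := D1 E (BQ A N 0 P))
    (C2' := D2 E (BQ A N (M + H) P)) (Lam := ∑ a ∈ UU w, β a * vv w e a) (Lr := L / (1 + L)) (κ := κ)
    hu0 hu1 hYpos hY0pos hR0 hK0 hΦ0.le hε0 hεu hεK hKR (by positivity) (by
      rw [div_le_one (by linarith)]
      linarith) hκ0 hκ1 rfl
    (YY_ratio w M P0 P H L u hL hu0 hu1 hP0b hHM2 hP2 (by linarith) hP0P hP02) hSP (by linarith [hb0.1]) h12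
    hwin hSB
  obtain ⟨X, hX⟩ : ∃ X : ℝ, X = (1 - κ) * (L / (1 + L)) := ⟨_, rfl⟩
  rw [← hX] at hfinal
  have hLr : L / (1 + L) ≤ 1 := by
    rw [div_le_one (by linarith)]
    linarith
  have hLr0 : 0 ≤ L / (1 + L) := by positivity
  have hX1 : X ≤ 1 := by
    rw [hX]
    exact mul_le_one₀ (by linarith only [hκ0]) hLr0 hLr
  obtain ⟨lam, hlam⟩ : ∃ lam : ℝ, lam = max 0 (X - 10 * u) := ⟨_, rfl⟩
  have hlam0 : 0 ≤ lam := by rw [hlam]; exact le_max_left _ _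
  have hlam1 : lam ≤ 1 := by
    rw [hlam]
    apply max_le zero_le_one
    linarith
  have hlam2 : lam * ∑ a ∈ UU w, rr w e a ≤ ∑ a ∈ UU w, β a * vv w e a := by
    rw [← hR, hlam]
    rcases le_total 0 (X - 10 * u) with h1 | h1
    · rw [max_eq_right h1]
      exact hfinal
    · rw [max_eq_left h1, zero_mul]
      exact sum_nonneg fun a _ => mul_nonneg (hβ0 a) (vv_nonneg he0 a)
  have hfin := hloc h hh hhh0 w (by omega) e he0 he1 hez hes β hβ0 hβ1 lam hlam0 hlam1 hlam2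
  have hll : 0 ≤ Real.log (Real.log (1 / h)) := by
    apply Real.log_nonneg
    have h1 : (16 : ℝ) ≤ 1 / h := by
      rw [le_div_iff₀ hh]
      linarith
    have h2 : Real.exp 1 ≤ 1 / h := by
      have := Real.exp_one_lt_d9
      linarith
    have h3 := Real.log_le_log (Real.exp_pos _) h2
    rwa [Real.log_exp] at h3
  have hs1 : ∑ a ∈ UU w, β a ≤ Nat.totient (Wp w) * (((BQ A N 0 P).card : ℝ) * Real.log P / P) := by
    refine le_trans ?_ (sum_bbf w P (BQ A N 0 P))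
    apply sum_le_sum
    intro a _
    rw [hβ]
    exact min_le_left _ _
  have h2 : (lam * (2 * C2 * Real.exp (-Real.eulerMascheroniConstant)) - δ / 2) * Nat.totient (Wp w) ≤
      (Real.log (Real.log (1 / h)) * (((BQ A N 0 P).card : ℝ) * Real.log P / P)) * Nat.totient (Wp w) := by
    calc (lam * (2 * C2 * Real.exp (-Real.eulerMascheroniConstant)) - δ / 2) * Nat.totient (Wp w) ≤
        Real.log (Real.log (1 / h)) * ∑ a ∈ UU w, β a := hfin
      _ ≤ Real.log (Real.log (1 / h)) * (Nat.totient (Wp w) * (((BQ A N 0 P).card : ℝ) * Real.log P / P)) :=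
          mul_le_mul_of_nonneg_left hs1 hll
      _ = _ := by ring
  have h3 := le_of_mul_le_mul_right h2 hφ
  refine le_trans ?_ h3
  have h4 : X - 10 * u ≤ lam := by rw [hlam]; exact le_max_right _ _
  have h5 := DD_pos
  have h6 := DD_le
  have h7 : (X - 10 * u) * (2 * DD) ≤ lam * (2 * DD) := mul_le_mul_of_nonneg_right h4 (by positivity)
  have h8 : 20 * u * DD ≤ 20 * u := by
    apply mul_le_of_le_one_right (by positivity) h6
  have h9 : lam * (2 * C2 * Real.exp (-Real.eulerMascheroniConstant)) = lam * (2 * DD) := by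
    unfold DD
    ring
  rw [h9, ← hX]
  linarith

end Pool.Agent.K9h13.RD
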