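import Mathlib
import Pool.Agent.K9h13.RD.FW

/-! The upper bound for the missing differences. -/

set_option autoImplicit false

namespace Pool.Agent.K9h13.RD

open Finset Filter Topology
open Pool.Agent.TH881
open Pool.Agent.TH881.RG
open Pool.Agent.H373R2.T7

lemma BQ_eq (A : Set ℕ) (N P : ℕ) : BQ A N 0 P = BN A N P := by
  ext p
  rw [mem_BQ, mem_BN, mem_PQ, mem_PN]
  constructor
  · rintro ⟨⟨h1, h2⟩, h3⟩
    exact ⟨⟨h1.2, h2⟩, h3⟩
  · rintro ⟨⟨h1, h2⟩, h3⟩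
    exact ⟨⟨⟨h2.1.pos, h1⟩, h2⟩, h3⟩

/-- the upper bound -/
theorem del_upper (κ δ L : ℝ) (hκ0 : 0 ≤ κ) (hκ1 : κ < 1) (hδ : 0 < δ) (hL : 0 < L) :
    ∃ η0 : ℝ, 0 < η0 ∧ ∀ η : ℝ, 0 < η → η ≤ η0 → ∀ A : Set ℕ, 1 - η ≤ relLower A →
    upperDensity {n | Even n ∧ (rd L A n : ℝ) ≤ κ * rd L Set.univ n} ≤
      Real.exp (-Real.exp (((1 - κ) * (L / (1 + L)) * (2 * DD) - δ) / η)) := by
  obtain ⟨D, hD⟩ : ∃ D : ℝ, D = (L / (1 + L)) * (2 * DD) := ⟨_, rfl⟩
  have hD0 : 0 < D := by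
    have := DD_pos
    rw [hD]
    positivity
  have hDe : (1 - κ) * (L / (1 + L)) * (2 * DD) = (1 - κ) * D := by rw [hD]; ring
  rw [hDe]
  obtain ⟨δ', hδ'⟩ : ∃ δ' : ℝ, δ' = min δ ((1 - κ) * D / 2) := ⟨_, rfl⟩
  have hκ' : 0 < 1 - κ := by linarith
  have hδ'0 : 0 < δ' := by rw [hδ']; positivity
  have hδ'1 : δ' ≤ δ := by rw [hδ']; exact min_le_left _ _
  have hδ'2 : δ' ≤ (1 - κ) * D / 2 := by rw [hδ']; exact min_le_right _ _
  obtain ⟨X, hX⟩ : ∃ X : ℝ, X = (1 - κ) * D - δ' := ⟨_, rfl⟩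
  have hX0 : 0 < X := by
    have : 0 < (1 - κ) * D := by positivity
    rw [hX]
    linarith
  obtain ⟨h0, hh0, hh16, hfw⟩ := fw2 κ (δ' / 4) L hκ0 hκ1 (by positivity) hL
  rw [hDe] at hfw
  -- choice of `η0`
  obtain ⟨Q, hQ⟩ : ∃ Q : ℝ, Q = Real.log (1 / h0) + 1 := ⟨_, rfl⟩
  have hQ1 : 1 < Q := by
    have h1 : (1 : ℝ) < 1 / h0 := by
      rw [lt_div_iff₀ hh0]
      linarith
    have := Real.log_pos h1
    rw [hQ]
    linarith
  refine ⟨min (δ' / 16) (X / Q), by positivity, ?_⟩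
  intro η hη hη0 A hA
  have hη1 : η ≤ δ' / 16 := hη0.trans (min_le_left _ _)
  have hη2 : η ≤ X / Q := hη0.trans (min_le_right _ _)
  obtain ⟨h, hh⟩ : ∃ h : ℝ, h = Real.exp (-Real.exp (X / η)) := ⟨_, rfl⟩
  have hh_pos : 0 < h := by rw [hh]; exact Real.exp_pos _
  have hXη : Q ≤ X / η := by
    rw [le_div_iff₀ hη]
    rw [le_div_iff₀ (by linarith)] at hη2
    linarith
  have hhle : h ≤ h0 := by
    have h1 : Real.log (1 / h0) ≤ Real.exp (X / η) := by
      have h2 := Real.add_one_le_exp (X / η)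
      linarith
    have h2 : -Real.exp (X / η) ≤ Real.log h0 := by
      rw [one_div, Real.log_inv] at h1
      linarith
    rw [hh]
    calc Real.exp (-Real.exp (X / η)) ≤ Real.exp (Real.log h0) := Real.exp_le_exp.2 h2
      _ = h0 := Real.exp_log hh0
  have hgoal : h ≤ Real.exp (-Real.exp (((1 - κ) * D - δ) / η)) := by
    rw [hh]
    apply Real.exp_le_exp.2
    apply neg_le_neg
    apply Real.exp_le_exp.2
    apply div_le_div_of_nonneg_right _ hη.le
    rw [hX]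
    linarith
  refine le_trans ?_ hgoal
  by_contra hcon
  push Not at hcon
  obtain ⟨S, hS⟩ : ∃ S : Set ℕ, S = {n | Even n ∧ (rd L A n : ℝ) ≤ κ * rd L Set.univ n} := ⟨_, rfl⟩
  rw [← hS] at hcon
  -- parameters
  obtain ⟨θ0, hθ0, hfw2⟩ := hfw (h / 4) (by positivity) (by linarith)
  obtain ⟨θ, hθ⟩ : ∃ θ : ℝ, θ = h / 8 * min θ0 1 := ⟨_, rfl⟩
  have hθ0' : 0 < θ := by rw [hθ]; positivity
  have hθ1 : θ ≤ h / 8 := by
    rw [hθ]
    exact mul_le_of_le_one_right (by positivity) (min_le_right _ _)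
  have hθ2 : θ ≤ h / 8 * θ0 := by
    rw [hθ]
    exact mul_le_mul_of_nonneg_left (min_le_left _ _) (by positivity)
  obtain ⟨C, hC⟩ : ∃ C : ℕ, C = 4 * ⌈L⌉₊ + 12 := ⟨_, rfl⟩
  have hCr : 4 * L + 12 ≤ C := by
    rw [hC]
    push_cast
    have := Nat.le_ceil L
    linarith
  have hC0 : (0 : ℝ) < C := by linarith
  obtain ⟨N0, hN0⟩ := hfw2 (θ / (2 * C)) (by positivity)
  obtain ⟨x0, hx0⟩ := exists_window S h θ hh_pos (by linarith) hθ0' hθ1
  obtain ⟨ε, hε⟩ : ∃ ε : ℝ, ε = η ^ 2 / (X + 2 * η) := ⟨_, rfl⟩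
  have hε0 : 0 < ε := by rw [hε]; positivity
  obtain ⟨M1, hM1⟩ := missing stPC A η ε hη hε0 hA
  obtain ⟨x1, hx1⟩ := exists_nat_ge (8 * (M1 + 2) / h)
  obtain ⟨x2, hx2⟩ := exists_nat_ge (2 / θ)
  -- frequently
  have hfreq : ∃ᶠ n : ℕ in atTop, h * n ≤ cnt S n := by
    unfold upperDensity at hcon
    have h1 := frequently_lt_of_lt_limsup (ratio_bdd_below S).isCoboundedUnder_le hcon
    have h2 := h1.and_eventually (eventually_ge_atTop 1)
    refine h2.mono ?_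
    rintro n ⟨h3, h4⟩
    have h5 : (0 : ℝ) < n := by exact_mod_cast h4
    rw [lt_div_iff₀ h5] at h3
    exact h3.le
  obtain ⟨x, hxc, hxg⟩ := (hfreq.and_eventually (eventually_ge_atTop (N0 + x0 + x1 + x2 + 1))).exists
  obtain ⟨M, H, hH1, hH2, hM1', hM2, hcard⟩ := hx0 x (by omega) hxc
  have hx1n : 1 ≤ x := by omega
  have hxr : (1 : ℝ) ≤ x := by exact_mod_cast hx1n
  have hhx : 8 * ((M1 : ℝ) + 2) ≤ h * x := by
    have h1 : (x1 : ℝ) ≤ x := by exact_mod_cast (by omega : x1 ≤ x)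
    have h2 := hx1.trans h1
    rw [div_le_iff₀ hh_pos] at h2
    linarith
  have hθx : 2 ≤ θ * x := by
    have h1 : (x2 : ℝ) ≤ x := by exact_mod_cast (by omega : x2 ≤ x)
    have h2 := hx2.trans h1
    rw [div_le_iff₀ hθ0'] at h2
    linarith
  have hM1r : (0 : ℝ) ≤ M1 := Nat.cast_nonneg _
  have hMlow : h / 8 * x ≤ M := by linarith
  have hMM1 : M1 ≤ M := by
    have h1 : (M1 : ℝ) ≤ M := by linarith
    exact_mod_cast h1
  have hθle : θ * (x : ℝ) ≤ h / 8 * x := mul_le_mul_of_nonneg_right hθ1 (by linarith)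
  have hHxr : (H : ℝ) ≤ x := by
    have h1 : h / 8 * (x : ℝ) ≤ 1 * x := mul_le_mul_of_nonneg_right (by linarith) (by linarith)
    linarith only [h1, hθle, hH1]
  have hMxr : (M : ℝ) ≤ x := by exact_mod_cast hM2
  -- the length `P`
  obtain ⟨P, hP⟩ : ∃ P : ℕ, P = ⌈(1 + L) * ((M : ℝ) + H)⌉₊ := ⟨_, rfl⟩
  have hPa : (1 + L) * ((M : ℝ) + H) ≤ P := by rw [hP]; exact Nat.le_ceil _
  have hPb : (P : ℝ) ≤ (1 + L) * ((M : ℝ) + H) + 1 := by
    rw [hP]
    exact (Nat.ceil_lt_add_one (by positivity)).le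
  have hMPr : (M : ℝ) ≤ P := by
    have a1 : (0 : ℝ) ≤ H := Nat.cast_nonneg _
    have a2 : (0 : ℝ) ≤ M := Nat.cast_nonneg _
    linarith only [a1, hPa, mul_nonneg hL.le (add_nonneg a2 a1)]
  have hMP : M ≤ P := by exact_mod_cast hMPr
  have hsum : 2 * (M + P + H) ≤ C * x := by
    have h1 : ((2 * (M + P + H) : ℕ) : ℝ) ≤ ((C * x : ℕ) : ℝ) := by
      push_cast
      have h2 : (1 + L) * ((M : ℝ) + H) ≤ (1 + L) * (2 * x) := mul_le_mul_of_nonneg_left (by linarith) (by linarith)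
      have h3 : (4 * L + 12) * (x : ℝ) ≤ C * x := mul_le_mul_of_nonneg_right hCr (by linarith)
      linarith only [h2, h3, hPb, hMxr, hHxr, hxr]
    exact_mod_cast h1
  have hρ1 : θ / (2 * C) * ((C * x : ℕ) : ℝ) = θ * x / 2 := by
    push_cast
    field_simp
  have hCx : N0 ≤ C * x := by
    have h1 : x ≤ C * x := Nat.le_mul_of_pos_left x (by omega)
    omega
  have hres := hN0 (C * x) hCx M H P hsum (by rw [hρ1]; linarith) (by rw [hρ1]; linarith) (by
    calc (H : ℝ) ≤ θ * x := hH1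
      _ ≤ h / 8 * θ0 * x := mul_le_mul_of_nonneg_right hθ2 (by linarith)
      _ = θ0 * (h / 8 * x) := by ring
      _ ≤ θ0 * M := mul_le_mul_of_nonneg_left hMlow hθ0.le) hPa hPb A (win S M H) (win_subset S M H) (by
    intro n hn
    rw [mem_win, hS] at hn
    exact hn.2) (by linarith)
  have hmiss := hM1 P (hMM1.trans hMP) (C * x)
  rw [BQ_eq] at hres
  -- the final inequality
  have hlog : Real.log (Real.log (1 / (h / 4))) ≤ X / η + 2 := by
    have h1 : Real.log (1 / (h / 4)) = Real.log 4 + Real.exp (X / η) := by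
      rw [one_div_div, Real.log_div (by norm_num) hh_pos.ne', hh, Real.log_exp]
      ring
    rw [h1]
    have h2 : Real.log 4 ≤ 2 := by
      have h3 : Real.log 4 = 2 * Real.log 2 := by
        rw [show (4 : ℝ) = 2 ^ 2 by norm_num, Real.log_pow]
        norm_num
      have := Real.log_two_lt_d9
      linarith
    have h4 : 1 ≤ Real.exp (X / η) := Real.one_le_exp (by positivity)
    have h5 : Real.log 4 + Real.exp (X / η) ≤ Real.exp (X / η + 2) := by
      rw [Real.exp_add]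
      have h6 : 3 ≤ Real.exp 2 := by
        have := Real.add_one_le_exp (2 : ℝ)
        linarith
      have h7 : Real.exp (X / η) * 3 ≤ Real.exp (X / η) * Real.exp 2 :=
        mul_le_mul_of_nonneg_left h6 (by linarith only [h4])
      linarith only [h7, h4, h2]
    have h6 : 0 < Real.log 4 := Real.log_pos (by norm_num)
    calc Real.log (Real.log 4 + Real.exp (X / η)) ≤ Real.log (Real.exp (X / η + 2)) :=
          Real.log_le_log (by positivity) h5
      _ = _ := Real.log_exp _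
  have hll0 : 0 ≤ X / η + 2 := by positivity
  have h9 : (0 : ℝ) ≤ ((BN A (C * x) P).card : ℝ) * Real.log P / P := by
    have := Real.log_natCast_nonneg P
    positivity
  have h10 : Real.log (Real.log (1 / (h / 4))) * (((BN A (C * x) P).card : ℝ) * Real.log P / P) ≤
      (X / η + 2) * (η + ε) :=
    (mul_le_mul_of_nonneg_right hlog h9).trans (mul_le_mul_of_nonneg_left hmiss hll0)
  have h11 : (X / η + 2) * (η + ε) = X + 3 * η := by
    rw [hε]
    field_simp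
    ring
  rw [h11] at h10
  linarith

end Pool.Agent.K9h13.RD
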