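import Mathlib
import Pool.Agent.K9h13.RD.UP
import Pool.Agent.TH986.J1816

/-! Examples: deleting residue classes. -/

set_option autoImplicit false

namespace Pool.Agent.K9h13.RD

open Finset Filter Topology
open Pool.Agent.TH881
open Pool.Agent.TH881.RG
open Pool.Agent.H373R2.T7
open Pool.Agent.TH494.RG (om om_log om_pos prime_count sqrt_small PrC class_two primes_small card_le_cnt)
open Pool.Agent.TH986.J1816 (S0 mem_S0 S0_card S0_pos choice_gen)

/-- lower bound for the number of primes -/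
lemma pi_lower (ε : ℝ) (hε : 0 < ε) : ∀ᶠ n : ℕ in atTop,
    (1 - ε) * ((n : ℝ) / Real.log n) ≤ (cnt {p | p.Prime} n : ℝ) := by
  classical
  have h0 : Wp 0 = 1 := by
    unfold Wp
    rw [show pz 0 = ∅ from rfl, prod_empty]
  filter_upwards [prime_count stPC 0 ε hε] with n h1
  have h5 := (h1 (UU 0) (fun a ha => mem_UU.1 ha)).1
  rw [card_UU] at h5
  have h7 : (Nat.totient (Wp 0) : ℝ) = 1 := by rw [h0]; simp
  have h8 : pp 0 n = n / Real.log n := by
    unfold pp
    rw [h7, one_mul]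
  rw [h7, h8, one_mul] at h5
  refine h5.trans ?_
  have h9 : (PrC 0 n (UU 0)).card ≤ cnt {p | p.Prime} n := by
    rw [cnt_eq]
    unfold PrC
    apply card_le_card
    intro p hp
    rw [mem_filter, mem_Icc] at hp
    rw [mem_cntS]
    exact ⟨hp.1, hp.2.1⟩
  exact_mod_cast h9

/-- the relative density from the number of the deleted primes -/
lemma rel_of_del (A : Set ℕ) (c : ℝ) (hc : 0 ≤ c) (h : ∀ ε : ℝ, 0 < ε → ∀ᶠ n : ℕ in atTop,
    (cnt {p | p.Prime ∧ p ∉ A} n : ℝ) ≤ (c + ε) * ((n : ℝ) / Real.log n)) : 1 - c ≤ relLower A := by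
  classical
  have key : ∀ ε : ℝ, 0 < ε → 1 - c - ε ≤ relLower A := by
    intro ε hε
    obtain ⟨e1, he1⟩ : ∃ e1 : ℝ, e1 = ε / (1 + c + ε) := ⟨_, rfl⟩
    have he0 : 0 < e1 := by rw [he1]; positivity
    have he2 : e1 * (1 + c + ε) = ε := by rw [he1]; field_simp
    have he3 : e1 < 1 := by
      rw [he1, div_lt_one (by positivity)]
      linarith
    unfold relLower
    apply le_liminf_of_le
    · apply IsBoundedUnder.isCoboundedUnder_ge
      refine isBoundedUnder_of ⟨1, fun n => ?_⟩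
      have h1 : cnt {p | p.Prime ∧ p ∈ A} n ≤ cnt {p | p.Prime} n :=
        cnt_subset (fun p hp => hp.1) n
      have h2 : (cnt {p | p.Prime ∧ p ∈ A} n : ℝ) ≤ (cnt {p | p.Prime} n : ℝ) := by exact_mod_cast h1
      exact div_le_one_of_le₀ h2 (Nat.cast_nonneg _)
    · filter_upwards [pi_lower e1 he0, h e1 he0, eventually_ge_atTop 2] with n h1 h2 h3
      have h4 : cnt {p | p.Prime} n = cnt {p | p.Prime ∧ p ∈ A} n + cnt {p | p.Prime ∧ p ∉ A} n := by
        rw [cnt_eq, cnt_eq, cnt_eq, ← card_union_of_disjoint]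
        · congr 1
          ext p
          rw [mem_union, mem_cntS, mem_cntS, mem_cntS]
          constructor
          · rintro ⟨h5, h6⟩
            by_cases hp : p ∈ A
            · exact Or.inl ⟨h5, h6, hp⟩
            · exact Or.inr ⟨h5, h6, hp⟩
          · rintro (⟨h5, h6⟩ | ⟨h5, h6⟩)
            · exact ⟨h5, h6.1⟩
            · exact ⟨h5, h6.1⟩
        · rw [disjoint_left]
          intro p hp hp'
          rw [mem_cntS] at hp hp'
          exact hp'.2.2 hp.2.2
      have h4r : (cnt {p | p.Prime} n : ℝ) = cnt {p | p.Prime ∧ p ∈ A} n + cnt {p | p.Prime ∧ p ∉ A} n := by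
        exact_mod_cast h4
      have hn : (2 : ℝ) ≤ n := by exact_mod_cast h3
      have hl : 0 < Real.log n := Real.log_pos (by linarith)
      have hx : 0 < (n : ℝ) / Real.log n := by positivity
      have hpi : 0 < (cnt {p | p.Prime} n : ℝ) := lt_of_lt_of_le (mul_pos (by linarith) hx) h1
      rw [le_div_iff₀ hpi]
      have h5 : (c + e1) ≤ (c + ε) * (1 - e1) := by linarith only [he2]
      have h6 : (cnt {p | p.Prime ∧ p ∉ A} n : ℝ) ≤ (c + ε) * (cnt {p | p.Prime} n : ℝ) := by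
        calc (cnt {p | p.Prime ∧ p ∉ A} n : ℝ) ≤ (c + e1) * ((n : ℝ) / Real.log n) := h2
          _ ≤ ((c + ε) * (1 - e1)) * ((n : ℝ) / Real.log n) := mul_le_mul_of_nonneg_right h5 hx.le
          _ = (c + ε) * ((1 - e1) * ((n : ℝ) / Real.log n)) := by ring
          _ ≤ _ := mul_le_mul_of_nonneg_left h1 (by linarith)
      linarith
  apply le_of_forall_pos_le_add
  intro ε hε
  linarith [key ε hε]

/-- a constant is small compared to `n / log n` -/
lemma const_small (y ε : ℝ) (hε : 0 < ε) : ∀ᶠ n : ℕ in atTop, y ≤ ε * ((n : ℝ) / Real.log n) := by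
  have h1 := sqrt_small 0 ε hε
  have h2 : ∀ᶠ n : ℕ in atTop, y ≤ √(n : ℝ) := by
    have h3 : Tendsto (fun n : ℕ => √(n : ℝ)) atTop atTop :=
      Real.tendsto_sqrt_atTop.comp tendsto_natCast_atTop_atTop
    exact h3.eventually_ge_atTop y
  filter_upwards [h1, h2] with n h3 h4
  have h0 : Wp 0 = 1 := by
    unfold Wp
    rw [show pz 0 = ∅ from rfl, prod_empty]
  have h7 : (Nat.totient (Wp 0) : ℝ) = 1 := by rw [h0]; simp
  have h8 : pp 0 n = n / Real.log n := by
    unfold pp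
    rw [h7, one_mul]
  rw [h8] at h3
  linarith

/-- deleting the primes in the classes of `S0 y` and the small primes -/
def AF (y : ℕ) : Set ℕ := {p : ℕ | y < p ∧ (p : ZMod (Wp y)) ∉ S0 y}

lemma rel_AF (y : ℕ) (hy : 2 ≤ y) : 1 - om y ≤ relLower (AF y) := by
  classical
  apply rel_of_del (AF y) (om y) (om_pos y).le
  intro ε hε
  have hφ := totient_Wp_pos y
  have hom := om_pos y
  obtain ⟨e1, he1⟩ : ∃ e1 : ℝ, e1 = ε / (om y + 2) := ⟨_, rfl⟩
  have he0 : 0 < e1 := by rw [he1]; positivity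
  have he2 : e1 * (om y + 2) = ε := by rw [he1]; field_simp
  filter_upwards [prime_count stPC y e1 he0, const_small y e1 he0, sqrt_small 0 e1 he0, eventually_ge_atTop 2] with n h1 h2 h3 h4
  have h5 := (h1 (S0 y) (fun a ha => (mem_S0.1 ha).1)).2
  rw [S0_card y hy] at h5
  have h0 : Wp 0 = 1 := by
    unfold Wp
    rw [show pz 0 = ∅ from rfl, prod_empty]
  have h7 : (Nat.totient (Wp 0) : ℝ) = 1 := by rw [h0]; simp
  have h8 : pp 0 n = n / Real.log n := by
    unfold pp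
    rw [h7, one_mul]
  rw [h8] at h3
  have h9 : (Nat.totient (Wp y) : ℝ) * pp y n = n / Real.log n := by
    unfold pp
    rw [← mul_div_assoc, mul_div_mul_left _ _ hφ.ne']
  have h10 : cnt {p | p.Prime ∧ p ∉ AF y} n ≤ y + (PrC y n (S0 y)).card := by
    rw [cnt_eq]
    have h11 : cntS {p | p.Prime ∧ p ∉ AF y} n ⊆ Icc 1 y ∪ PrC y n (S0 y) := by
      intro p hp
      rw [mem_cntS] at hp
      obtain ⟨hp1, hp2, hp3⟩ := hp
      rw [mem_union, mem_Icc]
      unfold PrC
      rw [mem_filter, mem_Icc]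
      by_cases h : p ≤ y
      · exact Or.inl ⟨hp1.1, h⟩
      · right
        refine ⟨hp1, hp2, ?_⟩
        by_contra hcon
        exact hp3 ⟨by omega, hcon⟩
    refine (card_le_card h11).trans ((card_union_le _ _).trans ?_)
    rw [Nat.card_Icc]
    omega
  have h11 : (cnt {p | p.Prime ∧ p ∉ AF y} n : ℝ) ≤ y + (PrC y n (S0 y)).card := by exact_mod_cast h10
  have h12 : om y * (Nat.totient (Wp y) : ℝ) * ((1 + e1) * pp y n) = om y * (1 + e1) * (n / Real.log n) := by
    rw [← h9]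
    ring
  rw [h12] at h5
  calc (cnt {p | p.Prime ∧ p ∉ AF y} n : ℝ) ≤ y + (PrC y n (S0 y)).card := h11
    _ ≤ e1 * (n / Real.log n) + (om y * (1 + e1) * (n / Real.log n) + e1 * (n / Real.log n)) := by linarith
    _ = (om y + e1 * (om y + 2)) * (n / Real.log n) := by ring
    _ = _ := by rw [he2]

lemma unit_of_gt {y p : ℕ} (hp : p.Prime) (hy : y < p) : IsUnit (p : ZMod (Wp y)) := by
  rw [ZMod.isUnit_iff_coprime, Nat.Prime.coprime_iff_not_dvd hp, prime_dvd_Wp hp]
  omega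

lemma even_of_two {y n : ℕ} (hy : 2 ≤ y) (hn : (n : ZMod (Wp y)) = 2) : Even n := by
  have hW2 : 2 ∣ Wp y := (prime_dvd_Wp Nat.prime_two).2 hy
  have h1 : ((n : ℕ) : ZMod (Wp y)) = ((2 : ℕ) : ZMod (Wp y)) := by
    rw [hn]; norm_num
  rw [ZMod.natCast_eq_natCast_iff] at h1
  have h2 : n ≡ 2 [MOD 2] := h1.of_dvd hW2
  rw [Nat.even_iff]
  exact h2

/-- no differences in the class of `2` -/
lemma AF_none (y n p q : ℕ) (hn : (n : ZMod (Wp y)) = 2) (hp : p.Prime) (hq : q.Prime)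
    (hpA : p ∈ AF y) (hqA : q ∈ AF y) (h : q + n = p) : False := by
  have hup := unit_of_gt hp hpA.1
  have huq := unit_of_gt hq hqA.1
  apply hpA.2
  rw [mem_S0]
  refine ⟨hup, ?_⟩
  have h1 : (2 : ZMod (Wp y)) - p = -q := by
    rw [← h]
    push_cast
    rw [hn]
    ring
  rw [h1, IsUnit.neg_iff]
  exact huq

/-- `W` is not too large -/
lemma exp_choice (W X : ℝ) (hW : 2 ≤ W) (h : Real.log (Real.log W) ≤ X) : Real.exp (-Real.exp X) ≤ 1 / W := by
  have hlogW : 0 < Real.log W := Real.log_pos (by linarith)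
  have h3 : Real.log W ≤ Real.exp X := by
    rw [← Real.log_le_iff_le_exp hlogW]
    exact h
  rw [Real.exp_neg, one_div]
  apply inv_anti₀ (by linarith)
  rw [← Real.log_le_iff_le_exp (by linarith)]
  exact h3

/-- the example for all differences -/
theorem example_all (δ : ℝ) (hδ : 0 < δ) : ∃ η0 : ℝ, 0 < η0 ∧ ∀ η : ℝ, 0 < η → η ≤ η0 →
    ∃ A : Set ℕ, 1 - η ≤ relLower A ∧ Real.exp (-Real.exp ((2 * DD + δ) / η)) ≤
      lowerDensity {h | Even h ∧ ¬ ∃ p q : ℕ, p.Prime ∧ q.Prime ∧ p ∈ A ∧ q ∈ A ∧ q + h = p} := by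
  classical
  obtain ⟨η0, hη0, h0⟩ := choice_gen om om_pos _ om_log δ hδ
  refine ⟨η0, hη0, fun η hη hηle => ?_⟩
  obtain ⟨y, hy2, hyD, hyL⟩ := h0 η hη hηle
  refine ⟨AF y, by linarith [rel_AF y hy2], ?_⟩
  have hW2 : 2 ≤ Wp y := Nat.le_of_dvd (Wp_pos y) ((prime_dvd_Wp Nat.prime_two).2 (by omega))
  have hW2R : (2 : ℝ) ≤ Wp y := by exact_mod_cast hW2
  have h2 : Real.log (Real.log (Wp y)) ≤ (2 * DD + δ) / η := by
    rw [le_div_iff₀ hη]
    have : 2 * C2 * Real.exp (-Real.eulerMascheroniConstant) = 2 * DD := by unfold DD; ring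
    rw [this] at hyL
    linarith
  refine (exp_choice _ _ hW2R h2).trans ?_
  apply le_of_forall_pos_le_add
  intro ε hε
  have key : 1 / (Wp y : ℝ) - ε ≤
      lowerDensity {h | Even h ∧ ¬ ∃ p q : ℕ, p.Prime ∧ q.Prime ∧ p ∈ AF y ∧ q ∈ AF y ∧ q + h = p} := by
    apply le_of_eventually
    have hlin : ∀ᶠ N : ℕ in atTop, 1 ≤ ε * (N : ℝ) :=
      (tendsto_natCast_atTop_atTop.const_mul_atTop hε).eventually_ge_atTop _
    filter_upwards [hlin] with N h3
    have h5 := class_two (Wp y) N hW2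
    have h6 : (((Icc 1 N).filter (fun n : ℕ => (n : ZMod (Wp y)) = 2)).card : ℝ) ≤
        (cnt {h | Even h ∧ ¬ ∃ p q : ℕ, p.Prime ∧ q.Prime ∧ p ∈ AF y ∧ q ∈ AF y ∧ q + h = p} N : ℝ) := by
      have h7 := card_le_cnt {h | Even h ∧ ¬ ∃ p q : ℕ, p.Prime ∧ q.Prime ∧ p ∈ AF y ∧ q ∈ AF y ∧ q + h = p} N
        ((Icc 1 N).filter (fun n : ℕ => (n : ZMod (Wp y)) = 2)) ∅ (filter_subset _ _) (by
          intro n hn
          rw [mem_filter] at hn
          left
          refine ⟨even_of_two hy2 hn.2, ?_⟩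
          rintro ⟨p, q, hp, hq, hpA, hqA, h⟩
          exact AF_none y n p q hn.2 hp hq hpA hqA h)
      rw [card_empty, add_zero] at h7
      exact_mod_cast h7
    have h9 : (1 / (Wp y : ℝ) - ε) * N = (N : ℝ) / Wp y - ε * N := by ring
    rw [h9]
    linarith
  linarith

end Pool.Agent.K9h13.RD
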