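import Mathlib
import Pool.Agent.K9h13.RD.EX1

/-! The positions of the prime pairs are equidistributed for almost all differences. -/

set_option autoImplicit false

namespace Pool.Agent.K9h13.RD

open Finset Filter Topology
open Pool.Agent.TH881
open Pool.Agent.TH881.RG
open Pool.Agent.H373R2.T7

/-- a window in which a set of positive upper density is dense -/
lemma window_of (S : Set ℕ) (h θ : ℝ) (hh : 0 < h) (hh1 : h ≤ 1) (hθ : 0 < θ) (hθh : θ ≤ h / 8)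
    (hS : h < upperDensity S) (x1 : ℕ) : ∃ x M H : ℕ, x1 ≤ x ∧ (H : ℝ) ≤ θ * x ∧ θ / 2 * x ≤ H ∧
      h / 8 * x ≤ M ∧ M ≤ x ∧ h / 2 * H ≤ (win S M H).card := by
  obtain ⟨x0, hx0⟩ := exists_window S h θ hh hh1 hθ hθh
  obtain ⟨x2, hx2⟩ := exists_nat_ge (8 / h)
  obtain ⟨x3, hx3⟩ := exists_nat_ge (2 / θ)
  have hfreq : ∃ᶠ n : ℕ in atTop, h * n ≤ cnt S n := by
    unfold upperDensity at hS
    have h1 := frequently_lt_of_lt_limsup (ratio_bdd_below S).isCoboundedUnder_le hS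
    have h2 := h1.and_eventually (eventually_ge_atTop 1)
    refine h2.mono ?_
    rintro n ⟨h3, h4⟩
    have h5 : (0 : ℝ) < n := by exact_mod_cast h4
    rw [lt_div_iff₀ h5] at h3
    exact h3.le
  obtain ⟨x, hxc, hxg⟩ := (hfreq.and_eventually (eventually_ge_atTop (x0 + x1 + x2 + x3))).exists
  obtain ⟨M, H, hH1, hH2, hM1', hM2, hcard⟩ := hx0 x (by omega) hxc
  have a2 : 8 ≤ h * x := by
    have h1 : (x2 : ℝ) ≤ x := by exact_mod_cast (by omega : x2 ≤ x)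
    have h2 := hx2.trans h1
    rw [div_le_iff₀ hh] at h2
    linarith
  have a3 : 2 ≤ θ * x := by
    have h1 : (x3 : ℝ) ≤ x := by exact_mod_cast (by omega : x3 ≤ x)
    have h2 := hx3.trans h1
    rw [div_le_iff₀ hθ] at h2
    linarith
  exact ⟨x, M, H, by omega, hH1, by linarith, by linarith, hM2, hcard⟩

/-- `P / log P` for comparable `P` -/
lemma YY_le (w H : ℕ) (ρ : ℝ) (hρ : 0 < ρ) (u : ℝ) (hu : 0 < u) : ∃ N0 : ℕ, ∀ N : ℕ, N0 ≤ N → ∀ P1 P2 : ℕ,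
    P2 ≤ N → ρ * N ≤ P1 → ρ * N ≤ P2 → ∀ c : ℝ, 0 ≤ c → (P1 : ℝ) ≤ c * P2 →
    YY w P1 H ≤ c * (1 + u) * YY w P2 H := by
  have hev : ∀ᶠ N : ℕ in atTop, Real.log (1 / ρ) ≤ u * Real.log (ρ * N) ∧ 3 ≤ ρ * (N : ℝ) := by
    have h1 : Tendsto (fun N : ℕ => ρ * (N : ℝ)) atTop atTop :=
      tendsto_natCast_atTop_atTop.const_mul_atTop hρ
    have h2 : Tendsto (fun N : ℕ => u * Real.log (ρ * (N : ℝ))) atTop atTop :=
      (Real.tendsto_log_atTop.comp h1).const_mul_atTop hu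
    exact (h2.eventually_ge_atTop _).and (h1.eventually_ge_atTop _)
  obtain ⟨N0, hN0⟩ := eventually_atTop.1 hev
  refine ⟨N0, fun N hN P1 P2 hP2N hP1 hP2 c hc0 hc => ?_⟩
  obtain ⟨g1, g2⟩ := hN0 N hN
  have hP13 : (3 : ℝ) ≤ P1 := by linarith
  have hP23 : (3 : ℝ) ≤ P2 := by linarith
  have hl1 : 0 < Real.log P1 := Real.log_pos (by linarith)
  have hl2 : 0 < Real.log P2 := Real.log_pos (by linarith)
  have hP2r : (P2 : ℝ) ≤ N := by exact_mod_cast hP2N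
  have hlog : Real.log P2 ≤ (1 + u) * Real.log P1 := by
    have h1 : (P2 : ℝ) ≤ P1 * (1 / ρ) := by
      rw [mul_one_div, le_div_iff₀ hρ]
      linarith only [mul_le_mul_of_nonneg_left hP2r hρ.le, hP1]
    have h2 : Real.log P2 ≤ Real.log P1 + Real.log (1 / ρ) := by
      rw [← Real.log_mul (by linarith) (by positivity)]
      exact Real.log_le_log (by linarith) h1
    have h3 : Real.log (ρ * N) ≤ Real.log P1 := Real.log_le_log (by linarith) hP1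
    linarith only [mul_le_mul_of_nonneg_left h3 hu.le, h2, g1]
  have hφ := totient_Wp_pos w
  have hW : (0 : ℝ) < Wp w := by exact_mod_cast Wp_pos w
  have hV := inv_pos.2 (Vz_pos w)
  unfold YY pp
  have h1 : (P1 : ℝ) / (Nat.totient (Wp w) * Real.log P1) ≤
      c * (1 + u) * ((P2 : ℝ) / (Nat.totient (Wp w) * Real.log P2)) := by
    rw [← mul_div_assoc, div_le_div_iff₀ (by positivity) (by positivity)]
    calc (P1 : ℝ) * (Nat.totient (Wp w) * Real.log P2) ≤ (c * P2) * (Nat.totient (Wp w) * ((1 + u) * Real.log P1)) := by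
          apply mul_le_mul hc _ (by positivity) (by positivity)
          exact mul_le_mul_of_nonneg_left hlog hφ.le
      _ = _ := by ring
  calc (Vz w)⁻¹ * ((H : ℝ) / Wp w) * ((P1 : ℝ) / (Nat.totient (Wp w) * Real.log P1)) ≤
      (Vz w)⁻¹ * ((H : ℝ) / Wp w) * (c * (1 + u) * ((P2 : ℝ) / (Nat.totient (Wp w) * Real.log P2))) :=
        mul_le_mul_of_nonneg_left h1 (by positivity)
    _ = _ := by ring

/-- the pairs with a small first prime -/
theorem ratio_null (κ L1 L2 : ℝ) (hκ : 0 < κ) (hκ1 : κ ≤ 1) (hL1 : 0 < L1) (hL : L1 < κ * L2) :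
    upperDensity {n | Even n ∧ κ * (rd L2 Set.univ n : ℝ) ≤ rd L1 Set.univ n} ≤ 0 := by
  classical
  by_contra hcon
  push Not at hcon
  have hL2 : 0 < L2 := by
    by_contra h
    push Not at h
    have := mul_nonpos_of_nonneg_of_nonpos hκ.le h
    linarith
  obtain ⟨S, hS⟩ : ∃ S : Set ℕ, S = {n | Even n ∧ κ * (rd L2 Set.univ n : ℝ) ≤ rd L1 Set.univ n} := ⟨_, rfl⟩
  rw [← hS] at hcon
  obtain ⟨h, hh⟩ : ∃ h : ℝ, h = min (upperDensity S / 2) 1 := ⟨_, rfl⟩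
  have hh0 : 0 < h := by rw [hh]; positivity
  have hh1 : h ≤ 1 := by rw [hh]; exact min_le_right _ _
  have hhS : h < upperDensity S := by
    have : h ≤ upperDensity S / 2 := by rw [hh]; exact min_le_left _ _
    linarith
  obtain ⟨c, hc0, hWL⟩ := stWL
  -- parameters
  obtain ⟨u, hu⟩ : ∃ u : ℝ, u = (κ * L2 - L1) / (16 * (L1 + κ * L2)) := ⟨_, rfl⟩
  have hkL : 0 < κ * L2 := by positivity
  have hu0 : 0 < u := by
    rw [hu]
    apply div_pos (by linarith) (by positivity)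
  have hu1 : u ≤ 1 / 16 := by
    rw [hu, div_le_div_iff₀ (by positivity) (by norm_num)]
    linarith
  have huE : 16 * u * (L1 + κ * L2) = κ * L2 - L1 := by
    rw [hu]
    field_simp
  have hu2 : u * u ≤ u / 16 := by
    have := mul_le_mul_of_nonneg_left hu1 hu0.le
    linarith only [this]
  obtain ⟨K, hK⟩ : ∃ K : ℝ, K = c * (h / 4) ^ 2 := ⟨_, rfl⟩
  have hK0 : 0 < K := by rw [hK]; positivity
  obtain ⟨ε, hε⟩ : ∃ ε : ℝ, ε = u * min K 1 := ⟨_, rfl⟩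
  have hε0 : 0 < ε := by rw [hε]; positivity
  have hεu : ε ≤ u := by
    rw [hε]
    exact mul_le_of_le_one_right hu0.le (min_le_right _ _)
  have hεK : ε ≤ u * K := by
    rw [hε]
    exact mul_le_mul_of_nonneg_left (min_le_left _ _) hu0.le
  obtain ⟨θ, hθ⟩ : ∃ θ : ℝ, θ = h / 8 * (u / 4) := ⟨_, rfl⟩
  have hθ0 : 0 < θ := by rw [hθ]; positivity
  have hθ1 : θ ≤ h / 8 := by
    rw [hθ]
    exact mul_le_of_le_one_right (by positivity) (by linarith)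
  obtain ⟨C, hC⟩ : ∃ C : ℕ, C = 4 * ⌈L1⌉₊ + 2 * ⌈L2⌉₊ + 12 := ⟨_, rfl⟩
  have hCr : 4 * L1 + 2 * L2 + 12 ≤ C := by
    rw [hC]
    push_cast
    have := Nat.le_ceil L1
    have := Nat.le_ceil L2
    linarith
  have hC0 : (0 : ℝ) < C := by linarith
  obtain ⟨m, hm⟩ : ∃ m : ℝ, m = min 1 (min L1 (L2 / 2)) := ⟨_, rfl⟩
  have hm0 : 0 < m := by rw [hm]; positivity
  have hm1 : m ≤ 1 := by rw [hm]; exact min_le_left _ _
  have hm2 : m ≤ L1 := by rw [hm]; exact (min_le_right _ _).trans (min_le_left _ _)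
  have hm3 : m ≤ L2 / 2 := by rw [hm]; exact (min_le_right _ _).trans (min_le_right _ _)
  obtain ⟨ρ, hρ⟩ : ∃ ρ : ℝ, ρ = θ / (2 * C) * m := ⟨_, rfl⟩
  have hρ0 : 0 < ρ := by rw [hρ]; positivity
  obtain ⟨w0, hw0⟩ := bil1 ε ρ hε0 hρ0
  obtain ⟨w, hw⟩ : ∃ w : ℕ, w = w0 + 2 := ⟨_, rfl⟩
  obtain ⟨N1, hN1⟩ := hw0 w (by omega)
  obtain ⟨N2, hN2⟩ := count_all w ρ hρ0 ε hε0
  obtain ⟨N4, hN4⟩ := exists_nat_ge ((Wp w : ℝ) / ρ)
  obtain ⟨N5, hN5⟩ := exists_nat_ge ((8 / (L1 * u) + 8 / (L2 * u) + 4 / L2 + 3) / ρ)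
  obtain ⟨N7, hN72, hN7⟩ := err_small u (ε * ρ) hu0 (by positivity)
  -- `N ^ (1 - u) ≤ ρ N`
  obtain ⟨N8, hN8⟩ : ∃ N8 : ℕ, ∀ N : ℕ, N8 ≤ N → (N : ℝ) ^ (1 - u) ≤ ρ * N := by
    have h1 := (tendsto_rpow_atTop hu0).eventually_ge_atTop (1 / ρ)
    have h3 := (tendsto_natCast_atTop_atTop (R := ℝ)).eventually (h1.and (eventually_ge_atTop (1 : ℝ)))
    obtain ⟨N8, hN8⟩ := eventually_atTop.1 h3
    refine ⟨N8, fun N hN => ?_⟩
    obtain ⟨h4, h6⟩ := hN8 N hN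
    have hN0 : (0 : ℝ) < N := by linarith
    rw [div_le_iff₀ hρ0] at h4
    have e1 : (N : ℝ) ^ (1 - u) * (N : ℝ) ^ u = N := by
      rw [← Real.rpow_add hN0]
      norm_num
    calc (N : ℝ) ^ (1 - u) = (N : ℝ) ^ (1 - u) * 1 := by ring
      _ ≤ (N : ℝ) ^ (1 - u) * ((N : ℝ) ^ u * ρ) := mul_le_mul_of_nonneg_left h4 (by positivity)
      _ = ρ * ((N : ℝ) ^ (1 - u) * (N : ℝ) ^ u) := by ring
      _ = _ := by rw [e1]
  have hYY : ∀ H : ℕ, ∃ N0 : ℕ, ∀ N : ℕ, N0 ≤ N → ∀ P1 P2 : ℕ,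
    P2 ≤ N → ρ * N ≤ P1 → ρ * N ≤ P2 → ∀ c : ℝ, 0 ≤ c → (P1 : ℝ) ≤ c * P2 →
    YY w P1 H ≤ c * (1 + u) * YY w P2 H := fun H => YY_le w H ρ hρ0 u hu0
  obtain ⟨N9, hN9⟩ : ∃ N0 : ℕ, ∀ N : ℕ, N0 ≤ N → ∀ P1 P2 : ℕ,
    P2 ≤ N → ρ * N ≤ P1 → ρ * N ≤ P2 → ∀ c : ℝ, 0 ≤ c → (P1 : ℝ) ≤ c * P2 → ∀ H : ℕ,
    YY w P1 H ≤ c * (1 + u) * YY w P2 H := by
    obtain ⟨N0, h0⟩ := YY_le w 1 ρ hρ0 u hu0
    refine ⟨N0, fun N hN P1 P2 a1 a2 a3 c a4 a5 H => ?_⟩
    have h1 := h0 N hN P1 P2 a1 a2 a3 c a4 a5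
    have h2 : ∀ P : ℕ, YY w P H = H * YY w P 1 := by
      intro P
      unfold YY
      push_cast
      ring
    rw [h2 P1, h2 P2]
    calc (H : ℝ) * YY w P1 1 ≤ H * (c * (1 + u) * YY w P2 1) := mul_le_mul_of_nonneg_left h1 (Nat.cast_nonneg _)
      _ = _ := by ring
  clear hYY
  obtain ⟨x, M, H, hxg, hH1, hH2, hM1, hM2, hcard⟩ := window_of S h θ hh0 hh1 hθ0 hθ1 hhS
    (N1 + N2 + N4 + N5 + N7 + N8 + N9 + 2 * Wp w + 3)
  have hx1n : 1 ≤ x := by omega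
  have hxr : (1 : ℝ) ≤ x := by exact_mod_cast hx1n
  have hMxr : (M : ℝ) ≤ x := by exact_mod_cast hM2
  have hHM : (H : ℝ) ≤ u / 4 * M := by
    calc (H : ℝ) ≤ θ * x := hH1
      _ = u / 4 * (h / 8 * x) := by rw [hθ]; ring
      _ ≤ _ := mul_le_mul_of_nonneg_left hM1 (by positivity)
  have hH0 : (0 : ℝ) ≤ H := Nat.cast_nonneg _
  have hM0 : (0 : ℝ) ≤ M := Nat.cast_nonneg _
  have hHxr : (H : ℝ) ≤ x := by
    have h1 : u / 4 * (M : ℝ) ≤ 1 * M := mul_le_mul_of_nonneg_right (by linarith only [hu1]) hM0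
    linarith only [h1, hHM, hMxr]
  obtain ⟨N, hN⟩ : ∃ N : ℕ, N = C * x := ⟨_, rfl⟩
  have hNx : x ≤ N := by
    rw [hN]
    exact Nat.le_mul_of_pos_left x (by omega)
  have hNr : (N : ℝ) = C * x := by rw [hN]; push_cast; ring
  have hρN : ρ * N = m * (θ / 2 * x) := by
    rw [hρ, hNr]
    field_simp
  have hθM : θ / 2 * x ≤ M := by
    refine le_trans ?_ hM1
    apply mul_le_mul_of_nonneg_right _ (by linarith)
    linarith
  have hθx0 : 0 ≤ θ / 2 * x := by positivity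
  have hρH : ρ * N ≤ H := by
    rw [hρN]
    exact (mul_le_of_le_one_left hθx0 hm1).trans hH2
  have hρM : ρ * N ≤ M := by
    rw [hρN]
    exact (mul_le_of_le_one_left hθx0 hm1).trans hθM
  have hMbig : 8 / (L1 * u) + 8 / (L2 * u) + 4 / L2 + 3 ≤ M := by
    have h1 : (N5 : ℝ) ≤ N := by exact_mod_cast (by omega : N5 ≤ N)
    have h2 := hN5.trans h1
    rw [div_le_iff₀ hρ0] at h2
    linarith
  have hb1 : 0 < 8 / (L1 * u) := by positivity
  have hb2 : 0 < 8 / (L2 * u) := by positivity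
  have hb3 : 0 < 4 / L2 := by positivity
  have hMpos : (0 : ℝ) < M := by linarith
  have hLu1 : 8 ≤ L1 * u * M := by
    have h1 : 8 / (L1 * u) ≤ M := by linarith
    rw [div_le_iff₀ (by positivity)] at h1
    linarith
  have hLu2 : 8 ≤ L2 * u * M := by
    have h1 : 8 / (L2 * u) ≤ M := by linarith
    rw [div_le_iff₀ (by positivity)] at h1
    linarith
  have hL24 : 4 ≤ L2 * M := by
    have h1 : 4 / L2 ≤ M := by linarith
    rw [div_le_iff₀ (by positivity)] at h1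
    linarith
  -- the lengths
  obtain ⟨P2, hP2⟩ : ∃ P : ℕ, P = ⌊L2 * M⌋₊ := ⟨_, rfl⟩
  obtain ⟨P1, hP1⟩ : ∃ P : ℕ, P = ⌈L1 * ((M : ℝ) + H)⌉₊ := ⟨_, rfl⟩
  have hP2a : (P2 : ℝ) ≤ L2 * M := by rw [hP2]; exact Nat.floor_le (by positivity)
  have hP2b : L2 * M ≤ P2 + 1 := by rw [hP2]; exact (Nat.lt_floor_add_one _).le
  have hP1a : L1 * ((M : ℝ) + H) ≤ P1 := by rw [hP1]; exact Nat.le_ceil _
  have hP1b : (P1 : ℝ) ≤ L1 * ((M : ℝ) + H) + 1 := by
    rw [hP1]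
    exact (Nat.ceil_lt_add_one (by positivity)).le
  have hρP2 : ρ * N ≤ P2 := by
    rw [hρN]
    have h1 : m * (θ / 2 * x) ≤ (L2 / 2) * M := mul_le_mul hm3 hθM hθx0 (by positivity)
    linarith
  have hρP1 : ρ * N ≤ P1 := by
    rw [hρN]
    have h1 : m * (θ / 2 * x) ≤ L1 * M := mul_le_mul hm2 hθM hθx0 hL1.le
    have h2 : 0 ≤ L1 * (H : ℝ) := by positivity
    linarith
  have hsum : 2 * (M + P1 + P2 + H) ≤ N := by
    have h1 : ((2 * (M + P1 + P2 + H) : ℕ) : ℝ) ≤ (N : ℝ) := by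
      rw [hNr]
      push_cast
      have h2 : L1 * ((M : ℝ) + H) ≤ L1 * (2 * x) := mul_le_mul_of_nonneg_left (by linarith) hL1.le
      have h2' : L2 * (M : ℝ) ≤ L2 * x := mul_le_mul_of_nonneg_left hMxr hL2.le
      have h3 : (4 * L1 + 2 * L2 + 12) * (x : ℝ) ≤ C * x := mul_le_mul_of_nonneg_right hCr (by linarith)
      linarith only [h2, h2', h3, hP1b, hP2a, hMxr, hHxr, hxr]
    exact_mod_cast h1
  -- the ratio of the lengths
  have hPP : (P1 : ℝ) ≤ (L1 / L2 * (1 + u)) * P2 := by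
    have h1 : L1 * ((M : ℝ) + H) + 1 ≤ L1 * M * (1 + u / 2) := by
      have h2 : L1 * (H : ℝ) ≤ L1 * (u / 4 * M) := mul_le_mul_of_nonneg_left hHM hL1.le
      linarith only [h2, hLu1]
    have h3 : L2 * M * (1 - u / 8) ≤ P2 := by linarith only [hP2b, hLu2]
    have h4 : L1 * M * (1 + u / 2) ≤ (L1 / L2 * (1 + u)) * (L2 * M * (1 - u / 8)) := by
      have e1 : (L1 / L2 * (1 + u)) * (L2 * M * (1 - u / 8)) = L1 * M * ((1 + u) * (1 - u / 8)) := by
        field_simp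
      rw [e1]
      apply mul_le_mul_of_nonneg_left _ (by positivity)
      linarith only [hu2, hu0]
    calc (P1 : ℝ) ≤ L1 * M * (1 + u / 2) := hP1b.trans h1
      _ ≤ _ := h4
      _ ≤ _ := mul_le_mul_of_nonneg_left h3 (by positivity)
  -- the set
  obtain ⟨E, hEd⟩ : ∃ E : Finset ℕ, E = win S M H := ⟨_, rfl⟩
  have hE : E ⊆ Ioc M (M + H) := by rw [hEd]; exact win_subset S M H
  have hES : ∀ n ∈ E, Even n ∧ κ * (rd L2 Set.univ n : ℝ) ≤ rd L1 Set.univ n := by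
    intro n hn
    rw [hEd, mem_win, hS] at hn
    exact hn.2
  have hHW : Wp w ≤ H := by
    have h1 : (N4 : ℝ) ≤ N := by exact_mod_cast (by omega : N4 ≤ N)
    have h2 := hN4.trans h1
    rw [div_le_iff₀ hρ0] at h2
    have h3 : (Wp w : ℝ) ≤ H := by linarith
    exact_mod_cast h3
  have hHn1 : 1 ≤ H := (Wp_pos w).trans_le hHW
  have hHpos : (0 : ℝ) < H := by exact_mod_cast hHn1
  have hEc : 2 * (h / 4) * H ≤ E.card := by
    rw [hEd]
    linarith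
  -- the objects
  obtain ⟨e, he⟩ : ∃ e : ZMod (Wp w) → ℝ, e = eef w H E := ⟨_, rfl⟩
  have he0 : ∀ t, 0 ≤ e t := by rw [he]; exact eef_nonneg w H E
  have he1 : ∀ t, e t ≤ 1 := by rw [he]; exact eef_le_one w M H E hE
  have hez : ∀ t, wt w t = 0 → e t = 0 := by
    rw [he]
    exact fun t ht => eef_zero w H E (fun n hn => (hES n hn).1) t ht
  have hes : h / 4 * Wp w ≤ ∑ t, e t := by rw [he]; exact sum_eef w H (h / 4) (by positivity) E hHW hEc
  obtain ⟨R, hR⟩ : ∃ R : ℝ, R = ∑ a ∈ UU w, rr w e (-a) := ⟨_, rfl⟩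
  have hR' : ∑ a ∈ UU w, rr w e a = R := by rw [hR]; exact (sum_UU_neg w (rr w e)).symm
  have hφ : (0 : ℝ) < Nat.totient (Wp w) := totient_Wp_pos w
  have hW : (0 : ℝ) < Wp w := by exact_mod_cast Wp_pos w
  obtain ⟨Φ, hΦ⟩ : ∃ Φ : ℝ, Φ = (Nat.totient (Wp w) : ℝ) ^ 2 := ⟨_, rfl⟩
  have hΦ0 : 0 < Φ := by rw [hΦ]; positivity
  have hKR : K * Φ ≤ R := by
    have h1 := hWL w (by omega) e he0 he1 hez
    have h2 : h / 4 ≤ (∑ t, e t) / Wp w := by
      rw [le_div_iff₀ hW]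
      exact hes
    have h3 : (h / 4) ^ 2 ≤ ((∑ t, e t) / Wp w) ^ 2 := pow_le_pow_left₀ (by positivity) h2 2
    have h4 : K ≤ (∑ t, e t * wt w t) / Nat.totient (Wp w) := by
      rw [hK]
      exact (mul_le_mul_of_nonneg_left h3 hc0.le).trans h1
    rw [le_div_iff₀ hφ] at h4
    rw [← hR', sum_rr, hΦ]
    calc K * (Nat.totient (Wp w) : ℝ) ^ 2 = Nat.totient (Wp w) * (K * Nat.totient (Wp w)) := by ring
      _ ≤ _ := mul_le_mul_of_nonneg_left h4 hφ.le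
  have hR0 : 0 < R := lt_of_lt_of_le (by positivity) hKR
  have hεR : ε * Φ ≤ u * R := by
    calc ε * Φ ≤ (u * K) * Φ := mul_le_mul_of_nonneg_right hεK hΦ0.le
      _ = u * (K * Φ) := by ring
      _ ≤ _ := mul_le_mul_of_nonneg_left hKR hu0.le
  have hb1 := hN1 N (by omega) M H P1 (by omega) hρH hρP1 E hE (PQ N 0 P1) subset_rfl
  have hb2 := hN1 N (by omega) M H P2 (by omega) hρH hρP2 E hE (PQ N 0 P2) subset_rfl
  rw [abs_le, ← he, ← hΦ] at hb1 hb2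
  have hρN3 : 3 ≤ ρ * N := by
    have h1 : (N5 : ℝ) ≤ N := by exact_mod_cast (by omega : N5 ≤ N)
    have h2 := hN5.trans h1
    rw [div_le_iff₀ hρ0] at h2
    linarith
  have hP1n : 2 ≤ P1 := by
    have h2 : ((2 : ℕ) : ℝ) ≤ P1 := by push_cast; linarith
    exact_mod_cast h2
  have hP2n : 2 ≤ P2 := by
    have h2 : ((2 : ℕ) : ℝ) ≤ P2 := by push_cast; linarith
    exact_mod_cast h2
  have hY1 := YY_pos w P1 H hP1n hHn1
  have hY2 := YY_pos w P2 H hP2n hHn1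
  -- upper bound for the first sum
  have hu1' : ∑ a ∈ UU w, bbf w P1 (PQ N 0 P1) a * rr w e (-a) ≤ (1 + ε) * R := by
    rw [hR, mul_sum]
    apply sum_le_sum
    intro a ha
    apply mul_le_mul_of_nonneg_right _ (rr_nonneg he0 _)
    have h1 := (hN2 N (by omega) P1 (by omega) hρP1 a (mem_UU.1 ha)).2
    unfold bbf
    rw [div_le_iff₀ (pp_pos w P1 hP1n)]
    exact h1
  have hl2' : (1 - ε) * R ≤ ∑ a ∈ UU w, bbf w P2 (PQ N 0 P2) a * rr w e (-a) := by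
    rw [hR, mul_sum]
    apply sum_le_sum
    intro a ha
    apply mul_le_mul_of_nonneg_right _ (rr_nonneg he0 _)
    have h1 := (hN2 N (by omega) P2 (by omega) hρP2 a (mem_UU.1 ha)).1
    unfold bbf
    rw [le_div_iff₀ (pp_pos w P2 hP2n)]
    exact h1
  have hD1 : D1 E (PQ N 0 P1) ≤ YY w P1 H * ((1 + 2 * u) * R) := by
    have h1 : YY w P1 H * ∑ a ∈ UU w, bbf w P1 (PQ N 0 P1) a * rr w e (-a) ≤ YY w P1 H * ((1 + ε) * R) :=
      mul_le_mul_of_nonneg_left hu1' hY1.le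
    have h2 : YY w P1 H * (ε * Φ) ≤ YY w P1 H * (u * R) := mul_le_mul_of_nonneg_left hεR hY1.le
    have h3 : YY w P1 H * (ε * R) ≤ YY w P1 H * (u * R) :=
      mul_le_mul_of_nonneg_left (mul_le_mul_of_nonneg_right hεu hR0.le) hY1.le
    linarith only [hb1.2, h1, h2, h3]
  have hD2 : YY w P2 H * ((1 - 2 * u) * R) ≤ D1 E (PQ N 0 P2) := by
    have h1 : YY w P2 H * ((1 - ε) * R) ≤ YY w P2 H * ∑ a ∈ UU w, bbf w P2 (PQ N 0 P2) a * rr w e (-a) :=
      mul_le_mul_of_nonneg_left hl2' hY2.le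
    have h2 : YY w P2 H * (ε * Φ) ≤ YY w P2 H * (u * R) := mul_le_mul_of_nonneg_left hεR hY2.le
    have h3 : YY w P2 H * (ε * R) ≤ YY w P2 H * (u * R) :=
      mul_le_mul_of_nonneg_left (mul_le_mul_of_nonneg_right hεu hR0.le) hY2.le
    linarith only [hb2.1, h1, h2, h3]
  -- pointwise comparison
  have hNn1 : 1 ≤ N := by omega
  have hNr3 : (3 : ℝ) ≤ N := by exact_mod_cast (by omega : 3 ≤ N)
  have hLN : 0 < Real.log N := Real.log_pos (by linarith)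
  have hpt : ∀ n ∈ E, (1 - u) * κ * ∑ b ∈ PQ N 0 P2, ArithmeticFunction.vonMangoldt (n + b) ≤
      ∑ b ∈ PQ N 0 P1, ArithmeticFunction.vonMangoldt (n + b) + 4 * √(N : ℝ) * Real.log N := by
    intro n hn
    have hn1 := mem_Ioc.1 (hE hn)
    have hnr : (M : ℝ) < n := by exact_mod_cast hn1.1
    have hnr2 : (n : ℝ) ≤ M + H := by exact_mod_cast hn1.2
    have hf1 : ⌊L1 * n⌋₊ ≤ P1 := by
      have h1 : (⌊L1 * (n : ℝ)⌋₊ : ℝ) ≤ P1 := by
        have h2 : (⌊L1 * (n : ℝ)⌋₊ : ℝ) ≤ L1 * n := Nat.floor_le (by positivity)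
        have h3 : L1 * (n : ℝ) ≤ L1 * (M + H) := mul_le_mul_of_nonneg_left hnr2 hL1.le
        linarith
      exact_mod_cast h1
    have hf2 : P2 ≤ ⌊L2 * n⌋₊ := by
      apply Nat.le_floor
      have h3 : L2 * (M : ℝ) ≤ L2 * n := mul_le_mul_of_nonneg_left hnr.le hL2.le
      linarith
    have hnN : (N : ℝ) ^ (1 - u) ≤ n := by
      have := hN8 N (by omega)
      linarith
    have a1 := d1_le L2 N P2 n hNn1 (by omega) hf2 (by omega)
    have a2 := b1_le L1 (∅ : Set ℕ) N P1 n u hu0 (by linarith) hNn1 hf1 hnN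
    have a3 : (b1S L1 (∅ : Set ℕ) n).card = rd L1 Set.univ n := by
      unfold rd
      congr 1
      ext q
      rw [mem_b1S, mem_rdS]
      simp
    have a4 : BQ (∅ : Set ℕ) N 0 P1 = PQ N 0 P1 := by
      ext b
      rw [mem_BQ]
      simp
    rw [a3, a4] at a2
    have a5 := (hES n hn).2
    have hk : 0 ≤ (1 - u) * κ := mul_nonneg (by linarith) hκ.le
    have hk1 : (1 - u) * κ ≤ 1 := mul_le_one₀ (by linarith only [hu0]) hκ.le hκ1
    have a6 : (1 - u) * κ * ∑ b ∈ PQ N 0 P2, ArithmeticFunction.vonMangoldt (n + b) ≤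
        (1 - u) * κ * (Real.log N * rd L2 Set.univ n + 2 * √(N : ℝ) * Real.log N) :=
      mul_le_mul_of_nonneg_left a1 hk
    have a7 : (1 - u) * κ * (2 * √(N : ℝ) * Real.log N) ≤ 2 * √(N : ℝ) * Real.log N :=
      mul_le_of_le_one_left (by positivity) hk1
    have a8 : (1 - u) * Real.log N * (κ * (rd L2 Set.univ n : ℝ)) ≤ (1 - u) * Real.log N * (rd L1 Set.univ n) :=
      mul_le_mul_of_nonneg_left a5 (mul_nonneg (by linarith) hLN.le)
    have a9 : 0 ≤ √(N : ℝ) * Real.log N := by positivity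
    have e1 : (1 - u) * κ * (Real.log N * rd L2 Set.univ n + 2 * √(N : ℝ) * Real.log N) =
        (1 - u) * Real.log N * (κ * (rd L2 Set.univ n : ℝ)) + (1 - u) * κ * (2 * √(N : ℝ) * Real.log N) := by ring
    rw [e1] at a6
    linarith
  have hsumE := sum_le_sum hpt
  rw [← mul_sum, sum_add_distrib, sum_const, nsmul_eq_mul] at hsumE
  have hEcH : (E.card : ℝ) ≤ H := by
    have h1 := card_le_card hE
    rw [Nat.card_Ioc] at h1
    have h2 : E.card ≤ H := by omega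
    exact_mod_cast h2
  have hP1N : (P1 : ℝ) ≤ N := by exact_mod_cast (by omega : P1 ≤ N)
  have hP1r : (3 : ℝ) ≤ P1 := by linarith
  have hLP1 : 0 < Real.log P1 := Real.log_pos (by linarith)
  have hLP1N : Real.log P1 ≤ Real.log N := Real.log_le_log (by linarith) hP1N
  have herr : (E.card : ℝ) * (4 * √(N : ℝ) * Real.log N) ≤ YY w P1 H * (u * R) := by
    have h1 := hN7 N (by omega)
    have h0 : 0 ≤ 2 * (N : ℝ) ^ (1 - u) * Real.log N := by positivity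
    have h2 : (E.card : ℝ) * (4 * √(N : ℝ) * Real.log N) ≤ H * (ε * ρ * N / Real.log N) :=
      mul_le_mul hEcH (by linarith) (by positivity) hH0
    have h3 : ρ * N / Real.log N ≤ P1 / Real.log P1 := div_le_div₀ (by linarith) hρP1 hLP1 hLP1N
    calc (E.card : ℝ) * (4 * √(N : ℝ) * Real.log N) ≤ H * (ε * ρ * N / Real.log N) := h2
      _ = ε * (H * (ρ * N / Real.log N)) := by ring
      _ ≤ ε * (H * (P1 / Real.log P1)) := by
          apply mul_le_mul_of_nonneg_left _ hε0.le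
          exact mul_le_mul_of_nonneg_left h3 hH0
      _ = ε * ((H : ℝ) * P1 / Real.log P1) := by ring
      _ = YY w P1 H * (ε * Φ) := by rw [← YY_phi w P1 H, hΦ]; ring
      _ ≤ _ := mul_le_mul_of_nonneg_left hεR hY1.le
  have hYr := hN9 N (by omega) P1 P2 (by omega) hρP1 hρP2 (L1 / L2 * (1 + u)) (by positivity) hPP H
  unfold D1 at hD1 hD2
  have hk : 0 ≤ (1 - u) * κ := mul_nonneg (by linarith) hκ.le
  have hF1 : (1 - u) * κ * (YY w P2 H * ((1 - 2 * u) * R)) ≤ YY w P1 H * ((1 + 3 * u) * R) := by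
    have h1 := mul_le_mul_of_nonneg_left hD2 hk
    have h2 : YY w P1 H * ((1 + 3 * u) * R) = YY w P1 H * ((1 + 2 * u) * R) + YY w P1 H * (u * R) := by ring
    rw [h2]
    linarith
  have hF2 : YY w P1 H * ((1 + 3 * u) * R) ≤ (L1 / L2 * (1 + u) * (1 + u) * YY w P2 H) * ((1 + 3 * u) * R) :=
    mul_le_mul_of_nonneg_right hYr (by positivity)
  have hF3 : (YY w P2 H * R) * ((1 - u) * κ * (1 - 2 * u)) ≤
      (YY w P2 H * R) * (L1 / L2 * ((1 + u) * (1 + u) * (1 + 3 * u))) := by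
    calc (YY w P2 H * R) * ((1 - u) * κ * (1 - 2 * u)) = (1 - u) * κ * (YY w P2 H * ((1 - 2 * u) * R)) := by ring
      _ ≤ _ := hF1.trans hF2
      _ = _ := by ring
  have hF4 := le_of_mul_le_mul_left hF3 (mul_pos hY2 hR0)
  have hF5 : (1 + u) * (1 + u) * (1 + 3 * u) ≤ 1 + 6 * u := by
    linarith only [mul_le_mul_of_nonneg_left hu2 hu0.le, hu2, hu0]
  have hF6 : 1 - 3 * u ≤ (1 - u) * (1 - 2 * u) := by linarith only [mul_nonneg hu0.le hu0.le]
  have hF7 : κ * (1 - 3 * u) ≤ L1 / L2 * (1 + 6 * u) := by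
    calc κ * (1 - 3 * u) ≤ κ * ((1 - u) * (1 - 2 * u)) := mul_le_mul_of_nonneg_left hF6 hκ.le
      _ = (1 - u) * κ * (1 - 2 * u) := by ring
      _ ≤ _ := hF4
      _ ≤ _ := mul_le_mul_of_nonneg_left hF5 (by positivity)
  have hF8 : κ * L2 * (1 - 3 * u) ≤ L1 * (1 + 6 * u) := by
    have h1 := mul_le_mul_of_nonneg_left hF7 hL2.le
    have e1 : L2 * (L1 / L2 * (1 + 6 * u)) = L1 * (1 + 6 * u) := by field_simp
    rw [e1] at h1
    linarith only [h1]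
  linarith only [hF8, huE, mul_pos hu0 hkL, mul_pos hu0 hL1]

end Pool.Agent.K9h13.RD
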