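import Mathlib
import Pool.Agent.K9h13.RD.EX2

/-! Examples: deleting residue classes in sparse windows. -/

set_option autoImplicit false

namespace Pool.Agent.K9h13.RD

open Finset Filter Topology
open Pool.Agent.TH881
open Pool.Agent.TH881.RG
open Pool.Agent.H373R2.T7
open Pool.Agent.TH494.RG (om om_log om_pos prime_count sqrt_small PrC card_le_cnt)
open Pool.Agent.TH986.J1816 (S0 mem_S0 S0_card S0_pos choice_gen)

/-- the scales -/
def XX (k : ℕ) : ℕ := 2 ^ (2 ^ k)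

lemma XX_succ (k : ℕ) : XX (k + 1) = XX k ^ 2 := by
  unfold XX
  rw [pow_succ, pow_mul]

lemma XX_mono {j k : ℕ} (h : j ≤ k) : XX j ≤ XX k :=
  Nat.pow_le_pow_right (by norm_num) (Nat.pow_le_pow_right (by norm_num) h)

lemma XX_lt (k : ℕ) : k < XX k :=
  lt_trans (Nat.lt_two_pow_self (n := k)) (Nat.lt_two_pow_self (n := 2 ^ k))

lemma XX_ge (k : ℕ) : 2 ≤ XX k := by
  calc 2 = XX 0 := rfl
    _ ≤ _ := XX_mono (Nat.zero_le k)

/-- the primes outside some residue classes in sparse windows -/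
def AW (a b : ℝ) (y : ℕ) : Set ℕ :=
  {p : ℕ | y < p ∧ ¬ ((p : ZMod (Wp y)) ∈ S0 y ∧ ∃ k : ℕ, a * XX k < p ∧ (p : ℝ) ≤ b * XX k)}

lemma scale_exists (a : ℝ) (ha : 1 ≤ a) (n : ℕ) (h : a * 2 < n) :
    ∃ j : ℕ, a * XX j < n ∧ (n : ℝ) ≤ a * XX (j + 1) := by
  classical
  have hex : ∃ k : ℕ, (n : ℝ) ≤ a * XX k := by
    refine ⟨n, ?_⟩
    have h1 : (n : ℝ) ≤ XX n := by exact_mod_cast (XX_lt n).le
    have h2 : (1 : ℝ) * XX n ≤ a * XX n := mul_le_mul_of_nonneg_right ha (Nat.cast_nonneg _)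
    linarith
  obtain ⟨k, hk⟩ : ∃ k : ℕ, k = Nat.find hex := ⟨_, rfl⟩
  have hk1 : (n : ℝ) ≤ a * XX k := by rw [hk]; exact Nat.find_spec hex
  have hk0 : k ≠ 0 := by
    intro h0
    rw [h0] at hk1
    have : XX 0 = 2 := rfl
    rw [this] at hk1
    push_cast at hk1
    linarith
  refine ⟨k - 1, ?_, ?_⟩
  · have h1 := Nat.find_min hex (show k - 1 < Nat.find hex by omega)
    push Not at h1
    exact h1
  · rw [show k - 1 + 1 = k by omega]
    exact hk1

lemma xlog_mono (m n : ℕ) (hm : 3 ≤ m) (hmn : m ≤ n) : (m : ℝ) / Real.log m ≤ (n : ℝ) / Real.log n := by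
  have hm3 : (3 : ℝ) ≤ m := by exact_mod_cast hm
  have hmn' : (m : ℝ) ≤ n := by exact_mod_cast hmn
  have he : Real.exp 1 ≤ 3 := by
    have := Real.exp_one_lt_d9
    linarith
  have h1 := Real.log_div_self_antitoneOn (a := (m : ℝ)) (b := (n : ℝ))
    (by rw [Set.mem_Ici]; linarith) (by rw [Set.mem_Ici]; linarith) hmn'
  have hl1 : 0 < Real.log m := Real.log_pos (by linarith)
  have hl2 : 0 < Real.log n := Real.log_pos (by linarith)
  have hm0 : (0 : ℝ) < m := by linarith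
  have hn0 : (0 : ℝ) < n := by linarith
  rw [div_le_div_iff₀ hn0 hm0] at h1
  rw [div_le_div_iff₀ hl1 hl2]
  linarith

/-- the deleted primes of one window -/
lemma main_win (y : ℕ) (hy : 2 ≤ y) (r e : ℝ) (he : 0 < e) :
    ∃ N0 : ℕ, ∀ l m : ℕ, N0 ≤ l → l ≤ m → r * m ≤ l + 1 →
    ((PrC y m (S0 y) \ PrC y l (S0 y)).card : ℝ) ≤
      ((1 - r) * om y + e * (3 * om y + 1)) * ((m : ℝ) / Real.log m) := by
  classical
  obtain ⟨N1, hN1⟩ := eventually_atTop.1 (prime_count stPC y e he)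
  obtain ⟨N2, hN2⟩ := eventually_atTop.1 (sqrt_small 0 e he)
  obtain ⟨N3, hN3⟩ := eventually_atTop.1 (const_small 2 e he)
  refine ⟨N1 + N2 + N3 + 3, fun l m hl hlm hr => ?_⟩
  have hφ := totient_Wp_pos y
  have hom := om_pos y
  have hm3 : (3 : ℝ) ≤ m := by exact_mod_cast (by omega : 3 ≤ m)
  have hl3 : (3 : ℝ) ≤ l := by exact_mod_cast (by omega : 3 ≤ l)
  have hlmr : (l : ℝ) ≤ m := by exact_mod_cast hlm
  have hlogm : 0 < Real.log m := Real.log_pos (by linarith)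
  have hlogl : 0 < Real.log l := Real.log_pos (by linarith)
  have hU : ∀ a ∈ S0 y, IsUnit a := fun a ha => (mem_S0.1 ha).1
  have h1 := (hN1 m (by omega) (S0 y) hU).2
  have h2 := (hN1 l (by omega) (S0 y) hU).1
  have h3 := hN2 m (by omega)
  have h4 := hN3 m (by omega)
  have h0 : Wp 0 = 1 := by
    unfold Wp
    rw [show pz 0 = ∅ from rfl, prod_empty]
  have h7 : (Nat.totient (Wp 0) : ℝ) = 1 := by rw [h0]; simp
  have h8 : pp 0 m = m / Real.log m := by
    unfold pp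
    rw [h7, one_mul]
  rw [h8] at h3
  have h9 : ∀ k : ℕ, (Nat.totient (Wp y) : ℝ) * pp y k = k / Real.log k := by
    intro k
    unfold pp
    rw [← mul_div_assoc, mul_div_mul_left _ _ hφ.ne']
  rw [S0_card y hy] at h1 h2
  have e1 : om y * (Nat.totient (Wp y) : ℝ) * ((1 + e) * pp y m) = om y * (1 + e) * (m / Real.log m) := by
    rw [← h9 m]
    ring
  have e2 : om y * (Nat.totient (Wp y) : ℝ) * ((1 - e) * pp y l) = om y * (1 - e) * (l / Real.log l) := by
    rw [← h9 l]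
    ring
  rw [e1] at h1
  rw [e2] at h2
  have hsub : PrC y l (S0 y) ⊆ PrC y m (S0 y) := by
    intro p hp
    unfold PrC at hp ⊢
    rw [mem_filter, mem_Icc] at hp ⊢
    exact ⟨⟨hp.1.1, hp.1.2.trans hlm⟩, hp.2⟩
  have hcard : ((PrC y m (S0 y) \ PrC y l (S0 y)).card : ℝ) = (PrC y m (S0 y)).card - (PrC y l (S0 y)).card := by
    rw [card_sdiff_of_subset hsub, Nat.cast_sub (card_le_card hsub)]
  rw [hcard]
  obtain ⟨X, hX⟩ : ∃ X : ℝ, X = (m : ℝ) / Real.log m := ⟨_, rfl⟩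
  rw [← hX] at h1 h3 h4 ⊢
  have hX0 : 0 < X := by rw [hX]; positivity
  -- the lower count
  have h10 : r * X - 2 ≤ (l : ℝ) / Real.log l := by
    have a1 : (l : ℝ) / Real.log m ≤ l / Real.log l :=
      div_le_div_of_nonneg_left (by linarith) hlogl (Real.log_le_log (by linarith) hlmr)
    have a2 : (r * m - 1) / Real.log m ≤ l / Real.log m :=
      div_le_div_of_nonneg_right (by linarith) hlogm.le
    have a3 : (r * m - 1) / Real.log m = r * X - 1 / Real.log m := by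
      rw [hX]
      ring
    have a4 : 1 / Real.log m ≤ 2 := by
      rw [div_le_iff₀ hlogm]
      have b1 : Real.log 2 ≤ Real.log m := Real.log_le_log (by norm_num) (by linarith)
      have := Real.log_two_gt_d9
      linarith
    linarith
  have h10' : 0 ≤ (l : ℝ) / Real.log l := by positivity
  have h10'' : (l : ℝ) / Real.log l ≤ X := by
    rw [hX]
    exact xlog_mono l m (by omega) hlm
  have h11 : om y * (r * X - 2) ≤ om y * (l / Real.log l) := mul_le_mul_of_nonneg_left h10 hom.le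
  have h12 : om y * e * (l / Real.log l) ≤ om y * e * X := mul_le_mul_of_nonneg_left h10'' (by positivity)
  have h13 : om y * 2 ≤ om y * (e * X) := mul_le_mul_of_nonneg_left h4 hom.le
  linarith only [h1, h2, h3, h11, h12, h13]

/-- the relative density of the sets `AW` -/
theorem rel_AW (a b : ℝ) (ha : 1 ≤ a) (hab : a ≤ b) (y : ℕ) (hy : 2 ≤ y) :
    1 - (1 - a / b) * om y ≤ relLower (AW a b y) := by
  classical
  have hb0 : 0 < b := by linarith
  have hr1 : a / b ≤ 1 := by rw [div_le_one hb0]; exact hab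
  have hr0 : 0 ≤ a / b := by positivity
  have hom := om_pos y
  apply rel_of_del (AW a b y) ((1 - a / b) * om y) (mul_nonneg (by linarith) hom.le)
  intro ε hε
  obtain ⟨e, hed⟩ : ∃ e : ℝ, e = ε / (3 * om y + 3) := ⟨_, rfl⟩
  have he0 : 0 < e := by rw [hed]; positivity
  have he2 : e * (3 * om y + 3) = ε := by rw [hed]; field_simp
  obtain ⟨N0, hN0⟩ := main_win y hy (a / b) e he0
  have hbig : ∀ᶠ n : ℕ in atTop, a * (N0 + 3 : ℝ) ^ 2 + a * 2 + 1 ≤ n :=
    tendsto_natCast_atTop_atTop.eventually_ge_atTop _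
  filter_upwards [const_small y e he0, sqrt_small 0 (e / b) (by positivity), hbig, eventually_ge_atTop 3]
    with n h2 h3 h4 h5
  have ha0 : 0 < a := by linarith
  have hN0r : (0 : ℝ) ≤ N0 := Nat.cast_nonneg _
  have hsq0 : 0 ≤ a * (N0 + 3 : ℝ) ^ 2 := by positivity
  obtain ⟨j, hj1, hj2⟩ := scale_exists a ha n (by linarith)
  have hXj : N0 + 3 ≤ XX j := by
    by_contra hcon
    push Not at hcon
    have c1 : (XX j : ℝ) ≤ N0 + 3 := by exact_mod_cast hcon.le
    have c2 : (XX (j + 1) : ℝ) ≤ (N0 + 3 : ℝ) ^ 2 := by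
      rw [XX_succ]
      push_cast
      exact pow_le_pow_left₀ (Nat.cast_nonneg _) c1 2
    have c3 := mul_le_mul_of_nonneg_left c2 ha0.le
    linarith
  obtain ⟨l, hl⟩ : ∃ l : ℕ, l = ⌊a * XX j⌋₊ := ⟨_, rfl⟩
  obtain ⟨m, hm⟩ : ∃ m : ℕ, m = min n ⌊b * XX j⌋₊ := ⟨_, rfl⟩
  have hXr : (0 : ℝ) ≤ XX j := Nat.cast_nonneg _
  have haX : (XX j : ℝ) ≤ a * XX j := by
    have := mul_le_mul_of_nonneg_right ha hXr
    linarith
  have hXl : XX j ≤ l := by
    rw [hl]
    exact Nat.le_floor haX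
  have hlm : l ≤ m := by
    rw [hm]
    apply le_min
    · have d1 : (l : ℝ) ≤ a * XX j := by rw [hl]; exact Nat.floor_le (by positivity)
      have d2 : (l : ℝ) ≤ n := by linarith
      exact_mod_cast d2
    · rw [hl]
      apply Nat.floor_le_floor
      exact mul_le_mul_of_nonneg_right hab hXr
  have hmr : a / b * (m : ℝ) ≤ l + 1 := by
    have d1 : (m : ℝ) ≤ b * XX j := by
      have d2 : m ≤ ⌊b * XX j⌋₊ := by rw [hm]; exact min_le_right _ _
      have d3 : (m : ℝ) ≤ (⌊b * XX j⌋₊ : ℝ) := by exact_mod_cast d2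
      exact d3.trans (Nat.floor_le (by positivity))
    calc a / b * (m : ℝ) ≤ a / b * (b * XX j) := mul_le_mul_of_nonneg_left d1 hr0
      _ = a * XX j := by field_simp
      _ ≤ _ := by
        rw [hl]
        exact (Nat.lt_floor_add_one _).le
  have hmain := hN0 l m (by omega) hlm hmr
  have hmn : m ≤ n := by rw [hm]; exact min_le_left _ _
  have hmono := xlog_mono m n (by omega) hmn
  have h0 : Wp 0 = 1 := by
    unfold Wp
    rw [show pz 0 = ∅ from rfl, prod_empty]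
  have h7 : (Nat.totient (Wp 0) : ℝ) = 1 := by rw [h0]; simp
  have h8 : pp 0 n = n / Real.log n := by
    unfold pp
    rw [h7, one_mul]
  rw [h8] at h3
  have hbs : b * √(n : ℝ) ≤ e * (n / Real.log n) := by
    calc b * √(n : ℝ) ≤ b * (e / b * (n / Real.log n)) := mul_le_mul_of_nonneg_left h3 hb0.le
      _ = _ := by field_simp
  -- the deleted primes
  have hsub : cntS {p | p.Prime ∧ p ∉ AW a b y} n ⊆
      Icc 1 (y + ⌊b * √(n : ℝ)⌋₊) ∪ (PrC y m (S0 y) \ PrC y l (S0 y)) := by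
    intro p hp
    rw [mem_cntS] at hp
    obtain ⟨⟨hp1, hpn⟩, hp2, hp3⟩ := hp
    rw [mem_union, mem_Icc]
    by_cases hpy : p ≤ y
    · left
      omega
    push Not at hpy
    have hp4 : (p : ZMod (Wp y)) ∈ S0 y ∧ ∃ k : ℕ, a * XX k < p ∧ (p : ℝ) ≤ b * XX k := by
      by_contra hcon
      exact hp3 ⟨hpy, hcon⟩
    obtain ⟨hp5, k, hk1, hk2⟩ := hp4
    have hpnr : (p : ℝ) ≤ n := by exact_mod_cast hpn
    have hkj : k ≤ j := by
      by_contra hcon
      push Not at hcon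
      have d1 : (XX (j + 1) : ℝ) ≤ XX k := by exact_mod_cast XX_mono hcon
      have d2 := mul_le_mul_of_nonneg_left d1 ha0.le
      linarith
    rcases Nat.lt_or_ge k j with hlt | hge
    · left
      refine ⟨hp1, ?_⟩
      have d1 : (XX k : ℝ) ^ 2 ≤ n := by
        have d2 : XX (k + 1) ≤ XX j := XX_mono hlt
        rw [XX_succ] at d2
        have d3 : (XX k : ℝ) ^ 2 ≤ XX j := by exact_mod_cast d2
        linarith
      have d4 : (XX k : ℝ) ≤ √(n : ℝ) := Real.le_sqrt_of_sq_le d1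
      have d5 : (p : ℝ) ≤ b * √(n : ℝ) := hk2.trans (mul_le_mul_of_nonneg_left d4 hb0.le)
      have d6 : p ≤ ⌊b * √(n : ℝ)⌋₊ := Nat.le_floor d5
      omega
    · right
      have hkj' : k = j := le_antisymm hkj hge
      rw [hkj'] at hk1 hk2
      rw [Finset.mem_sdiff]
      unfold PrC
      rw [mem_filter, mem_Icc, mem_filter, mem_Icc]
      refine ⟨⟨⟨hp1, ?_⟩, hp2, hp5⟩, ?_⟩
      · rw [hm]
        exact le_min hpn (Nat.le_floor hk2)
      · rintro ⟨⟨_, hpl⟩, _⟩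
        have d1 : (p : ℝ) ≤ a * XX j := by
          have d2 : (p : ℝ) ≤ l := by exact_mod_cast hpl
          refine d2.trans ?_
          rw [hl]
          exact Nat.floor_le (by positivity)
        linarith
  have hcard := (card_le_card hsub).trans (card_union_le _ _)
  rw [← cnt_eq, Nat.card_Icc, Nat.add_sub_cancel] at hcard
  have hcard2 : (cnt {p | p.Prime ∧ p ∉ AW a b y} n : ℝ) ≤ (y + ⌊b * √(n : ℝ)⌋₊) +
      ((PrC y m (S0 y) \ PrC y l (S0 y)).card : ℝ) := by exact_mod_cast hcard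
  have hfl : (⌊b * √(n : ℝ)⌋₊ : ℝ) ≤ b * √(n : ℝ) := Nat.floor_le (by positivity)
  have hcoef : 0 ≤ (1 - a / b) * om y + e * (3 * om y + 1) := by
    have := mul_nonneg (sub_nonneg.2 hr1) hom.le
    positivity
  have hm2 := mul_le_mul_of_nonneg_left hmono hcoef
  obtain ⟨X, hX⟩ : ∃ X : ℝ, X = (n : ℝ) / Real.log n := ⟨_, rfl⟩
  rw [← hX] at h2 hbs hm2 ⊢
  calc (cnt {p | p.Prime ∧ p ∉ AW a b y} n : ℝ) ≤ (y + ⌊b * √(n : ℝ)⌋₊) +
      ((PrC y m (S0 y) \ PrC y l (S0 y)).card : ℝ) := hcard2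
    _ ≤ (e * X + e * X) + ((1 - a / b) * om y + e * (3 * om y + 1)) * X := by linarith only [h2, hbs, hfl, hmain, hm2]
    _ = ((1 - a / b) * om y + e * (3 * om y + 3)) * X := by ring
    _ = _ := by rw [he2]

lemma class_win (W X N : ℕ) (hW : 0 < W) (hXN : X ≤ N) :
    ((N : ℝ) - X) / W - 1 ≤ (((Ioc X N).filter (fun n : ℕ => n ≡ 2 [MOD W])).card : ℝ) := by
  classical
  have h1 := Nat.Ioc_filter_modEq_card X N hW 2
  have h2 : ((((Ioc X N).filter (fun n : ℕ => n ≡ 2 [MOD W])).card : ℤ) : ℝ) =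
      ((max (⌊((N : ℚ) - (2 : ℕ)) / W⌋ - ⌊((X : ℚ) - (2 : ℕ)) / W⌋) 0 : ℤ) : ℝ) := by rw [h1]
  have h3 : (((⌊((N : ℚ) - (2 : ℕ)) / W⌋ - ⌊((X : ℚ) - (2 : ℕ)) / W⌋ : ℤ)) : ℝ) ≤
      (((Ioc X N).filter (fun n : ℕ => n ≡ 2 [MOD W])).card : ℝ) := by
    have h4 : ((((Ioc X N).filter (fun n : ℕ => n ≡ 2 [MOD W])).card : ℤ) : ℝ) =
      (((Ioc X N).filter (fun n : ℕ => n ≡ 2 [MOD W])).card : ℝ) := by push_cast; rfl
    rw [← h4, h2]
    exact_mod_cast le_max_left _ _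
  refine le_trans ?_ h3
  have hWQ : (0 : ℚ) < W := by exact_mod_cast hW
  have h5 : ((N : ℚ) - X) / W - 1 ≤ ((⌊((N : ℚ) - (2 : ℕ)) / W⌋ - ⌊((X : ℚ) - (2 : ℕ)) / W⌋ : ℤ) : ℚ) := by
    push_cast
    have a1 := Int.lt_floor_add_one (((N : ℚ) - 2) / W)
    have a2 := Int.floor_le (((X : ℚ) - 2) / W)
    have a3 : ((N : ℚ) - X) / W = ((N : ℚ) - 2) / W - ((X : ℚ) - 2) / W := by ring
    rw [a3]
    linarith
  have h6 : (((((N : ℚ) - X) / W - 1 : ℚ)) : ℝ) ≤
      (((⌊((N : ℚ) - (2 : ℕ)) / W⌋ - ⌊((X : ℚ) - (2 : ℕ)) / W⌋ : ℤ) : ℚ) : ℝ) := by exact_mod_cast h5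
  push_cast at h6 ⊢
  exact h6

/-- few remaining pairs in the class of `2` -/
lemma AW_few (κ κ' L τ : ℝ) (hκ'0 : 0 ≤ κ') (hL : 0 < L) (y n k : ℕ)
    (hn : (n : ZMod (Wp y)) = 2) (hn1 : XX k < n) (hn2 : (n : ℝ) ≤ (1 + τ) * XX k)
    (hnull : ¬ κ * (rd L Set.univ n : ℝ) < rd (κ' * L) Set.univ n) :
    (rd L (AW (1 + κ' * L) ((1 + L) * (1 + τ)) y) n : ℝ) ≤ κ * rd L Set.univ n := by
  push Not at hnull
  refine le_trans ?_ hnull
  have h1 : rdS L (AW (1 + κ' * L) ((1 + L) * (1 + τ)) y) n ⊆ rdS (κ' * L) Set.univ n := by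
    intro q hq
    rw [mem_rdS] at hq ⊢
    obtain ⟨⟨hq1, hq2⟩, ⟨hq3, hq4⟩, hq5, hq6⟩ := hq
    refine ⟨⟨hq1, ?_⟩, ⟨hq3, Set.mem_univ _⟩, hq5, Set.mem_univ _⟩
    have hup := unit_of_gt hq5 hq6.1
    have huq := unit_of_gt hq3 hq4.1
    have hS : ((q + n : ℕ) : ZMod (Wp y)) ∈ S0 y := by
      rw [mem_S0]
      refine ⟨hup, ?_⟩
      have h1 : (2 : ZMod (Wp y)) - ((q + n : ℕ) : ZMod (Wp y)) = -q := by
        push_cast
        rw [hn]
        ring
      rw [h1, IsUnit.neg_iff]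
      exact huq
    have hno : ¬ ((1 + κ' * L) * XX k < ((q + n : ℕ) : ℝ) ∧
        ((q + n : ℕ) : ℝ) ≤ (1 + L) * (1 + τ) * XX k) := fun h => hq6.2 ⟨hS, k, h⟩
    have hqr : (q : ℝ) ≤ L * n := by
      have a1 : (q : ℝ) ≤ (⌊L * (n : ℝ)⌋₊ : ℝ) := by exact_mod_cast hq2
      exact a1.trans (Nat.floor_le (by positivity))
    have hb : ((q + n : ℕ) : ℝ) ≤ (1 + L) * (1 + τ) * XX k := by
      push_cast
      have a2 := mul_le_mul_of_nonneg_left hn2 (show (0 : ℝ) ≤ 1 + L by linarith)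
      linarith
    have ha : ((q + n : ℕ) : ℝ) ≤ (1 + κ' * L) * XX k := by
      by_contra hcon
      push Not at hcon
      exact hno ⟨hcon, hb⟩
    push_cast at ha
    apply Nat.le_floor
    have hn1r : (XX k : ℝ) ≤ n := by exact_mod_cast hn1.le
    have a3 : κ' * L * (XX k : ℝ) ≤ κ' * L * n := mul_le_mul_of_nonneg_left hn1r (by positivity)
    linarith
  have h2 := card_le_card h1
  unfold rd
  exact_mod_cast h2

/-- the missing set is large -/
theorem upper_AW (κ κ' L τ : ℝ) (hκ'0 : 0 ≤ κ') (hL : 0 < L) (hτ : 0 < τ)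
    (hnull : upperDensity {n | Even n ∧ κ * (rd L Set.univ n : ℝ) < rd (κ' * L) Set.univ n} ≤ 0)
    (y : ℕ) (hy : 2 ≤ y) :
    τ / ((1 + τ) * Wp y) ≤ upperDensity {n | Even n ∧
      (rd L (AW (1 + κ' * L) ((1 + L) * (1 + τ)) y) n : ℝ) ≤ κ * rd L Set.univ n} := by
  classical
  obtain ⟨T, hT⟩ : ∃ T : Set ℕ, T = {n | Even n ∧
      (rd L (AW (1 + κ' * L) ((1 + L) * (1 + τ)) y) n : ℝ) ≤ κ * rd L Set.univ n} := ⟨_, rfl⟩
  rw [← hT]
  obtain ⟨S, hS⟩ : ∃ S : Set ℕ, S = {n | Even n ∧ κ * (rd L Set.univ n : ℝ) < rd (κ' * L) Set.univ n} := ⟨_, rfl⟩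
  rw [← hS] at hnull
  have hW0 : (0 : ℝ) < Wp y := by exact_mod_cast Wp_pos y
  have hW1 : (1 : ℝ) ≤ Wp y := by exact_mod_cast (Wp_pos y)
  apply le_of_forall_pos_le_add
  intro ε hε
  have key : τ / ((1 + τ) * Wp y) - ε ≤ upperDensity T := by
    unfold upperDensity
    apply le_limsup_of_frequently_le _ (ratio_bdd_above T)
    have hev1 : ∀ᶠ N : ℕ in atTop, (cnt S N : ℝ) / N < ε / 2 := by
      apply eventually_lt_of_limsup_lt _ (ratio_bdd_above S)
      unfold upperDensity at hnull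
      linarith
    have hev2 : ∀ᶠ N : ℕ in atTop, 2 ≤ ε / 2 * (N : ℝ) :=
      (tendsto_natCast_atTop_atTop.const_mul_atTop (by positivity)).eventually_ge_atTop _
    obtain ⟨N1, hN1⟩ := eventually_atTop.1 (hev1.and hev2)
    rw [frequently_atTop]
    intro M
    obtain ⟨k, hk⟩ : ∃ k : ℕ, k = M + N1 + 1 := ⟨_, rfl⟩
    obtain ⟨N, hN⟩ : ∃ N : ℕ, N = ⌊(1 + τ) * XX k⌋₊ := ⟨_, rfl⟩
    have hX0 : (0 : ℝ) ≤ XX k := Nat.cast_nonneg _
    have hXN : XX k ≤ N := by
      rw [hN]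
      apply Nat.le_floor
      have := mul_nonneg hτ.le hX0
      linarith
    have hkX := XX_lt k
    obtain ⟨h1, h2⟩ := hN1 N (by omega)
    refine ⟨N, by omega, ?_⟩
    have hN0 : (0 : ℝ) < N := by exact_mod_cast (by omega : 0 < N)
    have hNa : (N : ℝ) ≤ (1 + τ) * XX k := by rw [hN]; exact Nat.floor_le (by positivity)
    have hNb : (1 + τ) * XX k ≤ (N : ℝ) + 1 := by rw [hN]; exact (Nat.lt_floor_add_one _).le
    rw [div_lt_iff₀ hN0] at h1
    rw [le_div_iff₀ hN0]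
    have h3 := class_win (Wp y) (XX k) N (Wp_pos y) hXN
    have h4 := card_le_cnt T N ((Ioc (XX k) N).filter (fun n : ℕ => n ≡ 2 [MOD Wp y])) (cntS S N) (by
      intro n hn
      rw [mem_filter, mem_Ioc] at hn
      rw [mem_Icc]
      omega) (by
      intro n hn
      rw [mem_filter, mem_Ioc] at hn
      have hn2 : (n : ZMod (Wp y)) = 2 := by
        have a1 := (ZMod.natCast_eq_natCast_iff n 2 (Wp y)).2 hn.2
        rw [a1]
        norm_num
      have hev := even_of_two hy hn2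
      by_cases hnS : n ∈ S
      · right
        rw [mem_cntS]
        exact ⟨⟨by omega, hn.1.2⟩, hnS⟩
      · left
        rw [hT]
        refine ⟨hev, AW_few κ κ' L τ hκ'0 hL y n k hn2 hn.1.1 ?_ ?_⟩
        · have a2 : (n : ℝ) ≤ N := by exact_mod_cast hn.1.2
          exact a2.trans hNa
        · intro hcon
          apply hnS
          rw [hS]
          exact ⟨hev, hcon⟩)
    have h5 : ((((Ioc (XX k) N).filter (fun n : ℕ => n ≡ 2 [MOD Wp y])).card : ℕ) : ℝ) ≤ cnt T N + cnt S N := by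
      rw [← cnt_eq] at h4
      exact_mod_cast h4
    have h6 : τ / ((1 + τ) * Wp y) * N - 1 ≤ ((N : ℝ) - XX k) / Wp y := by
      have a1 : (τ * N - 1) / (1 + τ) ≤ (N : ℝ) - XX k := by
        rw [div_le_iff₀ (by linarith)]
        linarith
      have a2 : (τ * N - 1) / (1 + τ) / Wp y ≤ ((N : ℝ) - XX k) / Wp y := div_le_div_of_nonneg_right a1 hW0.le
      have a3 : (τ * N - 1) / (1 + τ) / Wp y = τ / ((1 + τ) * Wp y) * N - 1 / ((1 + τ) * Wp y) := by
        field_simp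
      have a4 : 1 / ((1 + τ) * Wp y) ≤ 1 := by
        rw [div_le_one (by positivity)]
        have := mul_nonneg hτ.le hW0.le
        linarith
      linarith
    linarith
  linarith

/-- the null set -/
lemma null_all (κ L t : ℝ) (hκ0 : 0 ≤ κ) (hκ1 : κ ≤ 1) (hL : 0 < L) (ht0 : 0 < t) (ht1 : t < 1) :
    upperDensity {n | Even n ∧ κ * (rd L Set.univ n : ℝ) < rd (κ * (1 - t) * L) Set.univ n} ≤ 0 := by
  rcases hκ0.lt_or_eq with hκ | hκ
  · have h1 := ratio_null κ (κ * (1 - t) * L) L hκ hκ1 (by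
      have : 0 < 1 - t := by linarith
      positivity) (by
      have : 0 < κ * L * t := by positivity
      linarith)
    refine le_trans ?_ h1
    unfold upperDensity
    apply limsup_le_limsup _ (ratio_bdd_below _).isCoboundedUnder_le (ratio_bdd_above _)
    apply Eventually.of_forall
    intro n
    apply div_le_div_of_nonneg_right _ (Nat.cast_nonneg _)
    have hsub : {n : ℕ | Even n ∧ κ * (rd L Set.univ n : ℝ) < rd (κ * (1 - t) * L) Set.univ n} ⊆
        {n : ℕ | Even n ∧ κ * (rd L Set.univ n : ℝ) ≤ rd (κ * (1 - t) * L) Set.univ n} := by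
      intro m hm
      exact ⟨hm.1, hm.2.le⟩
    have h2 := cnt_subset hsub n
    exact_mod_cast h2
  · have h1 : {n | Even n ∧ κ * (rd L Set.univ n : ℝ) < rd (κ * (1 - t) * L) Set.univ n} = (∅ : Set ℕ) := by
      ext n
      rw [Set.mem_empty_iff_false, iff_false]
      rintro ⟨_, h⟩
      rw [← hκ] at h
      have h2 : rd (0 * (1 - t) * L) Set.univ n = 0 := by
        unfold rd
        rw [card_eq_zero, eq_empty_iff_forall_notMem]
        intro q hq
        rw [mem_rdS] at hq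
        have h3 := hq.1
        norm_num at h3
        omega
      rw [h2] at h
      norm_num at h
    rw [h1]
    unfold upperDensity
    have h2 : (fun n : ℕ => (cnt (∅ : Set ℕ) n : ℝ) / n) = fun _ => 0 := by
      funext n
      have : cnt (∅ : Set ℕ) n = 0 := by
        unfold cnt
        simp
      rw [this]
      simp
    rw [h2]
    simp

lemma Wp_large (C : ℝ) : ∃ Y : ℕ, ∀ y : ℕ, Y ≤ y → C ≤ Wp y := by
  obtain ⟨p, hp1, hp⟩ := Nat.exists_infinite_primes ⌈C⌉₊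
  refine ⟨p, fun y hy => ?_⟩
  have h1 : p ∣ Wp y := (prime_dvd_Wp hp).2 hy
  have h2 := Nat.le_of_dvd (Wp_pos y) h1
  calc C ≤ (⌈C⌉₊ : ℝ) := Nat.le_ceil C
    _ ≤ (p : ℝ) := by exact_mod_cast hp1
    _ ≤ _ := by exact_mod_cast h2

/-- the example for the differences with few representations -/
theorem example_win (κ δ L : ℝ) (hκ0 : 0 ≤ κ) (hκ1 : κ < 1) (hδ : 0 < δ) (hL : 0 < L) :
    ∃ η0 : ℝ, 0 < η0 ∧ ∀ η : ℝ, 0 < η → η ≤ η0 → ∃ A : Set ℕ, 1 - η ≤ relLower A ∧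
      Real.exp (-Real.exp (((1 - κ) * (L / (1 + L)) * (2 * DD) + δ) / η)) ≤
        upperDensity {n | Even n ∧ (rd L A n : ℝ) ≤ κ * rd L Set.univ n} := by
  classical
  have hDD := DD_pos
  obtain ⟨t, ht⟩ : ∃ t : ℝ, t = min (δ / (16 * DD)) (1 / 2) := ⟨_, rfl⟩
  have ht0 : 0 < t := by rw [ht]; positivity
  have ht1 : t ≤ 1 / 2 := by rw [ht]; exact min_le_right _ _
  have ht2 : t ≤ δ / (16 * DD) := by rw [ht]; exact min_le_left _ _
  have ht3 : t * (16 * DD) ≤ δ := by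
    rw [le_div_iff₀ (by positivity)] at ht2
    exact ht2
  obtain ⟨κ', hκ'⟩ : ∃ κ' : ℝ, κ' = κ * (1 - t) := ⟨_, rfl⟩
  have h1t : 0 < 1 - t := by linarith
  have hκ'0 : 0 ≤ κ' := by rw [hκ']; positivity
  have hκκ' : κ - t ≤ κ' := by
    have := mul_le_mul_of_nonneg_right hκ1.le ht0.le
    rw [hκ']
    linarith
  have hκ'κ : κ' ≤ κ := by
    have := mul_nonneg hκ0 ht0.le
    rw [hκ']
    linarith
  obtain ⟨a, ha⟩ : ∃ a : ℝ, a = 1 + κ' * L := ⟨_, rfl⟩
  obtain ⟨b, hb⟩ : ∃ b : ℝ, b = (1 + L) * (1 + t) := ⟨_, rfl⟩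
  have hκL : κ' * L ≤ 1 * L := mul_le_mul_of_nonneg_right (by linarith) hL.le
  have hκL0 : 0 ≤ κ' * L := by positivity
  have hLt : 0 < L * t := by positivity
  have ha1 : 1 ≤ a := by rw [ha]; linarith
  have hab : a < b := by rw [ha, hb]; linarith
  have hb0 : 0 < b := by linarith
  have hr : 1 - a / b ≤ (1 - κ) * (L / (1 + L)) + 2 * t := by
    have h1 : 1 - a / b = (b - a) / b := by field_simp
    have h1L : 0 < 1 + L := by linarith
    have hb1 : 1 + L ≤ b := by rw [hb]; linarith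
    have h2 : (b - a) / b ≤ (b - a) / (1 + L) := div_le_div_of_nonneg_left (by linarith) h1L hb1
    have h3 : b - a ≤ L * (1 - κ) + 2 * t * (1 + L) := by
      have h4 := mul_le_mul_of_nonneg_right hκκ' hL.le
      rw [ha, hb]
      linarith
    have h5 : (b - a) / (1 + L) ≤ (L * (1 - κ) + 2 * t * (1 + L)) / (1 + L) := div_le_div_of_nonneg_right h3 h1L.le
    have h6 : (L * (1 - κ) + 2 * t * (1 + L)) / (1 + L) = (1 - κ) * (L / (1 + L)) + 2 * t := by
      field_simp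
    rw [h1]
    linarith
  have hr0 : 0 < 1 - a / b := by
    rw [sub_pos, div_lt_one hb0]
    exact hab
  have hlog : Tendsto (fun y : ℕ => (1 - a / b) * om y * Real.log y) atTop (𝓝 ((1 - a / b) * (2 * DD))) := by
    have h1 := om_log.const_mul (1 - a / b)
    have h2 : 2 * C2 * Real.exp (-Real.eulerMascheroniConstant) = 2 * DD := by unfold DD; ring
    rw [h2] at h1
    refine h1.congr (fun y => ?_)
    ring
  obtain ⟨η1, hη1, h1⟩ := choice_gen (fun y => (1 - a / b) * om y) (fun y => mul_pos hr0 (om_pos y)) _ hlog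
    (δ / 4) (by positivity)
  obtain ⟨Y0, hY0⟩ := Wp_large ((1 + t) / t + 2)
  obtain ⟨m, hm0, hm⟩ : ∃ m : ℝ, 0 < m ∧ ∀ y ∈ range (Y0 + 1), m ≤ (1 - a / b) * om y := by
    obtain ⟨x, hx, hmin⟩ := exists_min_image (range (Y0 + 1)) (fun y => (1 - a / b) * om y)
      ⟨0, mem_range.2 (by omega)⟩
    exact ⟨(1 - a / b) * om x, mul_pos hr0 (om_pos x), hmin⟩
  refine ⟨min η1 (min (m / 2) (δ / 4)), by positivity, fun η hη hηle => ?_⟩
  have g1 : η ≤ η1 := hηle.trans (min_le_left _ _)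
  have g2 : η ≤ m / 2 := hηle.trans ((min_le_right _ _).trans (min_le_left _ _))
  have g3 : η ≤ δ / 4 := hηle.trans ((min_le_right _ _).trans (min_le_right _ _))
  obtain ⟨y, hy2, hyF, hyL⟩ := h1 η hη g1
  have hyY : Y0 ≤ y := by
    by_contra hcon
    have := hm y (mem_range.2 (by omega))
    linarith
  have hW := hY0 y hyY
  refine ⟨AW a b y, by linarith [rel_AW a b ha1 hab.le y hy2], ?_⟩
  have hup := upper_AW κ κ' L t hκ'0 hL ht0 (by
    rw [hκ']
    exact null_all κ L t hκ0 hκ1.le hL ht0 (by linarith)) y hy2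
  rw [← ha, ← hb] at hup
  refine le_trans ?_ hup
  have htt : 0 < (1 + t) / t := by positivity
  have hW2 : (2 : ℝ) ≤ Wp y := by linarith
  have hW0 : (0 : ℝ) < Wp y := by linarith
  obtain ⟨V, hV⟩ : ∃ V : ℝ, V = (1 + t) / t * Wp y := ⟨_, rfl⟩
  have hVe : t / ((1 + t) * Wp y) = 1 / V := by
    rw [hV]
    field_simp
  have ht1' : 1 ≤ (1 + t) / t := by
    rw [le_div_iff₀ ht0]
    linarith
  have hV2 : 2 ≤ V := by
    rw [hV]
    calc (2 : ℝ) ≤ 1 * Wp y := by linarith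
      _ ≤ _ := mul_le_mul_of_nonneg_right ht1' hW0.le
  rw [hVe]
  apply exp_choice _ _ hV2
  have hlW : 0 < Real.log (Wp y) := Real.log_pos (by linarith)
  have hlV : Real.log V ≤ 2 * Real.log (Wp y) := by
    rw [hV, Real.log_mul htt.ne' hW0.ne']
    have := Real.log_le_log htt (show (1 + t) / t ≤ Wp y by linarith)
    linarith
  have hlV0 : 0 < Real.log V := Real.log_pos (by linarith)
  have hllV : Real.log (Real.log V) ≤ 1 + Real.log (Real.log (Wp y)) := by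
    have h2 := Real.log_le_log hlV0 hlV
    rw [Real.log_mul (by norm_num) hlW.ne'] at h2
    have := Real.log_two_lt_d9
    linarith
  refine hllV.trans ?_
  rw [le_div_iff₀ hη]
  have h3 : (1 - a / b) * (2 * DD) ≤ ((1 - κ) * (L / (1 + L)) + 2 * t) * (2 * DD) :=
    mul_le_mul_of_nonneg_right hr (by positivity)
  linarith

end Pool.Agent.K9h13.RD
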